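import Pool.Agent.H48.CP.Bridge

/-!
The criticality of a pair gives the honest cases of the axioms for two cut circuits
(project CP, MP_472c72).
-/

namespace H48CP

open Finset
open scoped Classical

variable {U : Type*}

/-- `S` is the set of the common elements of the two cut circuits -/
def Com (n : ℕ) (a : ℕ → U × Bool) (m : ℕ) (b : ℕ → U × Bool) (S : Finset U) : Prop :=
  ∀ u, u ∈ S ↔ occ n a u ∧ occ m b u

/-- honest sets of toggles -/
structure HT (n : ℕ) (a : ℕ → U × Bool) (m : ℕ) (b : ℕ → U × Bool) (S T : Finset U) : Prop where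
  sub : T ⊆ S
  card : (T.card : ZMod 2) = 0
  ne : T.Nonempty
  v : ∀ v ∈ S, v ∉ T → ¬ (cz n a T (posn n a v) = 1 ∧ cz m b T (posn m b v) = 1)
  sg : ∀ t ∈ T, ((sdo n a m b).sg t ↔ cz n a T (posn n a t) = cz m b T (posn m b t))

/-- the marking: what is known about the rest of the pair -/
structure Mark (P : Pr U) (n : ℕ) (a : ℕ → U × Bool) (m : ℕ) (b : ℕ → U × Bool) (S : Finset U) :
    Prop where
  x : ∀ T ⊆ S, (T.card : ZMod 2) = 0 → ¬ zz n a T P.p0
  y : ∀ T ⊆ S, (T.card : ZMod 2) = 0 → ¬ zz m b T P.q0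
  u : ∀ T ⊆ S, (T.card : ZMod 2) = 0 → ∀ Y h, P.BrU (zz n a T) (zz m b T) Y h →
    h ∈ S ∧ Y (a 0) = Y (b 0)
  e : ∀ T ⊆ S, (T.card : ZMod 2) = 0 → ∀ Y, P.BrE (zz n a T) (zz m b T) Y →
    Y (a 0) = Y (b 0) + 1

/-- local criticality with the marking: what the honest cases of the axioms need -/
structure LC (P : Pr U) (n : ℕ) (a : ℕ → U × Bool) (m : ℕ) (b : ℕ → U × Bool) (S : Finset U) :
    Prop where
  x : ∀ T ⊆ S, (T.card : ZMod 2) = 0 → ¬ zz n a T P.p0
  y : ∀ T ⊆ S, (T.card : ZMod 2) = 0 → ¬ zz m b T P.q0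
  c : ∀ T, HT n a m b S T → P.Alt (zz n a T) (zz m b T) →
    (∃ Y h, P.BrU (zz n a T) (zz m b T) Y h ∧ h ∈ S ∧ Y (a 0) = Y (b 0)) ∨
      ∃ Y, P.BrE (zz n a T) (zz m b T) Y ∧ Y (a 0) = Y (b 0) + 1

section two

variable {P : Pr U} {n m : ℕ} {a b : ℕ → U × Bool} {S T : Finset U}

/-- adjacency modulo two -/
noncomputable def wt (n : ℕ) (a : ℕ → U × Bool) (m : ℕ) (b : ℕ → U × Bool) (u v : U) : ZMod 2 :=
  if (sdo n a m b).G.adj u v then 1 else 0

lemma sdo_adj {u v : U} : (sdo n a m b).G.adj u v ↔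
    (posn n a u < posn n a v ∧ posn m b v < posn m b u) ∨
    (posn n a v < posn n a u ∧ posn m b u < posn m b v) := by
  show ((posn n a u : ℤ) < posn n a v ∧ (posn m b v : ℤ) < posn m b u) ∨
    ((posn n a v : ℤ) < posn n a u ∧ (posn m b u : ℤ) < posn m b v) ↔ _
  norm_cast

lemma posn_inj {u v : U} (hu : occ n a u) (hv : occ n a v) (h : posn n a u = posn n a v) :
    u = v := by
  rw [← (posn_spec hu).2, ← (posn_spec hv).2, h]

lemma wt_eq {u v : U} (hS : Com n a m b S) (hu : u ∈ S) (hv : v ∈ S) (huv : u ≠ v) :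
    (if posn n a u < posn n a v then (1 : ZMod 2) else 0) +
      (if posn m b u < posn m b v then 1 else 0) = wt n a m b u v := by
  have h1 : posn n a u ≠ posn n a v := fun h =>
    huv (posn_inj ((hS u).1 hu).1 ((hS v).1 hv).1 h)
  have h2 : posn m b u ≠ posn m b v := fun h =>
    huv (posn_inj ((hS u).1 hu).2 ((hS v).1 hv).2 h)
  unfold wt
  rw [if_congr sdo_adj rfl rfl]
  rcases lt_or_gt_of_ne h1 with h3 | h3 <;> rcases lt_or_gt_of_ne h2 with h4 | h4
  · rw [if_pos h3, if_pos h4, if_neg (by omega)]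
    decide
  · rw [if_pos h3, if_neg (by omega), if_pos (by omega)]
    decide
  · rw [if_neg (by omega), if_pos h4, if_pos (by omega)]
    decide
  · rw [if_neg (by omega), if_neg (by omega), if_neg (by omega)]
    decide

lemma wt_self {u : U} : wt n a m b u u = 0 := by
  unfold wt
  rw [if_neg]
  exact (sdo n a m b).G.irr u

lemma sz_add (hS : Com n a m b S) {T : Finset U} (hT : T ⊆ S) {f : U → ZMod 2} {v : U}
    (hv : v ∈ S) : sz n a T f (posn n a v) + sz m b T f (posn m b v) =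
      ∑ t ∈ T, wt n a m b t v * f t := by
  unfold sz
  rw [← sum_add_distrib]
  refine sum_congr rfl fun t ht => ?_
  by_cases htv : t = v
  · subst htv
    rw [wt_self, zero_mul, if_neg (lt_irrefl _), if_neg (lt_irrefl _), add_zero]
  · rw [← wt_eq hS (hT ht) hv htv]
    split_ifs <;> ring

lemma cz_add (hS : Com n a m b S) {T : Finset U} (hT : T ⊆ S) {v : U} (hv : v ∈ S) :
    cz n a T (posn n a v) + cz m b T (posn m b v) = ∑ t ∈ T, wt n a m b t v := by
  rw [cz_eq_sz, cz_eq_sz, sz_add hS hT hv]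
  simp

/-- the honest sets give alternating circuits -/
lemma HT.alt (hP : LC P n a m b S) (ha : CutSeq P.al n a) (hb : CutSeq P.be m b)
    (hS : Com n a m b S) (hT : HT n a m b S T) : P.Alt (zz n a T) (zz m b T) := by
  have hTa : ∀ t ∈ T, occ n a t := fun t ht => ((hS t).1 (hT.sub ht)).1
  have hTb : ∀ t ∈ T, occ m b t := fun t ht => ((hS t).1 (hT.sub ht)).2
  -- the values at the two ends
  have hA : ∀ e, occ n a e.1 → e.1 ∉ T → (zz n a T e ↔ cz n a T (posn n a e.1) = 1) := by
    intro e he heT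
    obtain ⟨hp, hp2⟩ := posn_spec he
    rcases end_cases he with h | h
    · conv_lhs => rw [h]
      rw [zz_in ha hp]
    · conv_lhs => rw [h]
      rw [zz_out ha hp, cz_succ_not ha hp (by rw [hp2]; exact heT)]
  have hB : ∀ e, occ m b e.1 → e.1 ∉ T → (zz m b T e ↔ cz m b T (posn m b e.1) = 1) := by
    intro e he heT
    obtain ⟨hp, hp2⟩ := posn_spec he
    rcases end_cases he with h | h
    · conv_lhs => rw [h]
      rw [zz_in hb hp]
    · conv_lhs => rw [h]
      rw [zz_out hb hp, cz_succ_not hb hp (by rw [hp2]; exact heT)]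
  -- elements of `T`
  have hTA : ∀ e : U × Bool, e.1 ∈ T → (zz n a T e ↔
      (e = a (posn n a e.1) ↔ cz n a T (posn n a e.1) = 1)) := by
    intro e heT
    obtain ⟨hp, hp2⟩ := posn_spec (hTa _ heT)
    have hc := cz_succ_mem (T := T) ha hp (by rw [hp2]; exact heT)
    rcases end_cases (hTa _ heT) with h | h
    · have h1 : zz n a T e ↔ cz n a T (posn n a e.1) = 1 := by
        conv_lhs => rw [h]
        rw [zz_in ha hp]
      rw [h1]
      exact ⟨fun h2 => ⟨fun _ => h2, fun _ => h⟩, fun h2 => h2.1 h⟩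
    · have h1 : zz n a T e ↔ cz n a T (posn n a e.1 + 1) = 1 := by
        conv_lhs => rw [h]
        rw [zz_out ha hp]
      have h3 : e ≠ a (posn n a e.1) := fun h4 => mu_ne _ (h.symm.trans h4)
      rw [h1, hc]
      rcases z2 (cz n a T (posn n a e.1)) with h5 | h5
      · rw [h5]
        simp [h3]
      · rw [h5]
        simp only [h3, false_iff, not_true_eq_false, iff_false]
        decide
  have hTB : ∀ e : U × Bool, e.1 ∈ T → (zz m b T e ↔
      (e = b (posn m b e.1) ↔ cz m b T (posn m b e.1) = 1)) := by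
    intro e heT
    obtain ⟨hp, hp2⟩ := posn_spec (hTb _ heT)
    have hc := cz_succ_mem (T := T) hb hp (by rw [hp2]; exact heT)
    rcases end_cases (hTb _ heT) with h | h
    · have h1 : zz m b T e ↔ cz m b T (posn m b e.1) = 1 := by
        conv_lhs => rw [h]
        rw [zz_in hb hp]
      rw [h1]
      exact ⟨fun h2 => ⟨fun _ => h2, fun _ => h⟩, fun h2 => h2.1 h⟩
    · have h1 : zz m b T e ↔ cz m b T (posn m b e.1 + 1) = 1 := by
        conv_lhs => rw [h]
        rw [zz_out hb hp]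
      have h3 : e ≠ b (posn m b e.1) := fun h4 => mu_ne _ (h.symm.trans h4)
      rw [h1, hc]
      rcases z2 (cz m b T (posn m b e.1)) with h5 | h5
      · rw [h5]
        simp [h3]
      · rw [h5]
        simp only [h3, false_iff, not_true_eq_false, iff_false]
        decide
  have hTx : ∀ e : U × Bool, e.1 ∈ T → (zz n a T e ↔ ¬ zz m b T e) := by
    intro e heT
    rw [hTA e heT, hTB e heT]
    have h1 := hT.sg e.1 heT
    have h2 : (sdo n a m b).sg e.1 ↔ a (posn n a e.1) ≠ b (posn m b e.1) := Iff.rfl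
    rw [h2] at h1
    have h3 : (e = a (posn n a e.1) ↔ e = b (posn m b e.1)) ↔
        a (posn n a e.1) = b (posn m b e.1) := by
      constructor
      · intro h
        rcases end_cases (hTa _ heT) with h4 | h4
        · exact h4.symm.trans (h.1 h4)
        · have h5 : e ≠ a (posn n a e.1) := fun h6 => mu_ne _ (h4.symm.trans h6)
          have h6 : e ≠ b (posn m b e.1) := fun h7 => h5 (h.2 h7)
          have h7 := (end_cases (hTb _ heT)).resolve_left h6
          have h8 := congrArg mu (h4.symm.trans h7)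
          rwa [mu_mu, mu_mu] at h8
      · intro h
        rw [h]
    have h4 : cz n a T (posn n a e.1) = cz m b T (posn m b e.1) ↔
        (cz n a T (posn n a e.1) = 1 ↔ cz m b T (posn m b e.1) = 1) := by
      rcases z2 (cz n a T (posn n a e.1)) with h5 | h5 <;>
        rcases z2 (cz m b T (posn m b e.1)) with h6 | h6 <;> rw [h5, h6] <;> decide
    rw [h4] at h1
    tauto
  refine ⟨fun e => zz_sigma ha P.al2 hTa hT.card e, fun e => zz_sigma hb P.be2 hTb hT.card e,
    ?_, ?_, hP.x T hT.sub hT.card, hP.y T hT.sub hT.card, ?_⟩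
  · rintro e ⟨h1, h2⟩
    by_cases heT : e.1 ∈ T
    · exact (hTx e heT).1 h1 h2
    · refine hT.v e.1 ((hS _).2 ⟨h1.1, h2.1⟩) heT ⟨(hA e h1.1 heT).1 h1, (hB e h2.1 heT).1 h2⟩
  · intro e
    by_cases heT : e.1 ∈ T
    · have h1 := hTx e heT
      have h2 := hTx (mu e) heT
      tauto
    · have h1 : zz n a T (mu e) ↔ zz n a T e := by
        by_cases ho : occ n a e.1
        · rw [hA e ho heT, hA (mu e) ho heT, mu_fst]
        · exact ⟨fun h => absurd h.1 ho, fun h => absurd h.1 ho⟩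
      have h2 : zz m b T (mu e) ↔ zz m b T e := by
        by_cases ho : occ m b e.1
        · rw [hB e ho heT, hB (mu e) ho heT, mu_fst]
        · exact ⟨fun h => absurd h.1 ho, fun h => absurd h.1 ho⟩
      rw [h1, h2]
  · obtain ⟨t, ht⟩ := hT.ne
    have h1 := hTx (t, true) ht
    by_cases h2 : zz n a T (t, true)
    · exact ⟨_, Or.inl h2⟩
    · exact ⟨(t, true), Or.inr (by tauto)⟩

/-- the equations of a bridge -/
structure Eqs (n : ℕ) (a : ℕ → U × Bool) (m : ℕ) (b : ℕ → U × Bool) (S T Hs : Finset U) (c : ZMod 2)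
    (Y : U → ZMod 2) : Prop where
  hs : Hs ⊆ S
  hd : ∀ t ∈ T, t ∉ Hs
  out : ∀ v ∈ S, v ∉ T → v ∉ Hs → ∑ t ∈ T, wt n a m b t v = 0 →
    c + ∑ t ∈ T, wt n a m b t v * Y t + ∑ u ∈ Hs, wt n a m b u v = 0
  inn : ∀ t₀ ∈ T, c + ∑ t ∈ T, wt n a m b t t₀ * Y t +
    (if (sdo n a m b).sg t₀ then Y t₀ else 0) + ∑ u ∈ Hs, wt n a m b u t₀ = Y t₀
  hh : ∀ h ∈ Hs, c + ∑ t ∈ T, wt n a m b t h * Y t + ∑ u ∈ Hs, wt n a m b u h =
    if (sdo n a m b).sg h then 1 else 0
  cl : ∑ t ∈ T, Y t + (Hs.card : ZMod 2) = 0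

lemma eqs_of (ha : CutSeq P.al n a) (hb : CutSeq P.be m b) (hS : Com n a m b S)
    (hT : HT n a m b S T) {Hs : Finset U} (hHs : Hs ⊆ S) {Y : U × Bool → ZMod 2}
    (hYa : ∀ e, ¬ zz n a T e → Y (P.al e) = Y e) (hYb : ∀ e, ¬ zz m b T e → Y (P.be e) = Y e)
    (hm : ∀ e, Y (mu e) = Y e + if e.1 ∈ Hs then 1 else 0)
    (hz : ∀ h ∈ Hs, ∀ i, ¬ zz n a T (h, i) ∧ ¬ zz m b T (h, i)) :
    Eqs n a m b S T Hs (Y (a 0) + Y (b 0)) (fun u => Y (u, true)) := by
  have hTa : ∀ t ∈ T, occ n a t := fun t ht => ((hS t).1 (hT.sub ht)).1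
  have hTb : ∀ t ∈ T, occ m b t := fun t ht => ((hS t).1 (hT.sub ht)).2
  have hHa : ∀ t ∈ Hs, occ n a t := fun t ht => ((hS t).1 (hHs ht)).1
  have hHb : ∀ t ∈ Hs, occ m b t := fun t ht => ((hS t).1 (hHs ht)).2
  have hcA : ∀ h ∈ Hs, cz n a T (posn n a h) = 0 := by
    intro h hh
    obtain ⟨hp, hp2⟩ := posn_spec (hHa h hh)
    apply z2_ne_one
    intro hcz
    have h0 := (zz_in ha hp).2 hcz
    have h1 := (hz h hh (a (posn n a h)).2).1
    have h2 : (h, (a (posn n a h)).2) = a (posn n a h) := Prod.ext hp2.symm rfl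
    rw [h2] at h1
    exact h1 h0
  have hcB : ∀ h ∈ Hs, cz m b T (posn m b h) = 0 := by
    intro h hh
    obtain ⟨hp, hp2⟩ := posn_spec (hHb h hh)
    apply z2_ne_one
    intro hcz
    have h0 := (zz_in hb hp).2 hcz
    have h1 := (hz h hh (b (posn m b h)).2).2
    have h2 : (h, (b (posn m b h)).2) = b (posn m b h) := Prod.ext hp2.symm rfl
    rw [h2] at h1
    exact h1 h0
  have hdis : ∀ t ∈ T, t ∉ Hs := by
    intro t ht htH
    obtain ⟨hp, hp2⟩ := posn_spec (hTa t ht)
    have h0 := hcA t htH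
    have h1 := cz_succ_mem (T := T) ha hp (by rw [hp2]; exact ht)
    rw [h0, zero_add, ← zz_out ha hp] at h1
    have h2 := (hz t htH (mu (a (posn n a t))).2).1
    have h3 : (t, (mu (a (posn n a t))).2) = mu (a (posn n a t)) := by
      have h4 : (mu (a (posn n a t))).1 = t := by rw [mu_fst, hp2]
      exact Prod.ext h4.symm rfl
    rw [h3] at h2
    exact h2 h1
  have hHA : ∀ i, i < n → (a i).1 ∈ Hs → cz n a T i = 0 := by
    intro i hi h
    have := hcA _ h
    rwa [posn_of ha hi rfl] at this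
  have hHB : ∀ i, i < m → (b i).1 ∈ Hs → cz m b T i = 0 := by
    intro i hi h
    have := hcB _ h
    rwa [posn_of hb hi rfl] at this
  have vA := fun k hk => val ha (fun e _ => hYa e) hm hdis hHA k hk
  have vB := fun k hk => val hb (fun e _ => hYb e) hm hdis hHB k hk
  have hYv : ∀ e : U × Bool, e.1 ∉ Hs → Y (e.1, true) = Y e := by
    intro e he
    have h1 := hm e
    rw [if_neg he, add_zero] at h1
    rcases e with ⟨u, i⟩
    cases i
    · exact h1
    · rfl
  have one1 : ∀ v, ∑ u ∈ Hs, wt n a m b u v = ∑ u ∈ Hs, wt n a m b u v * 1 := by simp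
  refine ⟨hHs, hdis, ?_, ?_, ?_, ?_⟩
  · intro v hv hvT hvH h0
    obtain ⟨ho1, ho2⟩ := (hS v).1 hv
    obtain ⟨hp1, hp1'⟩ := posn_spec ho1
    obtain ⟨hp2, hp2'⟩ := posn_spec ho2
    have h1 := cz_add hS hT.sub hv
    rw [h0] at h1
    have h2 := hT.v v hv hvT
    have h3 : cz n a T (posn n a v) = 0 ∧ cz m b T (posn m b v) = 0 := by
      rcases z2 (cz n a T (posn n a v)) with h4 | h4 <;>
        rcases z2 (cz m b T (posn m b v)) with h5 | h5
      · exact ⟨h4, h5⟩
      · rw [h4, h5] at h1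
        exact absurd h1 (by decide)
      · rw [h4, h5] at h1
        exact absurd h1 (by decide)
      · exact absurd ⟨h4, h5⟩ h2
    have h4 := (vA _ hp1).1 h3.1
    have h5 := (vB _ hp2).1 h3.2
    have h6 := hYv (a (posn n a v)) (by rw [hp1']; exact hvH)
    have h7 := hYv (b (posn m b v)) (by rw [hp2']; exact hvH)
    rw [hp1'] at h6
    rw [hp2'] at h7
    rw [← h6] at h4
    rw [← h7] at h5
    rw [one1, ← sz_add hS hT.sub hv, ← sz_add hS hHs hv]
    have h8 := z2_add_self (Y (v, true))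
    calc _ = (Y (a 0) + sz n a T (fun t => Y (t, true)) (posn n a v) +
          sz n a Hs (fun _ => 1) (posn n a v)) + (Y (b 0) +
          sz m b T (fun t => Y (t, true)) (posn m b v) + sz m b Hs (fun _ => 1) (posn m b v)) := by
          ring
      _ = Y (v, true) + Y (v, true) := by rw [← h4, ← h5]
      _ = 0 := h8
  · intro v hvT
    have hv := hT.sub hvT
    have hvH := hdis v hvT
    obtain ⟨ho1, ho2⟩ := (hS v).1 hv
    obtain ⟨hp1, hp1'⟩ := posn_spec ho1
    obtain ⟨hp2, hp2'⟩ := posn_spec ho2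
    have h6 := hYv (a (posn n a v)) (by rw [hp1']; exact hvH)
    have h7 := hYv (b (posn m b v)) (by rw [hp2']; exact hvH)
    rw [hp1'] at h6
    rw [hp2'] at h7
    have hA := vA _ hp1
    have hB := vB _ hp2
    rw [← h6] at hA
    rw [← h7] at hB
    rw [one1, ← sz_add hS hT.sub hv, ← sz_add hS hHs hv]
    set A : ZMod 2 := Y (a 0) + sz n a T (fun t => Y (t, true)) (posn n a v) +
      sz n a Hs (fun _ => 1) (posn n a v) with hAd
    set B : ZMod 2 := Y (b 0) + sz m b T (fun t => Y (t, true)) (posn m b v) +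
      sz m b Hs (fun _ => 1) (posn m b v) with hBd
    have e1 : Y (a 0) + Y (b 0) + (sz n a T (fun t => Y (t, true)) (posn n a v) +
        sz m b T (fun t => Y (t, true)) (posn m b v)) + (if (sdo n a m b).sg v then Y (v, true)
        else 0) + (sz n a Hs (fun _ => 1) (posn n a v) + sz m b Hs (fun _ => 1) (posn m b v)) =
        A + B + (if (sdo n a m b).sg v then Y (v, true) else 0) := by
      rw [hAd, hBd]
      ring
    rw [e1]
    have hsg := hT.sg v hvT
    have key : ∀ A B y : ZMod 2, ∀ s : Prop, ∀ [Decidable s], ∀ ca cb : ZMod 2,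
        (s ↔ ca = cb) → ((ca = 0 → y = A) ∧ (ca = 1 → A = 0)) →
        ((cb = 0 → y = B) ∧ (cb = 1 → B = 0)) → A + B + (if s then y else 0) = y := by
      intro A B y s _ ca cb h1 h2 h3
      rcases z2 ca with h4 | h4 <;> rcases z2 cb with h5 | h5 <;> subst h4 <;> subst h5
      · rw [if_pos (h1.2 rfl), ← h2.1 rfl, ← h3.1 rfl, z2_add_self, zero_add]
      · rw [if_neg (fun h => absurd (h1.1 h) (by decide)), ← h2.1 rfl, h3.2 rfl]
        ring
      · rw [if_neg (fun h => absurd (h1.1 h) (by decide)), h2.2 rfl, ← h3.1 rfl]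
        ring
      · rw [if_pos (h1.2 rfl), h2.2 rfl, h3.2 rfl]
        ring
    exact key A B (Y (v, true)) _ _ _ hsg hA hB
  · intro h hh
    have hv := hHs hh
    obtain ⟨ho1, ho2⟩ := (hS h).1 hv
    obtain ⟨hp1, hp1'⟩ := posn_spec ho1
    obtain ⟨hp2, hp2'⟩ := posn_spec ho2
    have h4 := (vA _ hp1).1 (hcA h hh)
    have h5 := (vB _ hp2).1 (hcB h hh)
    rw [one1, ← sz_add hS hT.sub hv, ← sz_add hS hHs hv]
    have e1 : Y (a 0) + Y (b 0) + (sz n a T (fun t => Y (t, true)) (posn n a h) +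
        sz m b T (fun t => Y (t, true)) (posn m b h)) +
        (sz n a Hs (fun _ => 1) (posn n a h) + sz m b Hs (fun _ => 1) (posn m b h)) =
        Y (a (posn n a h)) + Y (b (posn m b h)) := by
      rw [h4, h5]
      ring
    rw [e1]
    by_cases hsg : (sdo n a m b).sg h
    · rw [if_pos hsg]
      have h6 : a (posn n a h) ≠ b (posn m b h) := hsg
      have h7 : b (posn m b h) = mu (a (posn n a h)) :=
        (eq_or_mu (hp2'.trans hp1'.symm)).resolve_left (fun h8 => h6 h8.symm)
      rw [h7, hm, if_pos (by rw [hp1']; exact hh)]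
      have := z2_add_self (Y (a (posn n a h)))
      calc _ = (Y (a (posn n a h)) + Y (a (posn n a h))) + 1 := by ring
        _ = 1 := by rw [this]; ring
    · rw [if_neg hsg]
      have h6 : a (posn n a h) = b (posn m b h) := by
        by_contra h7
        exact hsg h7
      rw [← h6]
      exact z2_add_self _
  · exact val_close ha (fun e _ => hYa e) hm hdis hHA hTa hHa hT.card

/-- local criticality: the circuits defined by honest sets leave a bridge -/
def LCrit (P : Pr U) (n : ℕ) (a : ℕ → U × Bool) (m : ℕ) (b : ℕ → U × Bool) (S : Finset U) : Prop :=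
  ∀ T ⊆ S, HT n a m b S T → P.Alt (zz n a T) (zz m b T) →
    (∃ Y h, P.BrU (zz n a T) (zz m b T) Y h) ∨ ∃ Y, P.BrE (zz n a T) (zz m b T) Y

lemma LCrit.lc (hc : LCrit P n a m b S) (hP : Mark P n a m b S) : LC P n a m b S where
  x := hP.x
  y := hP.y
  c := by
    intro T hT hA
    rcases hc T hT.sub hT hA with ⟨Y, h, hB⟩ | ⟨Y, hB⟩
    · exact Or.inl ⟨Y, h, hB, hP.u T hT.sub hT.card Y h hB⟩
    · exact Or.inr ⟨Y, hB, hP.e T hT.sub hT.card Y hB⟩

/-- criticality gives the equations -/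
lemma HT.eqs (hP : LC P n a m b S) (ha : CutSeq P.al n a)
    (hb : CutSeq P.be m b) (hS : Com n a m b S) (hT : HT n a m b S T) :
    (∃ h ∈ S, ∃ Y, Eqs n a m b S T {h} 0 Y) ∨ ∃ Y, Eqs n a m b S T ∅ 1 Y := by
  rcases hP.c _ hT (hT.alt hP ha hb hS) with ⟨Y, h, hB, hh, h0⟩ | ⟨Y, hB, h0⟩
  · left
    refine ⟨h, hh, fun u => Y (u, true), ?_⟩
    have h1 := eqs_of ha hb hS hT (singleton_subset_iff.2 hh) hB.ya hB.yb (by
      intro e
      by_cases he : e.1 = h
      · rw [if_pos (mem_singleton.2 he)]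
        rcases e with ⟨u, i⟩
        simp only at he
        subst he
        have h2 := hB.yh
        cases i
        · exact h2
        · show Y (u, false) = Y (u, true) + 1
          rw [h2]
          have := z2_add_self (1 : ZMod 2)
          rw [add_assoc, this, add_zero]
      · rw [if_neg (fun h2 => he (mem_singleton.1 h2)), add_zero]
        exact hB.ym e he) (by
      intro h' hh' i
      rw [mem_singleton] at hh'
      subst hh'
      exact hB.hz i)
    rwa [h0, z2_add_self] at h1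
  · right
    refine ⟨fun u => Y (u, true), ?_⟩
    have h1 := eqs_of ha hb hS hT (empty_subset S) hB.ya hB.yb (by
      intro e
      rw [if_neg (notMem_empty _), add_zero]
      exact hB.ym e) (by
      intro h' hh'
      exact absurd hh' (notMem_empty _))
    rw [h0] at h1
    have h2 : Y (b 0) + 1 + Y (b 0) = 1 := by
      have := z2_add_self (Y (b 0))
      calc _ = (Y (b 0) + Y (b 0)) + 1 := by ring
        _ = 1 := by rw [this]; ring
    rwa [h2] at h1

/-! ### pairs -/

lemma wt_one {u v : U} : wt n a m b u v = 1 ↔ (sdo n a m b).G.adj u v := by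
  unfold wt
  by_cases h : (sdo n a m b).G.adj u v
  · rw [if_pos h]
    exact ⟨fun _ => h, fun _ => rfl⟩
  · rw [if_neg h]
    exact ⟨fun h' => absurd h' (by decide), fun h' => absurd h' h⟩

lemma wt_zero {u v : U} : wt n a m b u v = 0 ↔ ¬ (sdo n a m b).G.adj u v := by
  rw [← wt_one]
  rcases z2 (wt n a m b u v) with h | h <;> rw [h] <;> decide

lemma wt_comm {u v : U} : wt n a m b u v = wt n a m b v u := by
  unfold wt
  refine if_congr ?_ rfl rfl
  exact ⟨fun h => (sdo n a m b).G.symm h, fun h => (sdo n a m b).G.symm h⟩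

lemma cz_pair {u v : U} (huv : u ≠ v) {k : ℕ} : cz n a {u, v} k =
    (if posn n a u < k then 1 else 0) + (if posn n a v < k then 1 else 0) := by
  unfold cz
  rw [sum_pair huv]

lemma HT.pair (hS : Com n a m b S) {u v : U} (hu : u ∈ S) (hv : v ∈ S) (huv : u ≠ v)
    (hB : ∀ w ∈ S, ¬ (sdo n a m b).Btw2 u v w)
    (hsg : ((sdo n a m b).sg u ↔ ¬ (sdo n a m b).G.adj u v) ∧
      ((sdo n a m b).sg v ↔ ¬ (sdo n a m b).G.adj u v)) : HT n a m b S {u, v} := by
  have hpa : posn n a u ≠ posn n a v := fun h =>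
    huv (posn_inj ((hS u).1 hu).1 ((hS v).1 hv).1 h)
  have hpb : posn m b u ≠ posn m b v := fun h =>
    huv (posn_inj ((hS u).1 hu).2 ((hS v).1 hv).2 h)
  refine ⟨?_, ?_, ⟨u, mem_insert_self _ _⟩, ?_, ?_⟩
  · intro w hw
    rcases mem_insert.1 hw with h | h
    · rw [h]; exact hu
    · rw [mem_singleton.1 h]; exact hv
  · rw [card_pair huv]
    decide
  · intro w hw hwT ⟨h1, h2⟩
    rw [cz_pair huv] at h1 h2
    have hwu : w ≠ u := fun h => hwT (by rw [h]; exact mem_insert_self _ _)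
    have hwv : w ≠ v := fun h => hwT (by rw [h]; exact mem_insert_of_mem (mem_singleton_self _))
    have k1 : posn n a w ≠ posn n a u := fun h =>
      hwu (posn_inj ((hS w).1 hw).1 ((hS u).1 hu).1 h)
    have k2 : posn n a w ≠ posn n a v := fun h =>
      hwv (posn_inj ((hS w).1 hw).1 ((hS v).1 hv).1 h)
    have k3 : posn m b w ≠ posn m b u := fun h =>
      hwu (posn_inj ((hS w).1 hw).2 ((hS u).1 hu).2 h)
    have k4 : posn m b w ≠ posn m b v := fun h =>
      hwv (posn_inj ((hS w).1 hw).2 ((hS v).1 hv).2 h)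
    apply hB w hw
    have e1 : (posn n a u < posn n a w ∧ posn n a w < posn n a v) ∨
        (posn n a v < posn n a w ∧ posn n a w < posn n a u) := by
      split_ifs at h1 with h3 h4 h4
      · exact absurd h1 (by decide)
      · exact Or.inl ⟨h3, by omega⟩
      · exact Or.inr ⟨h4, by omega⟩
      · exact absurd h1 (by decide)
    have e2 : (posn m b u < posn m b w ∧ posn m b w < posn m b v) ∨
        (posn m b v < posn m b w ∧ posn m b w < posn m b u) := by
      split_ifs at h2 with h3 h4 h4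
      · exact absurd h2 (by decide)
      · exact Or.inl ⟨h3, by omega⟩
      · exact Or.inr ⟨h4, by omega⟩
      · exact absurd h2 (by decide)
    show ((((posn n a u : ℤ) < posn n a w ∧ (posn n a w : ℤ) < posn n a v) ∨
      ((posn n a v : ℤ) < posn n a w ∧ (posn n a w : ℤ) < posn n a u)) ∧
      (((posn m b u : ℤ) < posn m b w ∧ (posn m b w : ℤ) < posn m b v) ∨
      ((posn m b v : ℤ) < posn m b w ∧ (posn m b w : ℤ) < posn m b u)))
    have e3 := And.intro e1 e2
    exact_mod_cast e3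
  · have hadj : (sdo n a m b).G.adj u v ↔
        ((posn n a u < posn n a v ∧ posn m b v < posn m b u) ∨
        (posn n a v < posn n a u ∧ posn m b u < posn m b v)) := sdo_adj
    intro t ht
    rcases mem_insert.1 ht with h | h
    · subst h
      rw [hsg.1, hadj, cz_pair huv, cz_pair huv, if_neg (lt_irrefl _), if_neg (lt_irrefl _)]
      split_ifs with h1 h2 h2
      · simp only [zero_add, iff_true]; omega
      · simp only [zero_add]
        constructor
        · intro h3; exfalso; apply h3; omega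
        · intro h3; exact absurd h3 (by decide)
      · simp only [zero_add]
        constructor
        · intro h3; exfalso; apply h3; omega
        · intro h3; exact absurd h3 (by decide)
      · simp only [zero_add, iff_true]; omega
    · rw [mem_singleton] at h
      subst h
      rw [hsg.2, hadj, cz_pair huv, cz_pair huv, if_neg (lt_irrefl _), if_neg (lt_irrefl _)]
      split_ifs with h1 h2 h2
      · simp only [add_zero, iff_true]; omega
      · simp only [add_zero]
        constructor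
        · intro h3; exfalso; apply h3; omega
        · intro h3; exact absurd h3 (by decide)
      · simp only [add_zero]
        constructor
        · intro h3; exfalso; apply h3; omega
        · intro h3; exact absurd h3 (by decide)
      · simp only [add_zero, iff_true]; omega

/-- (E2a), honest case, from the equations -/
lemma e2a_of {u v h : U} {Y : U → ZMod 2} (hu : u ∈ S) (hv : v ∈ S) (huv : u ≠ v)
    (hadj : (sdo n a m b).G.adj u v) (su : ¬ (sdo n a m b).sg u) (sv : ¬ (sdo n a m b).sg v)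
    (hE : Eqs n a m b S {u, v} {h} 0 Y) :
    (sdo n a m b).sg h ∧ (sdo n a m b).G.adj h u ∧ (sdo n a m b).G.adj h v ∧
      (sdo n a m b).G.Btw S u v h := by
  have w1 : wt n a m b u v = 1 := wt_one.2 hadj
  have w2 : wt n a m b v u = 1 := wt_one.2 ((sdo n a m b).G.symm hadj)
  have hcl := hE.cl
  rw [sum_pair huv, card_singleton, Nat.cast_one] at hcl
  have h1 := hE.inn u (mem_insert_self _ _)
  have h2 := hE.inn v (mem_insert_of_mem (mem_singleton_self _))
  have h3 := hE.hh h (mem_singleton_self _)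
  simp only [sum_pair huv, sum_singleton, wt_self, w1, w2, if_neg su, if_neg sv] at h1 h2 h3
  have key : ∀ yu yv x : ZMod 2, yu + yv + 1 = 0 → 0 + (0 * yu + 1 * yv) + 0 + x = yu → x = 1 := by
    decide
  have key2 : ∀ yu yv x : ZMod 2, yu + yv + 1 = 0 → 0 + (1 * yu + 0 * yv) + 0 + x = yv → x = 1 := by
    decide
  have hu1 := key _ _ _ hcl h1
  have hv1 := key2 _ _ _ hcl h2
  have hu1' : wt n a m b u h = 1 := by rw [wt_comm]; exact hu1
  have hv1' : wt n a m b v h = 1 := by rw [wt_comm]; exact hv1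
  rw [hu1', hv1'] at h3
  refine ⟨?_, wt_one.1 hu1, wt_one.1 hv1, ?_⟩
  · by_contra hs
    rw [if_neg hs] at h3
    have : ∀ yu yv : ZMod 2, yu + yv + 1 = 0 → 0 + (1 * yu + 1 * yv) + 0 = 0 → False := by decide
    exact this _ _ hcl h3
  · intro w hw wu wv wh
    have hwT : w ∉ ({u, v} : Finset U) := by simp [wu, wv]
    have hwH : w ∉ ({h} : Finset U) := by simp [wh]
    have h4 := hE.out w hw hwT hwH
    simp only [sum_pair huv, sum_singleton] at h4
    have c1 : wt n a m b u w = wt n a m b w u := wt_comm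
    have c2 : wt n a m b v w = wt n a m b w v := wt_comm
    have c3 : wt n a m b h w = wt n a m b w h := wt_comm
    rw [c1, c2, c3] at h4
    have key3 : ∀ yu yv p q r : ZMod 2, yu + yv + 1 = 0 → (p + q = 0 → 0 + (p * yu + q * yv) + r = 0) →
        (p = 1 → q = 1 → r = 1) ∧ (r = 1 → p = 1 ∨ q = 1) := by decide
    have h5 := key3 _ _ _ _ _ hcl h4
    rw [wt_one, wt_one, wt_one] at h5
    exact h5

/-- (E2b), honest case, from the equations -/
lemma e2b_of {u v h : U} {Y : U → ZMod 2} (hu : u ∈ S) (hv : v ∈ S) (huv : u ≠ v)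
    (hadj : ¬ (sdo n a m b).G.adj u v) (su : (sdo n a m b).sg u) (sv : (sdo n a m b).sg v)
    (hE : Eqs n a m b S {u, v} {h} 0 Y) :
    ¬ (sdo n a m b).sg h ∧ ¬ (sdo n a m b).G.adj h u ∧ ¬ (sdo n a m b).G.adj h v ∧
      (sdo n a m b).G.Btw S u v h := by
  have w1 : wt n a m b u v = 0 := wt_zero.2 hadj
  have w2 : wt n a m b v u = 0 := wt_zero.2 (fun h => hadj ((sdo n a m b).G.symm h))
  have hcl := hE.cl
  rw [sum_pair huv, card_singleton, Nat.cast_one] at hcl
  have h1 := hE.inn u (mem_insert_self _ _)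
  have h2 := hE.inn v (mem_insert_of_mem (mem_singleton_self _))
  have h3 := hE.hh h (mem_singleton_self _)
  simp only [sum_pair huv, sum_singleton, wt_self, w1, w2, if_pos su, if_pos sv] at h1 h2 h3
  have key : ∀ yu yv x : ZMod 2, 0 + (0 * yu + 0 * yv) + yu + x = yu → x = 0 := by
    decide
  have key2 : ∀ yu yv x : ZMod 2, 0 + (0 * yu + 0 * yv) + yv + x = yv → x = 0 := by
    decide
  have hu1 := key _ _ _ h1
  have hv1 := key2 _ _ _ h2
  have hu1' : wt n a m b u h = 0 := by rw [wt_comm]; exact hu1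
  have hv1' : wt n a m b v h = 0 := by rw [wt_comm]; exact hv1
  rw [hu1', hv1'] at h3
  refine ⟨?_, wt_zero.1 hu1, wt_zero.1 hv1, ?_⟩
  · intro hs
    rw [if_pos hs] at h3
    have : ∀ yu yv : ZMod 2, ¬ 0 + (0 * yu + 0 * yv) + 0 = (1 : ZMod 2) := by decide
    exact this _ _ h3
  · intro w hw wu wv wh
    have hwT : w ∉ ({u, v} : Finset U) := by simp [wu, wv]
    have hwH : w ∉ ({h} : Finset U) := by simp [wh]
    have h4 := hE.out w hw hwT hwH
    simp only [sum_pair huv, sum_singleton] at h4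
    have c1 : wt n a m b u w = wt n a m b w u := wt_comm
    have c2 : wt n a m b v w = wt n a m b w v := wt_comm
    have c3 : wt n a m b h w = wt n a m b w h := wt_comm
    rw [c1, c2, c3] at h4
    have key3 : ∀ yu yv p q r : ZMod 2, yu + yv + 1 = 0 → (p + q = 0 → 0 + (p * yu + q * yv) + r = 0) →
        (p = 1 → q = 1 → r = 1) ∧ (r = 1 → p = 1 ∨ q = 1) := by decide
    have h5 := key3 _ _ _ _ _ hcl h4
    rw [wt_one, wt_one, wt_one] at h5
    exact h5

lemma no_e_pair_a {u v : U} {Y : U → ZMod 2} (huv : u ≠ v)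
    (hadj : (sdo n a m b).G.adj u v) (su : ¬ (sdo n a m b).sg u)
    (hE : Eqs n a m b S {u, v} ∅ 1 Y) : False := by
  have w2 : wt n a m b v u = 1 := wt_one.2 ((sdo n a m b).G.symm hadj)
  have hcl := hE.cl
  rw [sum_pair huv, card_empty, Nat.cast_zero] at hcl
  have h1 := hE.inn u (mem_insert_self _ _)
  simp only [sum_pair huv, sum_empty, wt_self, w2, if_neg su] at h1
  have key : ∀ yu yv : ZMod 2, yu + yv + 0 = 0 → 1 + (0 * yu + 1 * yv) + 0 + 0 = yu → False := by
    decide
  exact key _ _ hcl h1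

lemma no_e_pair_b {u v : U} {Y : U → ZMod 2} (huv : u ≠ v)
    (hadj : ¬ (sdo n a m b).G.adj u v) (su : (sdo n a m b).sg u)
    (hE : Eqs n a m b S {u, v} ∅ 1 Y) : False := by
  have w2 : wt n a m b v u = 0 := wt_zero.2 (fun h => hadj ((sdo n a m b).G.symm h))
  have h1 := hE.inn u (mem_insert_self _ _)
  simp only [sum_pair huv, sum_empty, wt_self, w2, if_pos su] at h1
  have key : ∀ yu yv : ZMod 2, 1 + (0 * yu + 0 * yv) + yu + 0 = yu → False := by
    decide
  exact key _ _ h1

/-! ### paths with four vertices -/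

lemma sum_four {x s t y : U} (h1 : x ≠ s) (h2 : x ≠ t) (h3 : x ≠ y) (h4 : s ≠ t) (h5 : s ≠ y)
    (h6 : t ≠ y) (f : U → ZMod 2) : ∑ u ∈ ({x, s, t, y} : Finset U), f u = f x + (f s + (f t + f y)) := by
  rw [sum_insert (by simp [h1, h2, h3]), sum_insert (by simp [h4, h5]), sum_insert (by simp [h6]),
    sum_singleton]

lemma cz_card {T : Finset U} {k : ℕ} : cz n a T k =
    (((T.filter fun t => posn n a t < k).card : ℕ) : ZMod 2) := by
  unfold cz
  rw [← sum_filter, sum_const, nsmul_eq_mul, mul_one]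

lemma HT.four (hS : Com n a m b S) {x s t y : U} (hx : x ∈ S) (hs : s ∈ S) (ht : t ∈ S)
    (hy : y ∈ S) (hP4 : (sdo n a m b).G.P4 x s t y) (sx : ¬ (sdo n a m b).sg x)
    (ss : (sdo n a m b).sg s) (st : (sdo n a m b).sg t) (sy : ¬ (sdo n a m b).sg y)
    (hV : ∀ v ∈ S, ¬ (sdo n a m b).V1 x s t y v) : HT n a m b S {x, s, t, y} := by
  have n1 : x ≠ s := SG.adj_ne hP4.1
  have n2 : x ≠ t := hP4.ne1
  have n3 : x ≠ y := hP4.ne2
  have n4 : s ≠ t := SG.adj_ne hP4.2.1
  have n5 : s ≠ y := hP4.ne3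
  have n6 : t ≠ y := SG.adj_ne hP4.2.2.1
  have hsub : ({x, s, t, y} : Finset U) ⊆ S := by
    intro w hw
    simp only [mem_insert, mem_singleton] at hw
    rcases hw with h | h | h | h <;> rw [h] <;> assumption
  have a1 : wt n a m b x s = 1 := wt_one.2 hP4.1
  have a1' : wt n a m b s x = 1 := wt_one.2 ((sdo n a m b).G.symm hP4.1)
  have a2 : wt n a m b s t = 1 := wt_one.2 hP4.2.1
  have a2' : wt n a m b t s = 1 := wt_one.2 ((sdo n a m b).G.symm hP4.2.1)
  have a3 : wt n a m b t y = 1 := wt_one.2 hP4.2.2.1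
  have a3' : wt n a m b y t = 1 := wt_one.2 ((sdo n a m b).G.symm hP4.2.2.1)
  have a4 : wt n a m b x t = 0 := wt_zero.2 hP4.2.2.2.1
  have a4' : wt n a m b t x = 0 := wt_zero.2 fun h => hP4.2.2.2.1 ((sdo n a m b).G.symm h)
  have a5 : wt n a m b x y = 0 := wt_zero.2 hP4.2.2.2.2.1
  have a5' : wt n a m b y x = 0 := wt_zero.2 fun h => hP4.2.2.2.2.1 ((sdo n a m b).G.symm h)
  have a6 : wt n a m b s y = 0 := wt_zero.2 hP4.2.2.2.2.2
  have a6' : wt n a m b y s = 0 := wt_zero.2 fun h => hP4.2.2.2.2.2 ((sdo n a m b).G.symm h)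
  have a7 : ∀ w, wt n a m b w w = 0 := fun w => wt_self
  refine ⟨hsub, ?_, ⟨x, mem_insert_self _ _⟩, ?_, ?_⟩
  · rw [card_insert_of_notMem (by simp [n1, n2, n3]), card_insert_of_notMem (by simp [n4, n5]),
      card_insert_of_notMem (by simp [n6]), card_singleton]
    decide
  · intro v hv hvT ⟨h1, h2⟩
    refine hV v hv ?_
    simp only [mem_insert, mem_singleton, not_or] at hvT
    refine ⟨hvT.1, hvT.2.1, hvT.2.2.1, hvT.2.2.2, ?_, ?_⟩
    · rw [cz_card, ZMod.natCast_eq_one_iff_odd] at h1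
      have e : (({x, s, t, y} : Finset U).filter fun w => (sdo n a m b).p w < (sdo n a m b).p v) =
          (({x, s, t, y} : Finset U).filter fun w => posn n a w < posn n a v) := by
        refine filter_congr fun w _ => ?_
        show ((posn n a w : ℤ) < posn n a v) ↔ _
        norm_cast
      rw [e]
      exact h1
    · rw [cz_card, ZMod.natCast_eq_one_iff_odd] at h2
      have e : (({x, s, t, y} : Finset U).filter fun w => (sdo n a m b).q w < (sdo n a m b).q v) =
          (({x, s, t, y} : Finset U).filter fun w => posn m b w < posn m b v) := by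
        refine filter_congr fun w _ => ?_
        show ((posn m b w : ℤ) < posn m b v) ↔ _
        norm_cast
      rw [e]
      exact h2
  · have key0 : ∀ p q : ZMod 2, p + q = 0 → p = q := by decide
    have key1 : ∀ p q : ZMod 2, p + q = 1 → p ≠ q := by decide
    intro w hw
    simp only [mem_insert, mem_singleton] at hw
    have hw' : w ∈ S := hsub (by simp only [mem_insert, mem_singleton]; exact hw)
    have h1 := cz_add hS hsub hw'
    rw [sum_four n1 n2 n3 n4 n5 n6] at h1
    rcases hw with h | h | h | h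
    · subst h
      rw [a7, a1', a4', a5'] at h1
      have h2 := key1 _ _ (h1.trans (by decide))
      exact ⟨fun h => absurd h sx, fun h => absurd h h2⟩
    · subst h
      rw [a7, a1, a2', a6'] at h1
      have h2 := key0 _ _ (h1.trans (by decide))
      exact ⟨fun _ => h2, fun _ => ss⟩
    · subst h
      rw [a7, a4, a2, a3'] at h1
      have h2 := key0 _ _ (h1.trans (by decide))
      exact ⟨fun _ => h2, fun _ => st⟩
    · subst h
      rw [a7, a5, a6, a3] at h1
      have h2 := key1 _ _ (h1.trans (by decide))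
      exact ⟨fun h => absurd h sy, fun h => absurd h h2⟩

lemma e4_of {x s t y : U} {Hs : Finset U} {c : ZMod 2} {Y : U → ZMod 2}
    (hP4 : (sdo n a m b).G.P4 x s t y) (sx : ¬ (sdo n a m b).sg x)
    (ss : (sdo n a m b).sg s) (st : (sdo n a m b).sg t) (sy : ¬ (sdo n a m b).sg y)
    (hE : Eqs n a m b S {x, s, t, y} Hs c Y) :
    (c + Y s + ∑ u ∈ Hs, wt n a m b u x = Y x) ∧ (c + Y x + Y t + ∑ u ∈ Hs, wt n a m b u s = 0) ∧
    (c + Y s + Y y + ∑ u ∈ Hs, wt n a m b u t = 0) ∧ (c + Y t + ∑ u ∈ Hs, wt n a m b u y = Y y) ∧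
    (Y x + Y s + Y t + Y y + (Hs.card : ZMod 2) = 0) ∧
    (∀ v ∈ S, v ≠ x → v ≠ s → v ≠ t → v ≠ y → v ∉ Hs →
      wt n a m b v x + wt n a m b v s + wt n a m b v t + wt n a m b v y = 0 →
      c + (wt n a m b v x * Y x + wt n a m b v s * Y s + wt n a m b v t * Y t +
        wt n a m b v y * Y y) + ∑ u ∈ Hs, wt n a m b v u = 0) := by
  have n1 : x ≠ s := SG.adj_ne hP4.1
  have n2 : x ≠ t := hP4.ne1
  have n3 : x ≠ y := hP4.ne2
  have n4 : s ≠ t := SG.adj_ne hP4.2.1
  have n5 : s ≠ y := hP4.ne3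
  have n6 : t ≠ y := SG.adj_ne hP4.2.2.1
  have a1 : wt n a m b x s = 1 := wt_one.2 hP4.1
  have a1' : wt n a m b s x = 1 := wt_one.2 ((sdo n a m b).G.symm hP4.1)
  have a2 : wt n a m b s t = 1 := wt_one.2 hP4.2.1
  have a2' : wt n a m b t s = 1 := wt_one.2 ((sdo n a m b).G.symm hP4.2.1)
  have a3 : wt n a m b t y = 1 := wt_one.2 hP4.2.2.1
  have a3' : wt n a m b y t = 1 := wt_one.2 ((sdo n a m b).G.symm hP4.2.2.1)
  have a4 : wt n a m b x t = 0 := wt_zero.2 hP4.2.2.2.1
  have a4' : wt n a m b t x = 0 := wt_zero.2 fun h => hP4.2.2.2.1 ((sdo n a m b).G.symm h)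
  have a5 : wt n a m b x y = 0 := wt_zero.2 hP4.2.2.2.2.1
  have a5' : wt n a m b y x = 0 := wt_zero.2 fun h => hP4.2.2.2.2.1 ((sdo n a m b).G.symm h)
  have a6 : wt n a m b s y = 0 := wt_zero.2 hP4.2.2.2.2.2
  have a6' : wt n a m b y s = 0 := wt_zero.2 fun h => hP4.2.2.2.2.2 ((sdo n a m b).G.symm h)
  have hz : ∀ z : ZMod 2, z + z = 0 := z2_add_self
  have m1 : x ∈ ({x, s, t, y} : Finset U) := by simp
  have m2 : s ∈ ({x, s, t, y} : Finset U) := by simp
  have m3 : t ∈ ({x, s, t, y} : Finset U) := by simp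
  have m4 : y ∈ ({x, s, t, y} : Finset U) := by simp
  have e1 := hE.inn x m1
  have e2 := hE.inn s m2
  have e3 := hE.inn t m3
  have e4 := hE.inn y m4
  have e5 := hE.cl
  simp only [sum_four n1 n2 n3 n4 n5 n6, wt_self, a1, a1', a2, a2', a3, a3', a4, a4', a5, a5', a6, a6',
    if_neg sx, if_pos ss, if_pos st, if_neg sy] at e1 e2 e3 e4 e5
  refine ⟨?_, ?_, ?_, ?_, ?_, ?_⟩
  · rw [← e1]; ring
  · have : ∀ c x s t h : ZMod 2, c + (1 * x + (0 * s + (1 * t + 0 * x))) + s + h = s →
        c + x + t + h = 0 := by decide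
    exact this c (Y x) (Y s) (Y t) _ (Eq.trans (by ring) e2)
  · have : ∀ c s t y h : ZMod 2, c + (0 * s + (1 * s + (0 * t + 1 * y))) + t + h = t →
        c + s + y + h = 0 := by decide
    exact this c (Y s) (Y t) (Y y) _ (Eq.trans (by ring) e3)
  · rw [← e4]; ring
  · rw [← e5]; ring
  · intro v hv v1 v2 v3 v4 vH h0
    have h1 := hE.out v hv (by simp [v1, v2, v3, v4]) vH
    simp only [sum_four n1 n2 n3 n4 n5 n6] at h1
    have c1 : wt n a m b x v = wt n a m b v x := wt_comm
    have c2 : wt n a m b s v = wt n a m b v s := wt_comm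
    have c3 : wt n a m b t v = wt n a m b v t := wt_comm
    have c4 : wt n a m b y v = wt n a m b v y := wt_comm
    have c5 : ∑ u ∈ Hs, wt n a m b u v = ∑ u ∈ Hs, wt n a m b v u :=
      sum_congr rfl fun u _ => wt_comm
    rw [c1, c2, c3, c4, c5] at h1
    have h2 := h1 (by rw [← h0]; ring)
    rw [← h2]
    ring

/-- local criticality with the marking gives the honest cases of the axioms -/
theorem hon_of_lc (hP : LC P n a m b S) (ha : CutSeq P.al n a)
    (hb : CutSeq P.be m b) (hS : Com n a m b S) : Sdo.Hon True (sdo n a m b) S where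
  injp := by
    intro u hu v hv h
    have h' : (posn n a u : ℤ) = posn n a v := h
    exact posn_inj ((hS u).1 hu).1 ((hS v).1 hv).1 (by exact_mod_cast h')
  injq := by
    intro u hu v hv h
    have h' : (posn m b u : ℤ) = posn m b v := h
    exact posn_inj ((hS u).1 hu).2 ((hS v).1 hv).2 (by exact_mod_cast h')
  g2a := by
    intro u hu v hv hadj su sv hB
    have huv := SG.adj_ne hadj
    have hT := HT.pair hS hu hv huv hB
      ⟨⟨fun h => absurd h su, fun h => absurd hadj h⟩, ⟨fun h => absurd h sv, fun h => absurd hadj h⟩⟩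
    rcases hT.eqs hP ha hb hS with ⟨h, hh, Y, hE⟩ | ⟨Y, hE⟩
    · obtain ⟨h1, h2, h3, h4⟩ := e2a_of hu hv huv hadj su sv hE
      exact ⟨h, hh, h1, h2, h3, h4⟩
    · exact absurd hE (fun hE => no_e_pair_a huv hadj su hE)
  g2b := by
    intro u hu v hv huv hadj su sv hB _
    have hT := HT.pair hS hu hv huv hB ⟨⟨fun _ => hadj, fun _ => su⟩, ⟨fun _ => hadj, fun _ => sv⟩⟩
    rcases hT.eqs hP ha hb hS with ⟨h, hh, Y, hE⟩ | ⟨Y, hE⟩
    · obtain ⟨h1, h2, h3, h4⟩ := e2b_of hu hv huv hadj su sv hE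
      exact ⟨h, hh, h1, h2, h3, h4⟩
    · exact absurd hE (fun hE => no_e_pair_b huv hadj su hE)
  g4 := by
    intro x hx s hs t ht y hy hP4 sx ss st sy hV
    have hT := HT.four hS hx hs ht hy hP4 sx ss st sy hV
    rcases hT.eqs hP ha hb hS with ⟨h, hh, Y, hE⟩ | ⟨Y, hE⟩
    · left
      obtain ⟨e1, e2, e3, e4, e5, e6⟩ := e4_of hP4 sx ss st sy hE
      simp only [sum_singleton, card_singleton, Nat.cast_one] at e1 e2 e3 e4 e5 e6
      have hd : ∀ w ∈ ({x, s, t, y} : Finset U), w ≠ h := by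
        intro w hw hwh
        exact hE.hd w hw (mem_singleton.2 hwh)
      refine ⟨h, hh, (hd x (by simp)).symm, (hd s (by simp)).symm, (hd t (by simp)).symm,
        (hd y (by simp)).symm, ?_, ?_⟩
      · have key : ∀ yx ys yt yy hx hs ht hy : ZMod 2, 0 + ys + hx = yx → 0 + yx + yt + hs = 0 →
            0 + ys + yy + ht = 0 → 0 + yt + hy = yy → yx + ys + yt + yy + 1 = 0 →
            (hx = 1 ∧ hs = 1 ∧ ht = 0 ∧ hy = 0) ∨ (hx = 0 ∧ hs = 1 ∧ ht = 0 ∧ hy = 1) ∨
            (hx = 1 ∧ hs = 0 ∧ ht = 1 ∧ hy = 0) ∨ (hx = 0 ∧ hs = 0 ∧ ht = 1 ∧ hy = 1) := by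
          decide
        have h1 := key _ _ _ _ _ _ _ _ e1 e2 e3 e4 e5
        simp only [wt_one, wt_zero] at h1
        exact h1
      · intro p hp p1 p2 p3 p4 p5
        have h1 := e6 p hp p1 p2 p3 p4 (by simp [p5])
        have key : ∀ yx ys yt yy a b c d h : ZMod 2, yx + ys + yt + yy + 1 = 0 →
            (a + b + c + d = 0 → 0 + (a * yx + b * ys + c * yt + d * yy) + h = 0) →
            (a = 0 → b = 0 → c = 0 → d = 0 → h = 0) ∧ (a = 1 → b = 1 → c = 1 → d = 1 → h = 1) := by
          decide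
        have h2 := key _ _ _ _ _ _ _ _ _ e5 h1
        simp only [wt_one, wt_zero] at h2
        exact h2
    · right
      refine ⟨trivial, ?_⟩
      obtain ⟨e1, e2, e3, e4, e5, e6⟩ := e4_of hP4 sx ss st sy hE
      simp only [sum_empty, card_empty, Nat.cast_zero] at e1 e2 e3 e4 e5 e6
      intro v hv v1 v2 v3 v4
      have h1 := e6 v hv v1 v2 v3 v4 (notMem_empty _)
      have key : ∀ yx ys yt yy a b c d : ZMod 2, 1 + ys + 0 = yx → 1 + yx + yt + 0 = 0 →
          1 + ys + yy + 0 = 0 → 1 + yt + 0 = yy →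
          (a + b + c + d = 0 → 1 + (a * yx + b * ys + c * yt + d * yy) + 0 = 0) →
          ¬ (a = 1 ↔ d = 1) ∨ ¬ (b = 1 ↔ c = 1) := by
        decide
      have h2 := key _ _ _ _ _ _ _ _ e1 e2 e3 e4 h1
      simp only [wt_one] at h2
      exact h2

/-- local criticality gives the honest cases of the axioms -/
theorem hon_of_local (hc : LCrit P n a m b S) (hP : Mark P n a m b S) (ha : CutSeq P.al n a)
    (hb : CutSeq P.be m b) (hS : Com n a m b S) : Sdo.Hon True (sdo n a m b) S :=
  hon_of_lc (hc.lc hP) ha hb hS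

/-- criticality gives the honest cases of the axioms -/
theorem hon_of_crit (hc : P.Crit) (hP : Mark P n a m b S) (ha : CutSeq P.al n a)
    (hb : CutSeq P.be m b) (hS : Com n a m b S) : Sdo.Hon True (sdo n a m b) S :=
  hon_of_local (fun _ _ _ hA => hc _ _ hA) hP ha hb hS

end two

end H48CP
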