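import Pool.Agent.H48.CP.Hon

/-!
Lifting (project CP, MP_472c72): in a chain of circuits the criticality of the pair passes to two
consecutive circuits which are cut at marked gaps.
-/

namespace H48CP

open Finset
open scoped Classical

variable {U : Type*}

/-- the levels of a chain of circuits `C_0, ..., C_r`, `r` odd: the circuits of `al` and `mu` have the
even levels, the circuits of `be` and `mu` the odd levels -/
structure Lev (P : Pr U) (r : ℕ) (ka kb : U × Bool → ℕ) : Prop where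
  a_al : ∀ e, ka (P.al e) = ka e
  a_mu : ∀ e, ka (mu e) = ka e
  b_be : ∀ e, kb (P.be e) = kb e
  b_mu : ∀ e, kb (mu e) = kb e
  seqa : ∀ e, ∃ n a, CutSeq P.al n a ∧ a 0 = e ∧ ∀ u, occ n a u ↔ ka (u, true) = ka e
  seqb : ∀ e, ∃ n b, CutSeq P.be n b ∧ b 0 = e ∧ ∀ u, occ n b u ↔ kb (u, true) = kb e
  step : ∀ e, kb e = ka e + 1 ∨ ka e = kb e + 1
  eva : ∀ e, Even (ka e)
  odb : ∀ e, Odd (kb e)
  odr : Odd r
  lea : ∀ e, ka e ≤ r
  leb : ∀ e, kb e ≤ r
  p0 : ka P.p0 = 0
  q0 : kb P.q0 = r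
  ex : ∀ i, i < r → ∃ e, (ka e = i ∧ kb e = i + 1) ∨ (kb e = i ∧ ka e = i + 1)

namespace Lev

variable {P : Pr U} {r : ℕ} {ka kb : U × Bool → ℕ}

lemma ka_true (h : Lev P r ka kb) (e : U × Bool) : ka (e.1, true) = ka e := by
  rcases e with ⟨u, i⟩
  cases i
  · exact h.a_mu (u, false)
  · rfl

lemma kb_true (h : Lev P r ka kb) (e : U × Bool) : kb (e.1, true) = kb e := by
  rcases e with ⟨u, i⟩
  cases i
  · exact h.b_mu (u, false)
  · rfl

/-- the mirror image: the colours and the ends of `e` are exchanged -/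
def _root_.H48CP.Pr.swap (P : Pr U) : Pr U where
  al := P.be
  be := P.al
  al2 := P.be2
  be2 := P.al2
  al1 := P.be1
  be1 := P.al1
  p0 := P.q0
  q0 := P.p0

lemma swap (h : Lev P r ka kb) : Lev P.swap r (fun e => r - kb e) (fun e => r - ka e) where
  a_al := fun e => by
    show r - kb (P.be e) = r - kb e
    rw [h.b_be]
  a_mu := fun e => by
    show r - kb (mu e) = r - kb e
    rw [h.b_mu]
  b_be := fun e => by
    show r - ka (P.al e) = r - ka e
    rw [h.a_al]
  b_mu := fun e => by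
    show r - ka (mu e) = r - ka e
    rw [h.a_mu]
  seqa := fun e => by
    obtain ⟨n, b, h1, h2, h3⟩ := h.seqb e
    refine ⟨n, b, h1, h2, fun u => ?_⟩
    rw [h3]
    have := h.leb (u, true)
    have := h.leb e
    show _ ↔ r - kb (u, true) = r - kb e
    omega
  seqb := fun e => by
    obtain ⟨n, b, h1, h2, h3⟩ := h.seqa e
    refine ⟨n, b, h1, h2, fun u => ?_⟩
    rw [h3]
    have := h.lea (u, true)
    have := h.lea e
    show _ ↔ r - ka (u, true) = r - ka e
    omega
  step := fun e => by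
    have := h.lea e
    have := h.leb e
    have := h.step e
    show r - ka e = r - kb e + 1 ∨ r - kb e = r - ka e + 1
    omega
  eva := fun e => by
    obtain ⟨i, hi⟩ := h.odb e
    obtain ⟨j, hj⟩ := h.odr
    have := h.leb e
    exact ⟨j - i, by show r - kb e = _; omega⟩
  odb := fun e => by
    obtain ⟨i, hi⟩ := h.eva e
    obtain ⟨j, hj⟩ := h.odr
    have := h.lea e
    exact ⟨j - i, by show r - ka e = _; omega⟩
  odr := h.odr
  lea := fun e => by show r - kb e ≤ r; omega
  leb := fun e => by show r - ka e ≤ r; omega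
  p0 := by
    show r - kb P.q0 = 0
    rw [h.q0]
    omega
  q0 := by
    show r - ka P.p0 = r
    rw [h.p0]
    omega
  ex := fun i hi => by
    obtain ⟨e, he⟩ := h.ex (r - 1 - i) (by omega)
    refine ⟨e, ?_⟩
    show (r - kb e = i ∧ r - ka e = i + 1) ∨ (r - ka e = i ∧ r - kb e = i + 1)
    omega

/-- a function without jumps is constant along a circuit -/
lemma const_a (h : Lev P r ka kb) {Y : U × Bool → ZMod 2} {e f : U × Bool}
    (hef : ka e = ka f) (h1 : ∀ g, ka g = ka e → Y (P.al g) = Y g)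
    (h2 : ∀ g, ka g = ka e → Y (mu g) = Y g) : Y e = Y f := by
  obtain ⟨n, a, ha, h0, hocc⟩ := h.seqa e
  have hk : ∀ k, k < n → ka (a k) = ka e := by
    intro k hk
    rw [← h.ka_true]
    exact (hocc _).1 (occ_a hk)
  have hY : ∀ k, k < n → Y (a k) = Y e := by
    intro k
    induction k with
    | zero => intro _; rw [h0]
    | succ k ih =>
      intro hk1
      rw [← ha.step k hk1, h1 _ (by rw [h.a_mu]; exact hk k (by omega)), h2 _ (hk k (by omega))]
      exact ih (by omega)
  have hf : occ n a f.1 := by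
    rw [hocc, h.ka_true]
    exact hef.symm
  obtain ⟨hp, hp2⟩ := posn_spec hf
  rcases eq_or_mu hp2.symm with h3 | h3
  · rw [h3]
    exact (hY _ hp).symm
  · rw [h3, h2 _ (hk _ hp)]
    exact (hY _ hp).symm

lemma const_b (h : Lev P r ka kb) {Y : U × Bool → ZMod 2} {e f : U × Bool}
    (hef : kb e = kb f) (h1 : ∀ g, kb g = kb e → Y (P.be g) = Y g)
    (h2 : ∀ g, kb g = kb e → Y (mu g) = Y g) : Y e = Y f := by
  have hs := h.swap
  refine const_a hs (Y := Y) (e := e) (f := f) (by show r - kb e = r - kb f; rw [hef]) ?_ ?_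
  · intro g hg
    have hg' : r - kb g = r - kb e := hg
    have := h.leb g
    have := h.leb e
    exact h1 g (by omega)
  · intro g hg
    have hg' : r - kb g = r - kb e := hg
    have := h.leb g
    have := h.leb e
    exact h2 g (by omega)

/-- a single jump along a circuit is impossible -/
lemma no_jump_a (h : Lev P r ka kb) {Y : U × Bool → ZMod 2} {u : U}
    (h1 : ∀ g, ka g = ka (u, true) → Y (P.al g) = Y g)
    (h2 : ∀ e, e.1 ≠ u → Y (mu e) = Y e) (h3 : Y (u, true) = Y (u, false) + 1) : False := by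
  obtain ⟨n, a, ha, h0, hocc⟩ := h.seqa (u, true)
  have hm : ∀ e, Y (mu e) = Y e + if e.1 ∈ ({u} : Finset U) then 1 else 0 := by
    intro e
    by_cases he : e.1 = u
    · rw [if_pos (mem_singleton.2 he)]
      rcases e with ⟨v, i⟩
      simp only at he
      subst he
      cases i
      · exact h3
      · show Y (v, false) = Y (v, true) + 1
        rw [h3, add_assoc, z2_add_self, add_zero]
    · rw [if_neg (fun h4 => he (mem_singleton.1 h4)), add_zero]
      exact h2 e he
  have hc := val_close (T := ∅) (Hs := {u}) ha (Y := Y) (fun e he _ => by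
      refine h1 e ?_
      rw [← h.ka_true e]
      exact (hocc _).1 he) hm (by simp) (by
      intro i _ _
      unfold cz
      simp) (by simp) (by
      intro t ht
      rw [mem_singleton.1 ht, hocc]) (by simp)
  simp at hc

lemma no_jump_b (h : Lev P r ka kb) {Y : U × Bool → ZMod 2} {u : U}
    (h1 : ∀ g, kb g = kb (u, true) → Y (P.be g) = Y g)
    (h2 : ∀ e, e.1 ≠ u → Y (mu e) = Y e) (h3 : Y (u, true) = Y (u, false) + 1) : False := by
  have hs := h.swap
  refine no_jump_a hs (Y := Y) (u := u) ?_ h2 h3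
  intro g hg
  have hg' : r - kb g = r - kb (u, true) := hg
  have := h.leb g
  have := h.leb (u, true)
  exact h1 g (by omega)

/-- the value on the side of `x` -/
lemma side_x (h : Lev P r ka kb) {Y : U × Bool → ZMod 2} {i₀ : ℕ} (hi₀ : i₀ ≤ r)
    (hYa : ∀ e, ka e < i₀ → Y (P.al e) = Y e) (hYb : ∀ e, kb e < i₀ → Y (P.be e) = Y e)
    (hm : ∀ e, ka e < i₀ ∨ kb e < i₀ → Y (mu e) = Y e) (l : ℕ) (hl : l < i₀) :
    (∀ e, ka e = l → Y e = Y P.p0) ∧ (∀ e, kb e = l → Y e = Y P.p0) := by
  have ca : ∀ e f, ka e = l → ka f = l → Y e = Y f := fun e f he hf =>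
    h.const_a (he.trans hf.symm) (fun g hg => hYa g (by omega)) (fun g hg => hm g (Or.inl (by omega)))
  have cb : ∀ e f, kb e = l → kb f = l → Y e = Y f := fun e f he hf =>
    h.const_b (he.trans hf.symm) (fun g hg => hYb g (by omega)) (fun g hg => hm g (Or.inr (by omega)))
  induction l with
  | zero =>
    refine ⟨fun e he => ca e P.p0 he h.p0, fun e he => ?_⟩
    have := h.odb e
    rw [he] at this
    exact absurd this (by decide)
  | succ l ih =>
    obtain ⟨i1, i2⟩ := ih (by omega)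
      (fun e f he hf => h.const_a (he.trans hf.symm) (fun g hg => hYa g (by omega))
        (fun g hg => hm g (Or.inl (by omega))))
      (fun e f he hf => h.const_b (he.trans hf.symm) (fun g hg => hYb g (by omega))
        (fun g hg => hm g (Or.inr (by omega))))
    obtain ⟨e₀, he₀⟩ := h.ex l (by omega)
    constructor
    · intro e he
      rcases he₀ with ⟨h1, h2⟩ | ⟨h1, h2⟩
      · exfalso
        obtain ⟨x, hx⟩ := h.eva e
        obtain ⟨y, hy⟩ := h.eva e₀
        omega
      · rw [ca e e₀ he h2]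
        exact i2 e₀ h1
    · intro e he
      rcases he₀ with ⟨h1, h2⟩ | ⟨h1, h2⟩
      · rw [cb e e₀ he h2]
        exact i1 e₀ h1
      · exfalso
        obtain ⟨x, hx⟩ := h.odb e
        obtain ⟨y, hy⟩ := h.odb e₀
        omega

/-- the value on the side of `y` -/
lemma side_y (h : Lev P r ka kb) {Y : U × Bool → ZMod 2} {j₀ : ℕ}
    (hYa : ∀ e, j₀ < ka e → Y (P.al e) = Y e) (hYb : ∀ e, j₀ < kb e → Y (P.be e) = Y e)
    (hm : ∀ e, j₀ < ka e ∨ j₀ < kb e → Y (mu e) = Y e) (l : ℕ) (hl : j₀ < l) (hlr : l ≤ r) :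
    (∀ e, ka e = l → Y e = Y P.q0) ∧ (∀ e, kb e = l → Y e = Y P.q0) := by
  have hs := h.swap
  have := side_x hs (Y := Y) (i₀ := r - j₀) (by omega)
    (fun e he => hYb e (by
      have he' : r - kb e < r - j₀ := he
      omega))
    (fun e he => hYa e (by
      have he' : r - ka e < r - j₀ := he
      omega))
    (fun e he => hm e (by
      have he' : r - kb e < r - j₀ ∨ r - ka e < r - j₀ := he
      omega)) (r - l) (by omega)
  constructor
  · intro e he
    exact this.2 e (by show r - ka e = r - l; rw [he])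
  · intro e he
    exact this.1 e (by show r - kb e = r - l; rw [he])

/-- the circuit `C_i` (level `i`, colour `al`) is cut in a marked gap, seen from the circuit of level
`j = i ± 1` -/
def gapA (P : Pr U) (r : ℕ) (kb : U × Bool → ℕ) (i j : ℕ) (a : ℕ → U × Bool) : Prop :=
  (j = i + 1 ∧ ((i = 0 ∧ (a 0 = P.p0 ∨ a 0 = P.al P.p0)) ∨ kb (a 0) + 1 = i)) ∨
  (i = j + 1 ∧ kb (a 0) = i + 1)

def gapB (P : Pr U) (r : ℕ) (ka : U × Bool → ℕ) (i j : ℕ) (b : ℕ → U × Bool) : Prop :=
  (j = i + 1 ∧ ((j = r ∧ (b 0 = P.q0 ∨ b 0 = P.be P.q0)) ∨ ka (b 0) = j + 1)) ∨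
  (i = j + 1 ∧ ka (b 0) + 1 = j)

/-- lifting -/
theorem mark (h : Lev P r ka kb) {n m : ℕ} {a b : ℕ → U × Bool} (ha : CutSeq P.al n a)
    (hb : CutSeq P.be m b) {i j : ℕ} (hoa : ∀ u, occ n a u ↔ ka (u, true) = i)
    (hob : ∀ u, occ m b u ↔ kb (u, true) = j) (hgA : gapA P r kb i j a) (hgB : gapB P r ka i j b)
    {S : Finset U} (hS : Com n a m b S) : Mark P n a m b S := by
  have hzA : ∀ (T : Finset U) (e : U × Bool), zz n a T e → ka e = i := by
    intro T e he
    rw [← h.ka_true]
    exact (hoa _).1 he.1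
  have hzB : ∀ (T : Finset U) (e : U × Bool), zz m b T e → kb e = j := by
    intro T e he
    rw [← h.kb_true]
    exact (hob _).1 he.1
  have ka0 : ka (a 0) = i := by
    rw [← h.ka_true]
    exact (hoa _).1 (occ_a ha.pos)
  have kb0 : kb (b 0) = j := by
    rw [← h.kb_true]
    exact (hob _).1 (occ_a hb.pos)
  have hij : j = i + 1 ∨ i = j + 1 := by
    rcases hgA with h1 | h1
    · exact Or.inl h1.1
    · exact Or.inr h1.1
  have hir : i ≤ r := ka0 ▸ h.lea (a 0)
  have hjr : j ≤ r := kb0 ▸ h.leb (b 0)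
  have hoa' : ∀ T ⊆ S, ∀ t ∈ T, occ n a t := fun T hT t ht => ((hS t).1 (hT ht)).1
  have hob' : ∀ T ⊆ S, ∀ t ∈ T, occ m b t := fun T hT t ht => ((hS t).1 (hT ht)).2
  have za0 : ∀ T : Finset U, ¬ zz n a T (a 0) := by
    intro T h1
    rw [zz_in ha ha.pos, cz_zero] at h1
    exact absurd h1 (by decide)
  have zb0 : ∀ T : Finset U, ¬ zz m b T (b 0) := by
    intro T h1
    rw [zz_in hb hb.pos, cz_zero] at h1
    exact absurd h1 (by decide)
  have hx : ∀ T ⊆ S, (T.card : ZMod 2) = 0 → ¬ zz n a T P.p0 := by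
    intro T hT hc h1
    have h2 := hzA T _ h1
    rw [h.p0] at h2
    rcases hgA with ⟨-, h3 | h3⟩ | ⟨h3, -⟩
    · rcases h3.2 with h4 | h4
      · exact za0 T (h4 ▸ h1)
      · refine za0 T ?_
        rw [h4, zz_sigma ha P.al2 (hoa' T hT) hc]
        exact h1
    · omega
    · omega
  have hy : ∀ T ⊆ S, (T.card : ZMod 2) = 0 → ¬ zz m b T P.q0 := by
    intro T hT hc h1
    have h2 := hzB T _ h1
    rw [h.q0] at h2
    rcases hgB with ⟨-, h3 | h3⟩ | ⟨h3, -⟩
    · rcases h3.2 with h4 | h4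
      · exact zb0 T (h4 ▸ h1)
      · refine zb0 T ?_
        rw [h4, zz_sigma hb P.be2 (hob' T hT) hc]
        exact h1
    · have := h.lea (b 0)
      omega
    · omega
  -- values at the marked gaps
  have hend : ∀ T ⊆ S, (T.card : ZMod 2) = 0 → ∀ Y : U × Bool → ZMod 2,
      (∀ e, ¬ zz n a T e → Y (P.al e) = Y e) → (∀ e, ¬ zz m b T e → Y (P.be e) = Y e) →
      (∀ e, ¬ (ka e = i ∧ kb e = j) → Y (mu e) = Y e) →
      (j = i + 1 → Y (a 0) = Y P.p0 ∧ Y (b 0) = Y P.q0) ∧
      (i = j + 1 → Y (b 0) = Y P.p0 ∧ Y (a 0) = Y P.q0) := by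
    intro T hT hc Y hYa hYb hm
    have hYa' : ∀ e, ka e ≠ i → Y (P.al e) = Y e := fun e he => hYa e (fun h1 => he (hzA T e h1))
    have hYb' : ∀ e, kb e ≠ j → Y (P.be e) = Y e := fun e he => hYb e (fun h1 => he (hzB T e h1))
    have sx := fun l (hl : l < min i j) => side_x h (Y := Y) (i₀ := min i j) (by omega)
      (fun e he => hYa' e (by omega)) (fun e he => hYb' e (by omega))
      (fun e he => hm e (by omega)) l hl
    have sy := fun l (hl : max i j < l) (hlr : l ≤ r) => side_y h (Y := Y) (j₀ := max i j)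
      (fun e he => hYa' e (by omega)) (fun e he => hYb' e (by omega))
      (fun e he => hm e (by omega)) l hl hlr
    constructor
    · intro hj
      constructor
      · rcases hgA with ⟨-, h3 | h3⟩ | ⟨h3, -⟩
        · rcases h3.2 with h4 | h4
          · rw [h4]
          · rw [h4]
            exact hYa _ (hx T hT hc)
        · exact (sx (kb (a 0)) (by omega)).2 _ rfl
        · omega
      · rcases hgB with ⟨-, h3 | h3⟩ | ⟨h3, -⟩
        · rcases h3.2 with h4 | h4
          · rw [h4]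
          · rw [h4]
            exact hYb _ (hy T hT hc)
        · exact (sy (ka (b 0)) (by omega) (h.lea _)).1 _ rfl
        · omega
    · intro hi
      constructor
      · rcases hgB with ⟨h3, -⟩ | ⟨-, h3⟩
        · omega
        · exact (sx (ka (b 0)) (by omega)).1 _ rfl
      · rcases hgA with ⟨h3, -⟩ | ⟨-, h3⟩
        · omega
        · exact (sy (kb (a 0)) (by omega) (h.leb _)).2 _ rfl
  refine ⟨hx, hy, ?_, ?_⟩
  · intro T hT hc Y g hB
    have hYa' : ∀ e, ka e ≠ i → Y (P.al e) = Y e :=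
      fun e he => hB.ya e (fun h1 => he (hzA T e h1))
    have hYb' : ∀ e, kb e ≠ j → Y (P.be e) = Y e :=
      fun e he => hB.yb e (fun h1 => he (hzB T e h1))
    have hgi : ka (g, true) = i := by
      by_contra hcon
      exact h.no_jump_a (u := g) (fun e he => hYa' e (by omega)) hB.ym hB.yh
    have hgj : kb (g, true) = j := by
      by_contra hcon
      exact h.no_jump_b (u := g) (fun e he => hYb' e (by omega)) hB.ym hB.yh
    refine ⟨(hS g).2 ⟨(hoa g).2 hgi, (hob g).2 hgj⟩, ?_⟩
    have hm : ∀ e, ¬ (ka e = i ∧ kb e = j) → Y (mu e) = Y e := by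
      intro e he
      refine hB.ym e ?_
      rintro rfl
      rw [h.ka_true] at hgi
      rw [h.kb_true] at hgj
      exact he ⟨hgi, hgj⟩
    obtain ⟨e1, e2⟩ := hend T hT hc Y hB.ya hB.yb hm
    rcases hij with h1 | h1
    · rw [(e1 h1).1, (e1 h1).2]
      exact hB.yx
    · rw [(e2 h1).1, (e2 h1).2]
      exact hB.yx.symm
  · intro T hT hc Y hB
    obtain ⟨e1, e2⟩ := hend T hT hc Y hB.ya hB.yb (fun e _ => hB.ym e)
    rcases hij with h1 | h1
    · rw [(e1 h1).1, (e1 h1).2]
      exact hB.yx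
    · rw [(e2 h1).1, (e2 h1).2, hB.yx, add_assoc, z2_add_self, add_zero]

end Lev

end H48CP
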