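import Pool.Agent.H48.CP.Sdo

/-!
Pairs with a 2-coloured `F` (project CP, MP_472c72).

`U` is the set of the edges of weight two different from `e`; the ends are `U × Bool`; `al` and `be`
are the two colours of the edges of weight one of `G - e`; the end `x` of `e` subdivides the
`al`-edge at `p0`, the end `y` of `e` subdivides the `be`-edge at `q0`.
-/

namespace H48CP

open Finset
open scoped Classical

variable {U : Type*}

/-- the other end of an edge of weight two -/
def mu (e : U × Bool) : U × Bool := (e.1, !e.2)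

@[simp] lemma mu_mu (e : U × Bool) : mu (mu e) = e := by
  rcases e with ⟨u, i⟩
  simp [mu]

@[simp] lemma mu_fst (e : U × Bool) : (mu e).1 = e.1 := rfl

lemma mu_ne (e : U × Bool) : mu e ≠ e := by
  rcases e with ⟨u, i⟩
  simp [mu]

lemma eq_or_mu {e f : U × Bool} (h : e.1 = f.1) : e = f ∨ e = mu f := by
  rcases e with ⟨u, i⟩
  rcases f with ⟨v, j⟩
  simp only at h
  subst h
  cases i <;> cases j <;> simp [mu]

/-- a pair with a 2-coloured `F` (type B) -/
structure Pr (U : Type*) where
  al : U × Bool → U × Bool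
  be : U × Bool → U × Bool
  al2 : ∀ e, al (al e) = e
  be2 : ∀ e, be (be e) = e
  al1 : ∀ e, al e ≠ e
  be1 : ∀ e, be e ≠ e
  p0 : U × Bool
  q0 : U × Bool

namespace Pr

variable (P : Pr U)

/-- `za`, `zb` are the `al`-edges and the `be`-edges of a nonempty union of disjoint alternating
circuits avoiding `e` -/
structure Alt (za zb : U × Bool → Prop) : Prop where
  ia : ∀ e, za (P.al e) ↔ za e
  ib : ∀ e, zb (P.be e) ↔ zb e
  disj : ∀ e, ¬ (za e ∧ zb e)
  mu : ∀ e, (za (mu e) ∨ zb (mu e)) ↔ (za e ∨ zb e)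
  x : ¬ za P.p0
  y : ¬ zb P.q0
  ne : ∃ e, za e ∨ zb e

/-- `h` is a bridge of the complement of the circuits -/
structure BrU (za zb : U × Bool → Prop) (Y : U × Bool → ZMod 2) (h : U) : Prop where
  ya : ∀ e, ¬ za e → Y (P.al e) = Y e
  yb : ∀ e, ¬ zb e → Y (P.be e) = Y e
  ym : ∀ e, e.1 ≠ h → Y (H48CP.mu e) = Y e
  yh : Y (h, true) = Y (h, false) + 1
  hz : ∀ i, ¬ za (h, i) ∧ ¬ zb (h, i)
  yx : Y P.p0 = Y P.q0

/-- `e` is a bridge of the complement of the circuits -/
structure BrE (za zb : U × Bool → Prop) (Y : U × Bool → ZMod 2) : Prop where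
  ya : ∀ e, ¬ za e → Y (P.al e) = Y e
  yb : ∀ e, ¬ zb e → Y (P.be e) = Y e
  ym : ∀ e, Y (H48CP.mu e) = Y e
  yx : Y P.p0 = Y P.q0 + 1

/-- no alternating circuit avoiding `e` is removable -/
def Crit : Prop := ∀ za zb, P.Alt za zb → (∃ Y h, P.BrU za zb Y h) ∨ ∃ Y, P.BrE za zb Y

end Pr

/-- a circuit of the cover, cut at the edge between the ends `σ (a 0)` and `a 0`; `a i` is the end
where the `i`-th edge of weight two is entered -/
structure CutSeq (σ : U × Bool → U × Bool) (n : ℕ) (a : ℕ → U × Bool) : Prop where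
  pos : 0 < n
  inj : ∀ i j, i < n → j < n → (a i).1 = (a j).1 → i = j
  step : ∀ i, i + 1 < n → σ (mu (a i)) = a (i + 1)
  close : σ (mu (a (n - 1))) = a 0

/-- `u` occurs in the sequence -/
def occ (n : ℕ) (a : ℕ → U × Bool) (u : U) : Prop := ∃ i, i < n ∧ (a i).1 = u

/-- the position of `u` in the sequence -/
noncomputable def posn (n : ℕ) (a : ℕ → U × Bool) (u : U) : ℕ :=
  if h : occ n a u then h.choose else n

lemma posn_spec {n : ℕ} {a : ℕ → U × Bool} {u : U} (h : occ n a u) :
    posn n a u < n ∧ (a (posn n a u)).1 = u := by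
  unfold posn
  rw [dif_pos h]
  exact h.choose_spec

/-- the signed system of two cut circuits; minus: they pass the element in opposite directions -/
noncomputable def sdo (n : ℕ) (a : ℕ → U × Bool) (m : ℕ) (b : ℕ → U × Bool) : Sdo U where
  p u := posn n a u
  q u := posn m b u
  sg u := a (posn n a u) ≠ b (posn m b u)

end H48CP
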