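import Pool.Agent.H48.CP.ThmA

/-!
Two linear orders with signs (note 3639 on MP_472c72, section 1): the axioms (E2a), (E2b), (E4)
follow from the honest cases (empty window for pairs, no element with both passes on `D` for
four elements).
-/

namespace H48CP

open Finset
open scoped Classical

/-- two linear orders (positions) and signs; `sg v` (minus): the two circuits pass `v` in opposite
directions -/
structure Sdo (V : Type*) where
  p : V → ℤ
  q : V → ℤ
  sg : V → Prop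

namespace Sdo

variable {V : Type*}

/-- the signed graph of inversions -/
def G (D : Sdo V) : SG V where
  adj a b := (D.p a < D.p b ∧ D.q b < D.q a) ∨ (D.p b < D.p a ∧ D.q a < D.q b)
  sg := D.sg
  symm := fun h => h.symm
  irr := fun _ h => by rcases h with h | h <;> exact lt_irrefl _ h.1

/-- `v` lies between `a` and `b` in both orders -/
def Btw2 (D : Sdo V) (a b v : V) : Prop :=
  ((D.p a < D.p v ∧ D.p v < D.p b) ∨ (D.p b < D.p v ∧ D.p v < D.p a)) ∧
  ((D.q a < D.q v ∧ D.q v < D.q b) ∨ (D.q b < D.q v ∧ D.q v < D.q a))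

/-- `v` has both passes on the arcs defined by `{x,s,t,y}` -/
def V1 (D : Sdo V) (x s t y v : V) : Prop :=
  v ≠ x ∧ v ≠ s ∧ v ≠ t ∧ v ≠ y ∧
  Odd ((({x, s, t, y} : Finset V).filter fun a => D.p a < D.p v).card) ∧
  Odd ((({x, s, t, y} : Finset V).filter fun a => D.q a < D.q v).card)

/-- the honest cases of the axioms -/
structure Hon (β : Prop) (D : Sdo V) (S : Finset V) : Prop where
  injp : ∀ a ∈ S, ∀ b ∈ S, D.p a = D.p b → a = b
  injq : ∀ a ∈ S, ∀ b ∈ S, D.q a = D.q b → a = b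
  g2a : ∀ a ∈ S, ∀ b ∈ S, D.G.adj a b → ¬ D.sg a → ¬ D.sg b → (∀ v ∈ S, ¬ D.Btw2 a b v) →
    ∃ z ∈ S, D.sg z ∧ D.G.adj z a ∧ D.G.adj z b ∧ D.G.Btw S a b z
  g2b : ∀ a ∈ S, ∀ b ∈ S, a ≠ b → ¬ D.G.adj a b → D.sg a → D.sg b →
    (∀ v ∈ S, ¬ D.Btw2 a b v) → (β ∨ ∃ c ∈ S, D.G.adj c a ∧ D.G.adj c b) →
    ∃ z ∈ S, ¬ D.sg z ∧ ¬ D.G.adj z a ∧ ¬ D.G.adj z b ∧ D.G.Btw S a b z
  g4 : ∀ x ∈ S, ∀ s ∈ S, ∀ t ∈ S, ∀ y ∈ S, D.G.P4 x s t y → ¬ D.sg x → D.sg s → D.sg t →
    ¬ D.sg y → (∀ v ∈ S, ¬ D.V1 x s t y v) →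
    D.G.Opt S x s t y ∨ (β ∧ D.G.EOpt S x s t y)

variable {D : Sdo V} {S : Finset V} {β : Prop}

/-- `a` is before `b` in both orders -/
def Lt (D : Sdo V) (a b : V) : Prop := D.p a < D.p b ∧ D.q a < D.q b

lemma tri (injp : ∀ a ∈ S, ∀ b ∈ S, D.p a = D.p b → a = b)
    (injq : ∀ a ∈ S, ∀ b ∈ S, D.q a = D.q b → a = b) {a b : V} (ha : a ∈ S) (hb : b ∈ S)
    (hab : a ≠ b) (h : ¬ D.G.adj a b) : D.Lt a b ∨ D.Lt b a := by
  have h1 : D.p a ≠ D.p b := fun e => hab (injp a ha b hb e)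
  have h2 : D.q a ≠ D.q b := fun e => hab (injq a ha b hb e)
  simp only [G, Lt] at h ⊢
  omega

lemma Lt.nadj {a b : V} (h : D.Lt a b) : ¬ D.G.adj a b := by
  simp only [G, Lt] at h ⊢
  omega

lemma Lt.nadj' {a b : V} (h : D.Lt a b) : ¬ D.G.adj b a := by
  simp only [G, Lt] at h ⊢
  omega

lemma Lt.trans {a b c : V} (h : D.Lt a b) (h' : D.Lt b c) : D.Lt a c := by
  simp only [Lt] at *
  omega

lemma Lt.ne {a b : V} (h : D.Lt a b) : a ≠ b := by
  rintro rfl
  exact lt_irrefl _ h.1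

/-- something inverted with both ends is inverted with everything in between -/
lemma adj_mid {a b v z : V} (ha : D.Lt a z) (hb : D.Lt z b) (h1 : D.G.adj v a)
    (h2 : D.G.adj v b) : D.G.adj v z := by
  simp only [G, Lt] at *
  omega

lemma card4 {x s t y : V} (P : V → Prop) [DecidablePred P] (h1 : x ≠ s) (h2 : x ≠ t) (h3 : x ≠ y) (h4 : s ≠ t)
    (h5 : s ≠ y) (h6 : t ≠ y) :
    (({x, s, t, y} : Finset V).filter P).card =
      (if P x then 1 else 0) + ((if P s then 1 else 0) + ((if P t then 1 else 0) +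
        (if P y then 1 else 0))) := by
  rw [Finset.card_filter, Finset.sum_insert (by simp [h1, h2, h3]),
    Finset.sum_insert (by simp [h4, h5]), Finset.sum_insert (by simp [h6]),
    Finset.sum_singleton]

/-- the four arrangements of an induced path -/
lemma arr (injp : ∀ a ∈ S, ∀ b ∈ S, D.p a = D.p b → a = b)
    (injq : ∀ a ∈ S, ∀ b ∈ S, D.q a = D.q b → a = b) {x s t y : V} (hx : x ∈ S) (hs : s ∈ S)
    (ht : t ∈ S) (hy : y ∈ S) (h : D.G.P4 x s t y) :
    ((D.p x < D.p t ∧ D.p t < D.p s ∧ D.p s < D.p y) ∧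
      (D.q s < D.q x ∧ D.q x < D.q y ∧ D.q y < D.q t)) ∨
    ((D.p y < D.p s ∧ D.p s < D.p t ∧ D.p t < D.p x) ∧
      (D.q t < D.q y ∧ D.q y < D.q x ∧ D.q x < D.q s)) ∨
    ((D.p s < D.p x ∧ D.p x < D.p y ∧ D.p y < D.p t) ∧
      (D.q x < D.q t ∧ D.q t < D.q s ∧ D.q s < D.q y)) ∨
    ((D.p t < D.p y ∧ D.p y < D.p x ∧ D.p x < D.p s) ∧
      (D.q y < D.q s ∧ D.q s < D.q t ∧ D.q t < D.q x)) := by
  have n1 := SG.P4.ne1 h
  have n2 := SG.P4.ne2 h
  have n3 := SG.P4.ne3 h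
  obtain ⟨a1, a2, a3, b1, b2, b3⟩ := h
  have c1 := tri injp injq hx ht n1 b1
  have c2 := tri injp injq hx hy n2 b2
  have c3 := tri injp injq hs hy n3 b3
  simp only [G, Lt] at a1 a2 a3 c1 c2 c3
  rcases a1 with a1 | a1 <;> rcases a2 with a2 | a2
  · rcases c1 with c1 | c1
    · exact (lt_irrefl _ ((c1.2.trans a2.2).trans a1.2)).elim
    · exact (lt_irrefl _ ((c1.1.trans a1.1).trans a2.1)).elim
  · rcases a3 with a3 | a3
    · rcases c1 with c1 | c1 <;> rcases c2 with c2 | c2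
      · rcases c3 with c3 | c3
        · exact Or.inl ⟨⟨c1.1, a2.1, c3.1⟩, a1.2, c2.2, a3.2⟩
        · exact (lt_irrefl _ ((c3.2.trans a1.2).trans c2.2)).elim
      · exact (lt_irrefl _ ((c2.1.trans c1.1).trans a3.1)).elim
      · exact (lt_irrefl _ ((c2.2.trans a3.2).trans c1.2)).elim
      · rcases c3 with c3 | c3
        · exact (lt_irrefl _ ((c3.1.trans c2.1).trans a1.1)).elim
        · exact Or.inr (Or.inr (Or.inr ⟨⟨a3.1, c2.1, a1.1⟩, c3.2, a2.2, c1.2⟩))
    · rcases c3 with c3 | c3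
      · exact (lt_irrefl _ ((c3.1.trans a3.1).trans a2.1)).elim
      · exact (lt_irrefl _ ((c3.2.trans a2.2).trans a3.2)).elim
  · rcases a3 with a3 | a3
    · rcases c3 with c3 | c3
      · exact (lt_irrefl _ ((c3.2.trans a3.2).trans a2.2)).elim
      · exact (lt_irrefl _ ((c3.1.trans a2.1).trans a3.1)).elim
    · rcases c1 with c1 | c1 <;> rcases c2 with c2 | c2
      · rcases c3 with c3 | c3
        · exact Or.inr (Or.inr (Or.inl ⟨⟨a1.1, c2.1, a3.1⟩, c1.2, a2.2, c3.2⟩))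
        · exact (lt_irrefl _ ((c3.1.trans a1.1).trans c2.1)).elim
      · exact (lt_irrefl _ ((c2.2.trans c1.2).trans a3.2)).elim
      · exact (lt_irrefl _ ((c2.1.trans a3.1).trans c1.1)).elim
      · rcases c3 with c3 | c3
        · exact (lt_irrefl _ ((c3.2.trans c2.2).trans a1.2)).elim
        · exact Or.inr (Or.inl ⟨⟨c3.1, a2.1, c1.1⟩, a3.2, c2.2, a1.2⟩)
  · rcases c1 with c1 | c1
    · exact (lt_irrefl _ ((c1.1.trans a2.1).trans a1.1)).elim
    · exact (lt_irrefl _ ((c1.2.trans a1.2).trans a2.2)).elim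

/-- an odd number of elements of a chain lies below `v` -/
private lemma odd4 {a b c d v : ℤ} (h : a < b ∧ b < c ∧ c < d) (ea : a ≠ v) (eb : b ≠ v) (ec : c ≠ v) (ed : d ≠ v)
    (o : ((if a < v then 1 else 0) + ((if b < v then 1 else 0) + ((if c < v then 1 else 0) + (if d < v then 1 else 0))) : ℕ) % 2 = 1) :
    (a < v ∧ v < b) ∨ (c < v ∧ v < d) := by
  obtain ⟨h1, h2, h3⟩ := h
  rcases lt_or_gt_of_ne ea with ka | ka
  · rcases lt_or_gt_of_ne eb with kb | kb
    · rcases lt_or_gt_of_ne ec with kc | kc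
      · rcases lt_or_gt_of_ne ed with kd | kd
        · rw [if_pos ka, if_pos kb, if_pos kc, if_pos kd] at o
          exact absurd o (by norm_num)
        · exact Or.inr ⟨kc, kd⟩
      · rw [if_pos ka, if_pos kb, if_neg (not_lt.2 kc.le), if_neg (not_lt.2 (kc.trans h3).le)] at o
        exact absurd o (by norm_num)
    · exact Or.inl ⟨ka, kb⟩
  · rw [if_neg (not_lt.2 ka.le), if_neg (not_lt.2 (ka.trans h1).le), if_neg (not_lt.2 ((ka.trans h1).trans h2).le),
      if_neg (not_lt.2 (((ka.trans h1).trans h2).trans h3).le)] at o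
    exact absurd o (by norm_num)

private lemma odd4' {a b c d v : ℤ} (h : a < b ∧ b < c ∧ c < d) (ea : a ≠ v) (eb : b ≠ v) (ec : c ≠ v) (ed : d ≠ v)
    (o : ((if a < v then 1 else 0) + ((if b < v then 1 else 0) + ((if c < v then 1 else 0) + (if d < v then 1 else 0))) : ℕ) % 2 = 1) :
    a < v ∧ v < d := by
  rcases odd4 h ea eb ec ed o with ⟨k1, k2⟩ | ⟨k1, k2⟩
  · exact ⟨k1, (k2.trans h.2.1).trans h.2.2⟩
  · exact ⟨(h.1.trans h.2.1).trans k1, k2⟩

/-- (E4) holds for all induced paths -/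
lemma e4_all (injp : ∀ a ∈ S, ∀ b ∈ S, D.p a = D.p b → a = b)
    (injq : ∀ a ∈ S, ∀ b ∈ S, D.q a = D.q b → a = b) {x s t y v : V} (hx : x ∈ S) (hs : s ∈ S)
    (ht : t ∈ S) (hy : y ∈ S) (h : D.G.P4 x s t y) (hv : v ∈ S) (hV : D.V1 x s t y v) :
    D.G.Opt S x s t y := by
  have n1 := SG.P4.ne1 h
  have n2 := SG.P4.ne2 h
  have n3 := SG.P4.ne3 h
  have n4 : x ≠ s := SG.adj_ne h.1
  have n5 : s ≠ t := SG.adj_ne h.2.1
  have n6 : t ≠ y := SG.adj_ne h.2.2.1
  obtain ⟨m1, m2, m3, m4, o1, o2⟩ := hV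
  rw [card4 _ n4 n1 n2 n5 n3 n6, Nat.odd_iff] at o1 o2
  have e1 : D.p x ≠ D.p v := fun e => m1 (injp x hx v hv e).symm
  have e2 : D.p s ≠ D.p v := fun e => m2 (injp s hs v hv e).symm
  have e3 : D.p t ≠ D.p v := fun e => m3 (injp t ht v hv e).symm
  have e4 : D.p y ≠ D.p v := fun e => m4 (injp y hy v hv e).symm
  have f1 : D.q x ≠ D.q v := fun e => m1 (injq x hx v hv e).symm
  have f2 : D.q s ≠ D.q v := fun e => m2 (injq s hs v hv e).symm
  have f3 : D.q t ≠ D.q v := fun e => m3 (injq t ht v hv e).symm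
  have f4 : D.q y ≠ D.q v := fun e => m4 (injq y hy v hv e).symm
  have e5 : ∀ A B C E : ℕ, A + (B + (C + E)) = A + (C + (B + E)) := fun A B C E => by ring
  have e6 : ∀ A B C E : ℕ, A + (B + (C + E)) = E + (B + (C + A)) := fun A B C E => by ring
  have e7 : ∀ A B C E : ℕ, A + (B + (C + E)) = B + (A + (E + C)) := fun A B C E => by ring
  have e8 : ∀ A B C E : ℕ, A + (B + (C + E)) = C + (E + (A + B)) := fun A B C E => by ring
  refine ⟨v, hv, m1, m2, m3, m4, ?_, ?_⟩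
  · rcases arr injp injq hx hs ht hy h with ⟨h1, h2⟩ | ⟨h1, h2⟩ | ⟨h1, h2⟩ | ⟨h1, h2⟩
    · have P : (D.p x < D.p v ∧ D.p v < D.p t) ∨ (D.p s < D.p v ∧ D.p v < D.p y) :=
        odd4 h1 e1 e3 e2 e4 ((congrArg (· % 2) (e5 _ _ _ _)).symm.trans o1)
      have Q : (D.q s < D.q v ∧ D.q v < D.q x) ∨ (D.q y < D.q v ∧ D.q v < D.q t) :=
        odd4 h2 f2 f1 f4 f3 ((congrArg (· % 2) (e7 _ _ _ _)).symm.trans o2)
      obtain ⟨u1, u2, u3⟩ := h1
      obtain ⟨w1, w2, w3⟩ := h2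
      clear o1 o2 e1 e2 e3 e4 e5 e6 e7 e8 f1 f2 f3 f4
      simp only [SG.Pat, G]
      rcases P with P | P <;> rcases Q with Q | Q
      · exact Or.inl ⟨by omega, by omega, by omega, by omega⟩
      · exact Or.inr <| Or.inl ⟨by omega, by omega, by omega, by omega⟩
      · exact Or.inr <| Or.inr <| Or.inl ⟨by omega, by omega, by omega, by omega⟩
      · exact Or.inr <| Or.inr <| Or.inr ⟨by omega, by omega, by omega, by omega⟩
    · have P : (D.p y < D.p v ∧ D.p v < D.p s) ∨ (D.p t < D.p v ∧ D.p v < D.p x) :=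
        odd4 h1 e4 e2 e3 e1 ((congrArg (· % 2) (e6 _ _ _ _)).symm.trans o1)
      have Q : (D.q t < D.q v ∧ D.q v < D.q y) ∨ (D.q x < D.q v ∧ D.q v < D.q s) :=
        odd4 h2 f3 f4 f1 f2 ((congrArg (· % 2) (e8 _ _ _ _)).symm.trans o2)
      obtain ⟨u1, u2, u3⟩ := h1
      obtain ⟨w1, w2, w3⟩ := h2
      clear o1 o2 e1 e2 e3 e4 e5 e6 e7 e8 f1 f2 f3 f4
      simp only [SG.Pat, G]
      rcases P with P | P <;> rcases Q with Q | Q
      · exact Or.inr <| Or.inr <| Or.inr ⟨by omega, by omega, by omega, by omega⟩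
      · exact Or.inr <| Or.inr <| Or.inl ⟨by omega, by omega, by omega, by omega⟩
      · exact Or.inr <| Or.inl ⟨by omega, by omega, by omega, by omega⟩
      · exact Or.inl ⟨by omega, by omega, by omega, by omega⟩
    · have P : (D.p s < D.p v ∧ D.p v < D.p x) ∨ (D.p y < D.p v ∧ D.p v < D.p t) :=
        odd4 h1 e2 e1 e4 e3 ((congrArg (· % 2) (e7 _ _ _ _)).symm.trans o1)
      have Q : (D.q x < D.q v ∧ D.q v < D.q t) ∨ (D.q s < D.q v ∧ D.q v < D.q y) :=
        odd4 h2 f1 f3 f2 f4 ((congrArg (· % 2) (e5 _ _ _ _)).symm.trans o2)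
      obtain ⟨u1, u2, u3⟩ := h1
      obtain ⟨w1, w2, w3⟩ := h2
      clear o1 o2 e1 e2 e3 e4 e5 e6 e7 e8 f1 f2 f3 f4
      simp only [SG.Pat, G]
      rcases P with P | P <;> rcases Q with Q | Q
      · exact Or.inl ⟨by omega, by omega, by omega, by omega⟩
      · exact Or.inr <| Or.inr <| Or.inl ⟨by omega, by omega, by omega, by omega⟩
      · exact Or.inr <| Or.inl ⟨by omega, by omega, by omega, by omega⟩
      · exact Or.inr <| Or.inr <| Or.inr ⟨by omega, by omega, by omega, by omega⟩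
    · have P : (D.p t < D.p v ∧ D.p v < D.p y) ∨ (D.p x < D.p v ∧ D.p v < D.p s) :=
        odd4 h1 e3 e4 e1 e2 ((congrArg (· % 2) (e8 _ _ _ _)).symm.trans o1)
      have Q : (D.q y < D.q v ∧ D.q v < D.q s) ∨ (D.q t < D.q v ∧ D.q v < D.q x) :=
        odd4 h2 f4 f2 f3 f1 ((congrArg (· % 2) (e6 _ _ _ _)).symm.trans o2)
      obtain ⟨u1, u2, u3⟩ := h1
      obtain ⟨w1, w2, w3⟩ := h2
      clear o1 o2 e1 e2 e3 e4 e5 e6 e7 e8 f1 f2 f3 f4
      simp only [SG.Pat, G]
      rcases P with P | P <;> rcases Q with Q | Q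
      · exact Or.inr <| Or.inr <| Or.inr ⟨by omega, by omega, by omega, by omega⟩
      · exact Or.inr <| Or.inl ⟨by omega, by omega, by omega, by omega⟩
      · exact Or.inr <| Or.inr <| Or.inl ⟨by omega, by omega, by omega, by omega⟩
      · exact Or.inl ⟨by omega, by omega, by omega, by omega⟩
  · intro p' hp' k1 k2 k3 k4 k5
    have g1 : D.p p' ≠ D.p x := fun e => k1 (injp p' hp' x hx e)
    have g2 : D.p p' ≠ D.p s := fun e => k2 (injp p' hp' s hs e)
    have g3 : D.p p' ≠ D.p t := fun e => k3 (injp p' hp' t ht e)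
    have g4 : D.p p' ≠ D.p y := fun e => k4 (injp p' hp' y hy e)
    have g5 : D.p p' ≠ D.p v := fun e => k5 (injp p' hp' v hv e)
    have l1 : D.q p' ≠ D.q x := fun e => k1 (injq p' hp' x hx e)
    have l2 : D.q p' ≠ D.q s := fun e => k2 (injq p' hp' s hs e)
    have l3 : D.q p' ≠ D.q t := fun e => k3 (injq p' hp' t ht e)
    have l4 : D.q p' ≠ D.q y := fun e => k4 (injq p' hp' y hy e)
    have l5 : D.q p' ≠ D.q v := fun e => k5 (injq p' hp' v hv e)
    rcases arr injp injq hx hs ht hy h with ⟨h1, h2⟩ | ⟨h1, h2⟩ | ⟨h1, h2⟩ | ⟨h1, h2⟩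
    · have P : D.p x < D.p v ∧ D.p v < D.p y :=
        odd4' h1 e1 e3 e2 e4 ((congrArg (· % 2) (e5 _ _ _ _)).symm.trans o1)
      have Q : D.q s < D.q v ∧ D.q v < D.q t :=
        odd4' h2 f2 f1 f4 f3 ((congrArg (· % 2) (e7 _ _ _ _)).symm.trans o2)
      simp only [G]
      constructor <;> intros <;> omega
    · have P : D.p y < D.p v ∧ D.p v < D.p x :=
        odd4' h1 e4 e2 e3 e1 ((congrArg (· % 2) (e6 _ _ _ _)).symm.trans o1)
      have Q : D.q t < D.q v ∧ D.q v < D.q s :=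
        odd4' h2 f3 f4 f1 f2 ((congrArg (· % 2) (e8 _ _ _ _)).symm.trans o2)
      simp only [G]
      constructor <;> intros <;> omega
    · have P : D.p s < D.p v ∧ D.p v < D.p t :=
        odd4' h1 e2 e1 e4 e3 ((congrArg (· % 2) (e7 _ _ _ _)).symm.trans o1)
      have Q : D.q x < D.q v ∧ D.q v < D.q y :=
        odd4' h2 f1 f3 f2 f4 ((congrArg (· % 2) (e5 _ _ _ _)).symm.trans o2)
      simp only [G]
      constructor <;> intros <;> omega
    · have P : D.p t < D.p v ∧ D.p v < D.p s :=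
        odd4' h1 e3 e4 e1 e2 ((congrArg (· % 2) (e8 _ _ _ _)).symm.trans o1)
      have Q : D.q y < D.q v ∧ D.q v < D.q x :=
        odd4' h2 f4 f2 f3 f1 ((congrArg (· % 2) (e6 _ _ _ _)).symm.trans o2)
      simp only [G]
      constructor <;> intros <;> omega

/-! ### the window of a pair -/

/-- the elements between `a` and `b` in both orders -/
noncomputable def win (D : Sdo V) (S : Finset V) (a b : V) : Finset V := S.filter (D.Btw2 a b)

lemma mem_win {a b v : V} (hab : D.Lt a b) : v ∈ D.win S a b ↔ v ∈ S ∧ D.Lt a v ∧ D.Lt v b := by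
  simp only [win, Finset.mem_filter, Btw2, Lt] at *
  constructor
  · rintro ⟨h1, h2, h3⟩
    exact ⟨h1, ⟨by omega, by omega⟩, by omega, by omega⟩
  · rintro ⟨h1, h2, h3⟩
    exact ⟨h1, Or.inl ⟨h2.1, h3.1⟩, Or.inl ⟨h2.2, h3.2⟩⟩

lemma win_symm (a b : V) : D.win S a b = D.win S b a := by
  ext v
  simp only [win, Finset.mem_filter, Btw2]
  constructor <;> rintro ⟨h1, h2, h3⟩ <;> exact ⟨h1, h2.symm, h3.symm⟩

lemma win_lt {a b a' b' : V} (hab : D.Lt a b) (ha' : a' ∈ D.win S a b)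
    (hb' : b' ∈ D.win S a b) : (D.win S a' b').card < (D.win S a b).card := by
  apply Finset.card_lt_card
  rw [Finset.ssubset_iff_of_subset]
  · refine ⟨a', ha', ?_⟩
    simp only [win, Finset.mem_filter, Btw2]
    omega
  · intro v hv
    rw [mem_win hab] at ha' hb' ⊢
    simp only [win, Finset.mem_filter, Btw2] at hv
    obtain ⟨h1, h2, h3⟩ := hv
    obtain ⟨-, a1, a2⟩ := ha'
    obtain ⟨-, b1, b2⟩ := hb'
    simp only [Lt] at *
    exact ⟨h1, ⟨by omega, by omega⟩, by omega, by omega⟩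

/-- the axioms for pairs with a window of less than `N` elements -/
structure Pre (βa βb β : Prop) (D : Sdo V) (S : Finset V) (N : ℕ) : Prop where
  injp : ∀ a ∈ S, ∀ b ∈ S, D.p a = D.p b → a = b
  injq : ∀ a ∈ S, ∀ b ∈ S, D.q a = D.q b → a = b
  e2a : ∀ a ∈ S, ∀ b ∈ S, D.G.adj a b → ¬ D.sg a → ¬ D.sg b → (D.win S a b).card < N →
    (βa ∨ ∃ c ∈ S, c ≠ a ∧ c ≠ b ∧ ¬ D.G.adj c a ∧ ¬ D.G.adj c b) →
    ∃ z ∈ S, D.sg z ∧ D.G.adj z a ∧ D.G.adj z b ∧ D.G.Btw S a b z
  e2b : ∀ a ∈ S, ∀ b ∈ S, a ≠ b → ¬ D.G.adj a b → D.sg a → D.sg b →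
    (D.win S a b).card < N → (βb ∨ ∃ c ∈ S, D.G.adj c a ∧ D.G.adj c b) →
    ∃ z ∈ S, ¬ D.sg z ∧ ¬ D.G.adj z a ∧ ¬ D.G.adj z b ∧ D.G.Btw S a b z
  e4 : ∀ x ∈ S, ∀ s ∈ S, ∀ t ∈ S, ∀ y ∈ S, D.G.P4 x s t y → ¬ D.sg x → D.sg s → D.sg t →
    ¬ D.sg y → D.G.Opt S x s t y ∨ (β ∧ D.G.EOpt S x s t y)

variable {βa βb : Prop} {N : ℕ}

lemma Pre.mem_of_adj (h : Pre βa βb β D S N) {a b z c : V} (ha : a ∈ S) (hb : b ∈ S)
    (hab : D.Lt a b) (hz : z ∈ S) (za : z ≠ a) (zb : z ≠ b) (nza : ¬ D.G.adj z a)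
    (nzb : ¬ D.G.adj z b) (hc : c ∈ D.win S a b) (hcz : D.G.adj c z) : z ∈ D.win S a b := by
  rw [mem_win hab] at hc ⊢
  refine ⟨hz, ?_, ?_⟩
  · rcases tri h.injp h.injq hz ha za nza with h1 | h1
    · exact absurd hcz (h1.trans hc.2.1).nadj'
    · exact h1
  · rcases tri h.injp h.injq hz hb zb nzb with h1 | h1
    · exact h1
    · exact absurd hcz (hc.2.2.trans h1).nadj

lemma Btw.mono {G : SG V} {S' : Finset V} (hS : S' ⊆ S) {a b z : V} (h : G.Btw S a b z) :
    G.Btw S' a b z := fun v hv => h v (hS hv)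

/-- the window is an alpha system -/
lemma Pre.ax_win (h : Pre βa βb β D S N) {a b : V} (ha : a ∈ S) (hb : b ∈ S)
    (hab : D.Lt a b) (hN : (D.win S a b).card ≤ N) : SG.Ax False D.G (D.win S a b) where
  e2a := by
    intro a' ha' b' hb' hadj sa sb
    have hc := win_lt hab ha' hb'
    have ma := (mem_win hab).1 ha'
    have mb := (mem_win hab).1 hb'
    obtain ⟨z, hz, sz, za, zb, hB⟩ := h.e2a a' ma.1 b' mb.1 hadj sa sb (hc.trans_le hN)
      (Or.inr ⟨a, ha, ma.2.1.ne, mb.2.1.ne, ma.2.1.nadj, mb.2.1.nadj⟩)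
    have z1 : z ≠ a := by
      rintro rfl
      exact ma.2.1.nadj za
    have z2 : z ≠ b := by
      rintro rfl
      exact ma.2.2.nadj' za
    have n1 : ¬ D.G.adj z a := by
      intro hh
      rcases (hB a ha ma.2.1.ne mb.2.1.ne z1.symm).2 (D.G.symm hh) with h1 | h1
      · exact ma.2.1.nadj h1
      · exact mb.2.1.nadj h1
    have n2 : ¬ D.G.adj z b := by
      intro hh
      rcases (hB b hb ma.2.2.ne.symm mb.2.2.ne.symm z2.symm).2 (D.G.symm hh) with h1 | h1
      · exact ma.2.2.nadj' h1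
      · exact mb.2.2.nadj' h1
    exact ⟨z, h.mem_of_adj ha hb hab hz z1 z2 n1 n2 ha' (D.G.symm za), sz, za, zb,
      Btw.mono (Finset.filter_subset _ _) hB⟩
  e2b := by
    intro a' ha' b' hb' hne hadj sa sb hcc
    have hc := win_lt hab ha' hb'
    have ma := (mem_win hab).1 ha'
    have mb := (mem_win hab).1 hb'
    obtain ⟨c, hcI, ca, cb⟩ := hcc.resolve_left id
    have mc := (mem_win hab).1 hcI
    obtain ⟨z, hz, sz, za, zb, hB⟩ := h.e2b a' ma.1 b' mb.1 hne hadj sa sb (hc.trans_le hN)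
      (Or.inr ⟨c, mc.1, ca, cb⟩)
    have cz : c ≠ z := by
      rintro rfl
      exact za ca
    have cz' : D.G.adj c z := (hB c mc.1 (SG.adj_ne ca) (SG.adj_ne cb) cz).1 ca cb
    have z1 : z ≠ a := by
      rintro rfl
      exact mc.2.1.nadj' cz'
    have z2 : z ≠ b := by
      rintro rfl
      exact mc.2.2.nadj cz'
    have n1 : ¬ D.G.adj z a := by
      intro hh
      rcases (hB a ha ma.2.1.ne mb.2.1.ne z1.symm).2 (D.G.symm hh) with h1 | h1
      · exact ma.2.1.nadj h1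
      · exact mb.2.1.nadj h1
    have n2 : ¬ D.G.adj z b := by
      intro hh
      rcases (hB b hb ma.2.2.ne.symm mb.2.2.ne.symm z2.symm).2 (D.G.symm hh) with h1 | h1
      · exact ma.2.2.nadj' h1
      · exact mb.2.2.nadj' h1
    exact ⟨z, h.mem_of_adj ha hb hab hz z1 z2 n1 n2 hcI cz', sz, za, zb,
      Btw.mono (Finset.filter_subset _ _) hB⟩
  e4 := by
    intro x hx s hs t ht y hy hP sx ss st sy
    have mx := (mem_win hab).1 hx
    have ms := (mem_win hab).1 hs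
    have mt := (mem_win hab).1 ht
    have my := (mem_win hab).1 hy
    left
    rcases h.e4 x mx.1 s ms.1 t mt.1 y my.1 hP sx ss st sy with h1 | ⟨-, h1⟩
    · obtain ⟨k, hk, k1, k2, k3, k4, hpat, hcl⟩ := h1
      have ka : k ≠ a := by
        rintro rfl
        have n1 := mx.2.1.nadj
        have n2 := my.2.1.nadj
        simp only [SG.Pat] at hpat
        tauto
      have kb : k ≠ b := by
        rintro rfl
        have n1 := mx.2.2.nadj'
        have n2 := my.2.2.nadj'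
        simp only [SG.Pat] at hpat
        tauto
      have na : ¬ D.G.adj k a := fun hh =>
        (hcl a ha mx.2.1.ne ms.2.1.ne mt.2.1.ne my.2.1.ne ka.symm).1 mx.2.1.nadj ms.2.1.nadj
          mt.2.1.nadj my.2.1.nadj (D.G.symm hh)
      have nb : ¬ D.G.adj k b := fun hh =>
        (hcl b hb mx.2.2.ne.symm ms.2.2.ne.symm mt.2.2.ne.symm my.2.2.ne.symm kb.symm).1
          mx.2.2.nadj' ms.2.2.nadj' mt.2.2.nadj' my.2.2.nadj' (D.G.symm hh)
      have hk' : k ∈ D.win S a b := by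
        have hor : D.G.adj k x ∨ D.G.adj k y := by
          simp only [SG.Pat] at hpat
          tauto
        rcases hor with h2 | h2
        · exact h.mem_of_adj ha hb hab hk ka kb na nb hx (D.G.symm h2)
        · exact h.mem_of_adj ha hb hab hk ka kb na nb hy (D.G.symm h2)
      exact ⟨k, hk', k1, k2, k3, k4, hpat, fun p hp => hcl p (Finset.filter_subset _ _ hp)⟩
    · exfalso
      have := h1 a ha mx.2.1.ne ms.2.1.ne mt.2.1.ne my.2.1.ne
      have n1 := mx.2.1.nadj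
      have n2 := my.2.1.nadj
      have n3 := ms.2.1.nadj
      have n4 := mt.2.1.nadj
      tauto

/-- the witness of a pair of minus signs whose window has `N` elements -/
lemma Pre.step (h : Pre βa βb β D S N) (hN1 : 1 ≤ N) {a b : V} (ha : a ∈ S) (hb : b ∈ S)
    (hab : D.Lt a b) (sa : D.sg a) (sb : D.sg b) (hN : (D.win S a b).card ≤ N)
    (hcc : βb ∨ ∃ c ∈ S, D.G.adj c a ∧ D.G.adj c b) :
    ∃ z ∈ S, ¬ D.sg z ∧ ¬ D.G.adj z a ∧ ¬ D.G.adj z b ∧ D.G.Btw S a b z := by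
  rcases (D.win S a b).eq_empty_or_nonempty with hE | hne
  · exact h.e2b a ha b hb hab.ne hab.nadj sa sb (by rw [hE, Finset.card_empty]; omega) hcc
  have hC : SG.Cls D.G (D.win S a b) := SG.thmA (h.ax_win ha hb hab hN)
  by_cases hsing : ∃ z ∈ D.win S a b, ¬ D.sg z ∧ ∀ w ∈ D.win S a b, ¬ D.G.adj z w
  · obtain ⟨z, hz, sz, hw⟩ := hsing
    have mz := (mem_win hab).1 hz
    refine ⟨z, mz.1, sz, mz.2.1.nadj', mz.2.2.nadj, ?_⟩
    intro v hv va vb vz
    refine ⟨fun h1 h2 => adj_mid mz.2.1 mz.2.2 h1 h2, fun h1 => ?_⟩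
    by_contra hcon
    push Not at hcon
    obtain ⟨c1, c2⟩ := hcon
    rcases tri h.injp h.injq hv ha va c1 with h2 | h2
    · exact (h2.trans mz.2.1).nadj h1
    · rcases tri h.injp h.injq hv hb vb c2 with h3 | h3
      · exact hw v ((mem_win hab).2 ⟨hv, h2, h3⟩) (D.G.symm h1)
      · exact (mz.2.2.trans h3).nadj' h1
  push Not at hsing
  obtain ⟨v0, hv0, hmin⟩ := Finset.exists_min_image _ D.p hne
  have hdom : ∀ z ∈ D.win S a b, ∃ c ∈ D.win S a b, D.G.sg c ∧ D.G.Rch (D.win S a b) z c ∧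
      ∀ u ∈ D.win S a b, D.G.Rch (D.win S a b) z u → u ≠ c → D.G.adj c u := by
    intro z hz
    apply hC.dom z hz
    by_cases sz : D.sg z
    · exact Or.inl sz
    · exact Or.inr (hsing z hz sz)
  obtain ⟨c1, hc1, sc1, rc1, dc1⟩ := hdom v0 hv0
  have m1 := (mem_win hab).1 hc1
  -- nothing between `a` and `c1`
  have hempty : D.win S a c1 = ∅ := by
    rw [Finset.eq_empty_iff_forall_notMem]
    intro u hu
    rw [mem_win m1.2.1] at hu
    have huI : u ∈ D.win S a b := (mem_win hab).2 ⟨hu.1, hu.2.1, hu.2.2.trans m1.2.2⟩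
    by_cases hr : D.G.Rch (D.win S a b) v0 u
    · exact hu.2.2.nadj' (dc1 u huI hr hu.2.2.ne)
    · have key : ∀ k, D.G.Rch (D.win S a b) v0 k → D.Lt k u := by
        intro k hk
        induction hk with
        | refl =>
          have hne0 : v0 ≠ u := by
            rintro rfl
            exact hr Relation.ReflTransGen.refl
          have hn : ¬ D.G.adj v0 u := fun hh =>
            hr (Relation.ReflTransGen.single ⟨huI, hh⟩)
          rcases tri h.injp h.injq ((mem_win hab).1 hv0).1 hu.1 hne0 hn with h1 | h1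
          · exact h1
          · exact absurd (hmin u huI) (not_le.2 h1.1)
        | tail hk1 hk2 ih =>
          rename_i k1 k2
          have hr2 : D.G.Rch (D.win S a b) v0 k2 := hk1.tail hk2
          have hne0 : k2 ≠ u := by
            rintro rfl
            exact hr hr2
          have hn : ¬ D.G.adj k2 u := fun hh => hr (hr2.tail ⟨huI, hh⟩)
          rcases tri h.injp h.injq ((mem_win hab).1 hk2.1).1 hu.1 hne0 hn with h1 | h1
          · exact h1
          · exact absurd hk2.2 (ih.trans h1).nadj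
      exact absurd ((key c1 rc1).trans hu.2.2).1 (lt_irrefl _)
  have hcc1 : βb ∨ ∃ c ∈ S, D.G.adj c a ∧ D.G.adj c c1 := by
    rcases hcc with h1 | ⟨c, hc, ca, cb⟩
    · exact Or.inl h1
    · exact Or.inr ⟨c, hc, ca, adj_mid m1.2.1 m1.2.2 ca cb⟩
  obtain ⟨g, hg, sg', ga, gc, hB⟩ := h.e2b a ha c1 m1.1 m1.2.1.ne m1.2.1.nadj sa sc1
    (by rw [hempty, Finset.card_empty]; omega) hcc1
  have g1 : g ≠ a := by
    rintro rfl
    exact sg' sa
  have g2 : g ≠ c1 := by
    rintro rfl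
    exact sg' sc1
  have g3 : g ≠ b := by
    rintro rfl
    exact sg' sb
  have gb : ¬ D.G.adj g b := by
    intro hh
    rcases (hB b hb hab.ne.symm m1.2.2.ne.symm g3.symm).2 (D.G.symm hh) with h1 | h1
    · exact hab.nadj' h1
    · exact m1.2.2.nadj' h1
  have gI : g ∉ D.win S a b := by
    intro hgI
    obtain ⟨ci, hci, sci, rci, dci⟩ := hdom g hgI
    have hgci : g ≠ ci := by
      rintro rfl
      exact sg' sci
    have hadj : D.G.adj ci g := dci g hgI Relation.ReflTransGen.refl hgci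
    have mci := (mem_win hab).1 hci
    have hcic1 : ci ≠ c1 := by
      rintro rfl
      exact gc (D.G.symm hadj)
    rcases (hB ci mci.1 mci.2.1.ne.symm hcic1 hgci.symm).2 hadj with h1 | h1
    · exact mci.2.1.nadj' h1
    · have hr : D.G.Rch (D.win S a b) v0 g :=
        (rc1.tail ⟨hci, D.G.symm h1⟩).tail ⟨hgI, hadj⟩
      exact gc (D.G.symm (dc1 g hgI hr g2))
  have hout : D.Lt g a ∨ D.Lt b g := by
    rcases tri h.injp h.injq hg ha g1 ga with h1 | h1
    · exact Or.inl h1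
    · rcases tri h.injp h.injq hg hb g3 gb with h2 | h2
      · exact absurd ((mem_win hab).2 ⟨hg, h1, h2⟩) gI
      · exact Or.inr h2
  refine ⟨g, hg, sg', ga, gb, ?_⟩
  intro v hv va vb vg
  constructor
  · intro h1 h2
    have h3 : D.G.adj v c1 := adj_mid m1.2.1 m1.2.2 h1 h2
    exact (hB v hv va (SG.adj_ne h3) vg).1 h1 h3
  · intro h1
    have vc1 : v ≠ c1 := by
      rintro rfl
      exact gc (D.G.symm h1)
    rcases (hB v hv va vc1 vg).2 h1 with h2 | h2
    · exact Or.inl h2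
    · by_contra hcon
      push Not at hcon
      obtain ⟨n1, n2⟩ := hcon
      rcases tri h.injp h.injq hv ha va n1 with h3 | h3
      · exact (h3.trans m1.2.1).nadj h2
      · rcases tri h.injp h.injq hv hb vb n2 with h4 | h4
        · rcases hout with h5 | h5
          · exact (h5.trans h3).nadj' h1
          · exact (h4.trans h5).nadj h1
        · exact (m1.2.2.trans h4).nadj' h2

/-! ### reversing the second order -/

/-- reverse the second order and change all signs -/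
def flip (D : Sdo V) : Sdo V where
  p := D.p
  q := fun v => - D.q v
  sg := fun v => ¬ D.sg v

lemma flip_adj (injp : ∀ a ∈ S, ∀ b ∈ S, D.p a = D.p b → a = b)
    (injq : ∀ a ∈ S, ∀ b ∈ S, D.q a = D.q b → a = b) {a b : V} (ha : a ∈ S) (hb : b ∈ S) :
    D.flip.G.adj a b ↔ a ≠ b ∧ ¬ D.G.adj a b := by
  by_cases hab : a = b
  · subst hab
    simp only [ne_eq, not_true_eq_false, false_and, iff_false]
    exact D.flip.G.irr a
  · have h1 : D.p a ≠ D.p b := fun e => hab (injp a ha b hb e)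
    have h2 : D.q a ≠ D.q b := fun e => hab (injq a ha b hb e)
    simp only [G, flip, hab, ne_eq, not_false_eq_true, true_and]
    omega

lemma flip_win (a b : V) : D.flip.win S a b = D.win S a b := by
  ext v
  simp only [win, Finset.mem_filter, Btw2, flip]
  constructor <;> rintro ⟨h1, h2, h3⟩ <;> exact ⟨h1, h2, by omega⟩

lemma flip_Btw (injp : ∀ a ∈ S, ∀ b ∈ S, D.p a = D.p b → a = b)
    (injq : ∀ a ∈ S, ∀ b ∈ S, D.q a = D.q b → a = b) {a b z : V} (ha : a ∈ S) (hb : b ∈ S)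
    (hz : z ∈ S) : D.flip.G.Btw S a b z ↔ D.G.Btw S a b z := by
  unfold SG.Btw
  refine forall_congr' fun v => forall_congr' fun hv => forall_congr' fun va =>
    forall_congr' fun vb => forall_congr' fun vz => ?_
  rw [flip_adj injp injq hv ha, flip_adj injp injq hv hb, flip_adj injp injq hv hz]
  constructor
  · rintro ⟨h1, h2⟩
    refine ⟨fun h3 h4 => ?_, fun h3 => ?_⟩
    · by_contra h5
      rcases h2 ⟨vz, h5⟩ with h6 | h6
      · exact h6.2 h3
      · exact h6.2 h4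
    · by_contra h5
      push Not at h5
      exact (h1 ⟨va, h5.1⟩ ⟨vb, h5.2⟩).2 h3
  · rintro ⟨h1, h2⟩
    refine ⟨fun h3 h4 => ⟨vz, fun h5 => ?_⟩, fun h3 => ?_⟩
    · rcases h2 h5 with h6 | h6
      · exact h3.2 h6
      · exact h4.2 h6
    · by_contra h5
      push Not at h5
      exact h3.2 (h1 (h5.1 va) (h5.2 vb))

lemma flip_P4 (injp : ∀ a ∈ S, ∀ b ∈ S, D.p a = D.p b → a = b)
    (injq : ∀ a ∈ S, ∀ b ∈ S, D.q a = D.q b → a = b) {x s t y : V} (hx : x ∈ S) (hs : s ∈ S)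
    (ht : t ∈ S) (hy : y ∈ S) (h : D.flip.G.P4 x s t y) : D.G.P4 s y x t := by
  apply SG.P4.of_co
  unfold SG.P4 at h ⊢
  rw [flip_adj injp injq hx hs, flip_adj injp injq hs ht, flip_adj injp injq ht hy,
    flip_adj injp injq hx ht, flip_adj injp injq hx hy, flip_adj injp injq hs hy] at h
  exact h

lemma flip_Opt (injp : ∀ a ∈ S, ∀ b ∈ S, D.p a = D.p b → a = b)
    (injq : ∀ a ∈ S, ∀ b ∈ S, D.q a = D.q b → a = b) {x s t y : V} (hx : x ∈ S) (hs : s ∈ S)
    (ht : t ∈ S) (hy : y ∈ S) (h : D.G.Opt S s y x t) : D.flip.G.Opt S x s t y := by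
  obtain ⟨k, hk, k1, k2, k3, k4, hpat, hcl⟩ := h
  refine ⟨k, hk, k3, k1, k4, k2, ?_, ?_⟩
  · unfold SG.Pat at hpat ⊢
    rw [flip_adj injp injq hk hx, flip_adj injp injq hk hs, flip_adj injp injq hk ht,
      flip_adj injp injq hk hy]
    rcases hpat with ⟨a, b, c, d⟩ | ⟨a, b, c, d⟩ | ⟨a, b, c, d⟩ | ⟨a, b, c, d⟩
    · exact Or.inr (Or.inr (Or.inl ⟨⟨k3, c⟩, fun e => e.2 a, ⟨k4, d⟩, fun e => e.2 b⟩))
    · exact Or.inl ⟨⟨k3, c⟩, ⟨k1, a⟩, fun e => e.2 d, fun e => e.2 b⟩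
    · exact Or.inr (Or.inr (Or.inr ⟨fun e => e.2 c, fun e => e.2 a, ⟨k4, d⟩, ⟨k2, b⟩⟩))
    · exact Or.inr (Or.inl ⟨fun e => e.2 c, ⟨k1, a⟩, fun e => e.2 d, ⟨k2, b⟩⟩)
  · intro p hp p1 p2 p3 p4 p5
    have := hcl p hp p2 p4 p1 p3 p5
    rw [flip_adj injp injq hp hx, flip_adj injp injq hp hs, flip_adj injp injq hp ht,
      flip_adj injp injq hp hy, flip_adj injp injq hp hk]
    exact ⟨fun e1 e2 e3 e4 e => e.2 (this.2 (not_not.1 fun z => e2 ⟨p2, z⟩) (not_not.1 fun z => e4 ⟨p4, z⟩)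
      (not_not.1 fun z => e1 ⟨p1, z⟩) (not_not.1 fun z => e3 ⟨p3, z⟩)), fun e1 e2 e3 e4 => ⟨p5, this.1 e2.2 e4.2 e1.2 e3.2⟩⟩

lemma flip_EOpt (injp : ∀ a ∈ S, ∀ b ∈ S, D.p a = D.p b → a = b)
    (injq : ∀ a ∈ S, ∀ b ∈ S, D.q a = D.q b → a = b) {x s t y : V} (hx : x ∈ S) (hs : s ∈ S)
    (ht : t ∈ S) (hy : y ∈ S) (h : D.G.EOpt S s y x t) : D.flip.G.EOpt S x s t y := by
  intro v hv v1 v2 v3 v4
  have := h v hv v2 v4 v1 v3
  rw [flip_adj injp injq hv hx, flip_adj injp injq hv hs, flip_adj injp injq hv ht,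
    flip_adj injp injq hv hy]
  tauto

lemma Pre.flip (h : Pre βa βb β D S N) : Pre βb βa β D.flip S N where
  injp := h.injp
  injq := fun a ha b hb e => h.injq a ha b hb (neg_injective e)
  e2a := by
    intro a ha b hb hadj sa sb hN hcc
    rw [flip_adj h.injp h.injq ha hb] at hadj
    rw [flip_win] at hN
    have sa' : D.sg a := not_not.1 sa
    have sb' : D.sg b := not_not.1 sb
    obtain ⟨z, hz, sz, za, zb, hB⟩ := h.e2b a ha b hb hadj.1 hadj.2 sa' sb' hN (by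
      rcases hcc with h1 | ⟨c, hc, c1, c2, c3, c4⟩
      · exact Or.inl h1
      · rw [flip_adj h.injp h.injq hc ha] at c3
        rw [flip_adj h.injp h.injq hc hb] at c4
        exact Or.inr ⟨c, hc, by by_contra h'; exact c3 ⟨c1, h'⟩,
          by by_contra h'; exact c4 ⟨c2, h'⟩⟩)
    refine ⟨z, hz, sz, ?_, ?_, (flip_Btw h.injp h.injq ha hb hz).2 hB⟩
    · rw [flip_adj h.injp h.injq hz ha]
      exact ⟨by rintro rfl; exact sz sa', za⟩
    · rw [flip_adj h.injp h.injq hz hb]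
      exact ⟨by rintro rfl; exact sz sb', zb⟩
  e2b := by
    intro a ha b hb hne hadj sa sb hN hcc
    rw [flip_adj h.injp h.injq ha hb] at hadj
    rw [flip_win] at hN
    have hadj' : D.G.adj a b := by
      by_contra h'
      exact hadj ⟨hne, h'⟩
    obtain ⟨z, hz, sz, za, zb, hB⟩ := h.e2a a ha b hb hadj' sa sb hN (by
      rcases hcc with h1 | ⟨c, hc, c3, c4⟩
      · exact Or.inl h1
      · rw [flip_adj h.injp h.injq hc ha] at c3
        rw [flip_adj h.injp h.injq hc hb] at c4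
        exact Or.inr ⟨c, hc, c3.1, c4.1, c3.2, c4.2⟩)
    refine ⟨z, hz, fun h1 => h1 sz, ?_, ?_, (flip_Btw h.injp h.injq ha hb hz).2 hB⟩
    · rw [flip_adj h.injp h.injq hz ha]
      exact fun h' => h'.2 za
    · rw [flip_adj h.injp h.injq hz hb]
      exact fun h' => h'.2 zb
  e4 := by
    intro x hx s hs t ht y hy hP sx ss st sy
    rcases h.e4 s hs y hy x hx t ht (flip_P4 h.injp h.injq hx hs ht hy hP) ss (not_not.1 sy)
      (not_not.1 sx) st with h1 | ⟨h0, h1⟩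
    · exact Or.inl (flip_Opt h.injp h.injq hx hs ht hy h1)
    · exact Or.inr ⟨h0, flip_EOpt h.injp h.injq hx hs ht hy h1⟩

lemma Pre.succ_b (h : Pre βa βb β D S N) (hN1 : 1 ≤ N) {a b : V} (ha : a ∈ S) (hb : b ∈ S)
    (hne : a ≠ b) (hadj : ¬ D.G.adj a b) (sa : D.sg a) (sb : D.sg b)
    (hN : (D.win S a b).card ≤ N) (hcc : βb ∨ ∃ c ∈ S, D.G.adj c a ∧ D.G.adj c b) :
    ∃ z ∈ S, ¬ D.sg z ∧ ¬ D.G.adj z a ∧ ¬ D.G.adj z b ∧ D.G.Btw S a b z := by
  rcases tri h.injp h.injq ha hb hne hadj with h1 | h1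
  · exact h.step hN1 ha hb h1 sa sb hN hcc
  · rw [win_symm] at hN
    obtain ⟨z, hz, sz, zb, za, hB⟩ := h.step hN1 hb ha h1 sb sa hN (by
      rcases hcc with h2 | ⟨c, hc, ca, cb⟩
      · exact Or.inl h2
      · exact Or.inr ⟨c, hc, cb, ca⟩)
    refine ⟨z, hz, sz, za, zb, fun v hv v1 v2 v3 => ?_⟩
    have := hB v hv v2 v1 v3
    exact ⟨fun h2 h3 => this.1 h3 h2, fun h2 => (this.2 h2).symm⟩

lemma Pre.succ (h : Pre βa βb β D S N) (hN1 : 1 ≤ N) : Pre βa βb β D S (N + 1) where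
  injp := h.injp
  injq := h.injq
  e2a := by
    intro a ha b hb hadj sa sb hN hcc
    have hf := h.flip
    have hN' : (D.flip.win S a b).card ≤ N := by
      rw [flip_win]
      omega
    obtain ⟨z, hz, sz, za, zb, hB⟩ := hf.succ_b hN1 ha hb (SG.adj_ne hadj) (by
      rw [flip_adj h.injp h.injq ha hb]
      exact fun h' => h'.2 hadj) sa sb hN' (by
      rcases hcc with h1 | ⟨c, hc, c1, c2, c3, c4⟩
      · exact Or.inl h1
      · refine Or.inr ⟨c, hc, ?_, ?_⟩
        · rw [flip_adj h.injp h.injq hc ha]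
          exact ⟨c1, c3⟩
        · rw [flip_adj h.injp h.injq hc hb]
          exact ⟨c2, c4⟩)
    have sz' : D.sg z := not_not.1 sz
    rw [flip_adj h.injp h.injq hz ha] at za
    rw [flip_adj h.injp h.injq hz hb] at zb
    have z1 : z ≠ a := by
      rintro rfl
      exact sa sz'
    have z2 : z ≠ b := by
      rintro rfl
      exact sb sz'
    exact ⟨z, hz, sz', by by_contra h'; exact za ⟨z1, h'⟩, by by_contra h'; exact zb ⟨z2, h'⟩,
      (flip_Btw h.injp h.injq ha hb hz).1 hB⟩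
  e2b := by
    intro a ha b hb hne hadj sa sb hN hcc
    exact h.succ_b hN1 ha hb hne hadj sa sb (by omega) hcc
  e4 := h.e4

lemma Hon.pre (h : Hon β D S) : Pre True β β D S 1 where
  injp := h.injp
  injq := h.injq
  e2a := by
    intro a ha b hb hadj sa sb hN _
    have h0 : D.win S a b = ∅ := by
      rw [← Finset.card_eq_zero]
      omega
    rw [Finset.eq_empty_iff_forall_notMem] at h0
    exact h.g2a a ha b hb hadj sa sb fun v hv hb => h0 v (Finset.mem_filter.2 ⟨hv, hb⟩)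
  e2b := by
    intro a ha b hb hne hadj sa sb hN hcc
    have h0 : D.win S a b = ∅ := by
      rw [← Finset.card_eq_zero]
      omega
    rw [Finset.eq_empty_iff_forall_notMem] at h0
    exact h.g2b a ha b hb hne hadj sa sb (fun v hv hb => h0 v (Finset.mem_filter.2 ⟨hv, hb⟩))
      hcc
  e4 := by
    intro x hx s hs t ht y hy hP sx ss st sy
    by_cases hV : ∃ v ∈ S, D.V1 x s t y v
    · obtain ⟨v, hv, hV⟩ := hV
      exact Or.inl (e4_all h.injp h.injq hx hs ht hy hP hv hV)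
    · push Not at hV
      exact h.g4 x hx s hs t ht y hy hP sx ss st sy hV

lemma Hon.pre_all (h : Hon β D S) (N : ℕ) : Pre True β β D S (N + 1) := by
  induction N with
  | zero => exact h.pre
  | succ n ih => exact ih.succ (by omega)

/-- the honest cases imply all cases -/
theorem Hon.ax {β : Prop} {D : Sdo V} {S : Finset V} (h : Hon β D S) : SG.Ax β D.G S where
  e2a := by
    intro a ha b hb hadj sa sb
    exact (h.pre_all (D.win S a b).card).e2a a ha b hb hadj sa sb (by omega) (Or.inl trivial)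
  e2b := by
    intro a ha b hb hne hadj sa sb hcc
    exact (h.pre_all (D.win S a b).card).e2b a ha b hb hne hadj sa sb (by omega) hcc
  e4 := (h.pre_all 0).e4

end Sdo

end H48CP
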