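import Pool.Agent.H48.CP.Pair

/-!
Bridges of the complements of honest circuits (project CP, MP_472c72): the criticality of a pair
gives the honest cases of the axioms for two cut circuits.
-/

namespace H48CP

open Finset
open scoped Classical

variable {U : Type*}

lemma z2 (z : ZMod 2) : z = 0 ∨ z = 1 := by
  revert z; decide

lemma z2_add_self (z : ZMod 2) : z + z = 0 := by
  revert z; decide

lemma z2_ne_one {z : ZMod 2} (h : z ≠ 1) : z = 0 := (z2 z).resolve_right h

/-! ### one cut circuit -/

section one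

variable {σ : U × Bool → U × Bool} {n : ℕ} {a : ℕ → U × Bool}

lemma posn_of (ha : CutSeq σ n a) {i : ℕ} (hi : i < n) {u : U} (hu : (a i).1 = u) :
    posn n a u = i := by
  have h := posn_spec (n := n) (a := a) (u := u) ⟨i, hi, hu⟩
  exact ha.inj _ _ h.1 hi (h.2.trans hu.symm)

lemma occ_of_lt {u : U} (h : posn n a u < n) : occ n a u := by
  by_contra hcon
  unfold posn at h
  rw [dif_neg hcon] at h
  exact lt_irrefl _ h

lemma occ_a {i : ℕ} (hi : i < n) : occ n a (a i).1 := ⟨i, hi, rfl⟩

/-- the number of elements of `T` in front of position `k`, modulo two -/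
noncomputable def cz (n : ℕ) (a : ℕ → U × Bool) (T : Finset U) (k : ℕ) : ZMod 2 :=
  ∑ t ∈ T, if posn n a t < k then 1 else 0

lemma cz_zero {T : Finset U} : cz n a T 0 = 0 := by
  unfold cz
  simp

lemma cz_succ_not (ha : CutSeq σ n a) {T : Finset U} {i : ℕ} (hi : i < n) (h : (a i).1 ∉ T) :
    cz n a T (i + 1) = cz n a T i := by
  unfold cz
  refine sum_congr rfl fun t ht => ?_
  have : posn n a t ≠ i := by
    intro h1
    have h2 := posn_spec (occ_of_lt (h1 ▸ hi : posn n a t < n))
    rw [h1] at h2
    exact h (h2.2 ▸ ht)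
  have e : (posn n a t < i + 1) ↔ (posn n a t < i) := by omega
  simp only [e]

/-- adding a function over the elements in front -/
noncomputable def sz (n : ℕ) (a : ℕ → U × Bool) (T : Finset U) (f : U → ZMod 2) (k : ℕ) : ZMod 2 :=
  ∑ t ∈ T, if posn n a t < k then f t else 0

lemma sz_zero {T : Finset U} {f : U → ZMod 2} : sz n a T f 0 = 0 := by
  unfold sz
  simp

lemma sz_succ_not (ha : CutSeq σ n a) {T : Finset U} {f : U → ZMod 2} {i : ℕ} (hi : i < n)
    (h : (a i).1 ∉ T) : sz n a T f (i + 1) = sz n a T f i := by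
  unfold sz
  refine sum_congr rfl fun t ht => ?_
  have : posn n a t ≠ i := by
    intro h1
    have h2 := posn_spec (occ_of_lt (h1 ▸ hi : posn n a t < n))
    rw [h1] at h2
    exact h (h2.2 ▸ ht)
  have e : (posn n a t < i + 1) ↔ (posn n a t < i) := by omega
  simp only [e]

lemma sz_succ_mem (ha : CutSeq σ n a) {T : Finset U} {f : U → ZMod 2} {i : ℕ} (hi : i < n)
    (h : (a i).1 ∈ T) : sz n a T f (i + 1) = sz n a T f i + f (a i).1 := by
  unfold sz
  have hp := posn_of ha hi (rfl : (a i).1 = (a i).1)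
  have e : f (a i).1 = ∑ t ∈ T, if t = (a i).1 then f t else 0 := by
    rw [sum_ite_eq' T (a i).1 f, if_pos h]
  rw [e, ← sum_add_distrib]
  refine sum_congr rfl fun t ht => ?_
  by_cases h1 : t = (a i).1
  · have h2 : posn n a t = i := by rw [h1]; exact hp
    rw [if_pos (by omega), if_neg (by omega), if_pos h1, zero_add]
  · have h2 : posn n a t ≠ i := by
      intro h2
      have h3 := posn_spec (occ_of_lt (h2 ▸ hi : posn n a t < n))
      rw [h2] at h3
      exact h1 h3.2.symm
    have e : (posn n a t < i + 1) ↔ (posn n a t < i) := by omega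
    simp only [e, if_neg h1, add_zero]

lemma cz_eq_sz {T : Finset U} {k : ℕ} : cz n a T k = sz n a T (fun _ => 1) k := rfl

lemma cz_succ_mem (ha : CutSeq σ n a) {T : Finset U} {i : ℕ} (hi : i < n) (h : (a i).1 ∈ T) :
    cz n a T (i + 1) = cz n a T i + 1 := by
  rw [cz_eq_sz, cz_eq_sz, sz_succ_mem ha hi h]

lemma sz_all {T : Finset U} {f : U → ZMod 2} (hT : ∀ t ∈ T, occ n a t) :
    sz n a T f n = ∑ t ∈ T, f t := by
  unfold sz
  refine sum_congr rfl fun t ht => ?_
  rw [if_pos (posn_spec (hT t ht)).1]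

lemma cz_all {T : Finset U} (hT : ∀ t ∈ T, occ n a t) : cz n a T n = (T.card : ZMod 2) := by
  rw [cz_eq_sz, sz_all hT]
  simp

/-- the edges of the circuits defined by `T` in the cut circuit -/
def zz (n : ℕ) (a : ℕ → U × Bool) (T : Finset U) (e : U × Bool) : Prop :=
  occ n a e.1 ∧ ((e = a (posn n a e.1) ∧ cz n a T (posn n a e.1) = 1) ∨
    (e = mu (a (posn n a e.1)) ∧ cz n a T (posn n a e.1 + 1) = 1))

lemma zz_in (ha : CutSeq σ n a) {T : Finset U} {i : ℕ} (hi : i < n) :
    zz n a T (a i) ↔ cz n a T i = 1 := by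
  unfold zz
  rw [posn_of ha hi rfl]
  constructor
  · rintro ⟨-, h | h⟩
    · exact h.2
    · exact absurd h.1.symm (mu_ne _)
  · intro h
    exact ⟨occ_a hi, Or.inl ⟨rfl, h⟩⟩

lemma zz_out (ha : CutSeq σ n a) {T : Finset U} {i : ℕ} (hi : i < n) :
    zz n a T (mu (a i)) ↔ cz n a T (i + 1) = 1 := by
  unfold zz
  rw [mu_fst, posn_of ha hi rfl]
  constructor
  · rintro ⟨-, h | h⟩
    · exact absurd h.1 (mu_ne _)
    · exact h.2
  · intro h
    exact ⟨occ_a hi, Or.inr ⟨rfl, h⟩⟩

lemma zz_occ {T : Finset U} {e : U × Bool} (h : zz n a T e) : occ n a e.1 := h.1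

/-- an end of an occurring element is where it is entered or left -/
lemma end_cases {e : U × Bool} (h : occ n a e.1) :
    e = a (posn n a e.1) ∨ e = mu (a (posn n a e.1)) :=
  eq_or_mu (posn_spec h).2.symm

lemma zz_sigma (ha : CutSeq σ n a) (hσ : ∀ e, σ (σ e) = e) {T : Finset U}
    (hT : ∀ t ∈ T, occ n a t) (hT2 : (T.card : ZMod 2) = 0) (e : U × Bool) :
    zz n a T (σ e) ↔ zz n a T e := by
  have key : ∀ e, occ n a e.1 → occ n a (σ e).1 ∧ (zz n a T (σ e) ↔ zz n a T e) := by
    intro e he
    obtain ⟨hp, -⟩ := posn_spec he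
    set i := posn n a e.1 with hi
    rcases end_cases he with h | h
    · rw [← hi] at h
      rw [h]
      rcases Nat.eq_zero_or_pos i with h0 | h0
      · rw [h0, ← ha.close, hσ]
        have h1 : n - 1 < n := Nat.sub_lt ha.pos one_pos
        refine ⟨by rw [mu_fst]; exact occ_a h1, ?_⟩
        rw [zz_out ha h1, ha.close, zz_in ha ha.pos, cz_zero]
        have : n - 1 + 1 = n := Nat.sub_add_cancel ha.pos
        rw [this, cz_all hT, hT2]
      · obtain ⟨j, hj⟩ : ∃ j, i = j + 1 := ⟨i - 1, by omega⟩
        have h1 : a i = σ (mu (a j)) := by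
          rw [hj, ha.step j (by omega)]
        rw [h1, hσ]
        refine ⟨by rw [mu_fst]; exact occ_a (by omega), ?_⟩
        rw [zz_out ha (by omega : j < n), ← h1, zz_in ha hp, hj]
    · rw [← hi] at h
      rw [h]
      by_cases h0 : i + 1 < n
      · rw [ha.step i h0]
        exact ⟨occ_a h0, by rw [zz_in ha h0, zz_out ha hp]⟩
      · have h1 : i = n - 1 := by omega
        rw [h1, ha.close]
        have h2 : n - 1 < n := Nat.sub_lt ha.pos one_pos
        refine ⟨occ_a ha.pos, ?_⟩
        rw [zz_in ha ha.pos, zz_out ha h2, cz_zero]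
        have : n - 1 + 1 = n := Nat.sub_add_cancel ha.pos
        rw [this, cz_all hT, hT2]
  by_cases he : occ n a e.1
  · exact (key e he).2
  · have h1 : ¬ occ n a (σ e).1 := by
      intro h
      have := (key (σ e) h).1
      rw [hσ] at this
      exact he this
    exact ⟨fun h => absurd h.1 h1, fun h => absurd h.1 he⟩

/-- the values of a bridge function along a cut circuit -/
lemma val (ha : CutSeq σ n a) {T Hs : Finset U} {Y : U × Bool → ZMod 2}
    (hY : ∀ e, occ n a e.1 → ¬ zz n a T e → Y (σ e) = Y e)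
    (hm : ∀ e, Y (mu e) = Y e + if e.1 ∈ Hs then 1 else 0)
    (hd : ∀ t ∈ T, t ∉ Hs)
    (hH : ∀ i, i < n → (a i).1 ∈ Hs → cz n a T i = 0) (k : ℕ) (hk : k < n) :
    (cz n a T k = 0 → Y (a k) =
      Y (a 0) + sz n a T (fun t => Y (t, true)) k + sz n a Hs (fun _ => 1) k) ∧
    (cz n a T k = 1 → Y (a 0) + sz n a T (fun t => Y (t, true)) k + sz n a Hs (fun _ => 1) k = 0) := by
  have hTv : ∀ e : U × Bool, e.1 ∈ T → Y (e.1, true) = Y e := by
    intro e he
    have h1 := hm e
    rw [if_neg (hd _ he), add_zero] at h1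
    rcases e with ⟨u, i⟩
    cases i
    · exact h1
    · rfl
  induction k with
  | zero =>
    constructor
    · intro _
      rw [sz_zero, sz_zero]
      ring
    · intro h
      rw [cz_zero] at h
      exact absurd h (by decide)
  | succ k ih =>
    have hk' : k < n := by omega
    obtain ⟨i1, i2⟩ := ih hk'
    have hstep := ha.step k hk
    by_cases hT : (a k).1 ∈ T
    · have hHn : (a k).1 ∉ Hs := hd _ hT
      rw [cz_succ_mem ha hk' hT, sz_succ_mem ha hk' hT, sz_succ_not ha hk' hHn]
      rcases z2 (cz n a T k) with h0 | h0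
      · rw [h0]
        constructor
        · intro h
          exact absurd h (by decide)
        · intro _
          have h1 := i1 h0
          rw [hTv (a k) hT, h1]
          have := z2_add_self (Y (a 0) + sz n a T (fun t => Y (t, true)) k +
            sz n a Hs (fun _ => 1) k)
          calc _ = (Y (a 0) + sz n a T (fun t => Y (t, true)) k + sz n a Hs (fun _ => 1) k) +
                (Y (a 0) + sz n a T (fun t => Y (t, true)) k + sz n a Hs (fun _ => 1) k) := by ring
            _ = 0 := this
      · rw [h0]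
        constructor
        · intro _
          have h1 := i2 h0
          have h2 : ¬ zz n a T (mu (a k)) := by
            rw [zz_out ha hk', cz_succ_mem ha hk' hT, h0]
            decide
          have h3 := hY _ (by rw [mu_fst]; exact occ_a hk') h2
          rw [hstep] at h3
          have h4 := hm (a k)
          rw [if_neg hHn, add_zero] at h4
          rw [h3, h4, hTv (a k) hT]
          calc Y (a k) = 0 + Y (a k) := by ring
            _ = _ := by rw [← h1]; ring
        · intro h
          exact absurd h (by decide)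
    · rw [cz_succ_not ha hk' hT, sz_succ_not ha hk' hT]
      have hz : zz n a T (mu (a k)) ↔ cz n a T k = 1 := by
        rw [zz_out ha hk', cz_succ_not ha hk' hT]
      by_cases hHs : (a k).1 ∈ Hs
      · have h0 := hH k hk' hHs
        rw [h0, sz_succ_mem ha hk' hHs]
        constructor
        · intro _
          have h1 := i1 h0
          have h2 : ¬ zz n a T (mu (a k)) := by
            rw [hz, h0]
            decide
          have h3 := hY _ (by rw [mu_fst]; exact occ_a hk') h2
          rw [hstep] at h3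
          have h4 := hm (a k)
          rw [if_pos hHs] at h4
          rw [h3, h4, h1]
          ring
        · intro h
          exact absurd h (by decide)
      · rw [sz_succ_not ha hk' hHs]
        refine ⟨fun h0 => ?_, fun h0 => i2 h0⟩
        have h2 : ¬ zz n a T (mu (a k)) := by
          rw [hz, h0]
          decide
        have h3 := hY _ (by rw [mu_fst]; exact occ_a hk') h2
        rw [hstep] at h3
        have h4 := hm (a k)
        rw [if_neg hHs, add_zero] at h4
        rw [h3, h4, i1 h0]

/-- closing the circuit -/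
lemma val_close (ha : CutSeq σ n a) {T Hs : Finset U} {Y : U × Bool → ZMod 2}
    (hY : ∀ e, occ n a e.1 → ¬ zz n a T e → Y (σ e) = Y e)
    (hm : ∀ e, Y (mu e) = Y e + if e.1 ∈ Hs then 1 else 0)
    (hd : ∀ t ∈ T, t ∉ Hs)
    (hH : ∀ i, i < n → (a i).1 ∈ Hs → cz n a T i = 0)
    (hT : ∀ t ∈ T, occ n a t) (hHo : ∀ t ∈ Hs, occ n a t) (hT2 : (T.card : ZMod 2) = 0) :
    ∑ t ∈ T, Y (t, true) + (Hs.card : ZMod 2) = 0 := by
  have hTv : ∀ e : U × Bool, e.1 ∈ T → Y (e.1, true) = Y e := by
    intro e he
    have h1 := hm e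
    rw [if_neg (hd _ he), add_zero] at h1
    rcases e with ⟨u, i⟩
    cases i
    · exact h1
    · rfl
  have hlast : n - 1 < n := Nat.sub_lt ha.pos one_pos
  have hn : n - 1 + 1 = n := Nat.sub_add_cancel ha.pos
  obtain ⟨i1, i2⟩ := val ha hY hm hd hH (n - 1) hlast
  have hzn : ¬ zz n a T (mu (a (n - 1))) := by
    rw [zz_out ha hlast, hn, cz_all hT, hT2]
    decide
  have h3 := hY _ (by rw [mu_fst]; exact occ_a hlast) hzn
  rw [ha.close] at h3
  have h4 := hm (a (n - 1))
  have e1 : sz n a T (fun t => Y (t, true)) n = ∑ t ∈ T, Y (t, true) := sz_all hT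
  have e2 : sz n a Hs (fun _ => 1) n = (Hs.card : ZMod 2) := by
    rw [sz_all hHo]
    simp
  rw [← e1, ← e2]
  have ecz : cz n a T n = 0 := by rw [cz_all hT, hT2]
  have hs1 : ∀ z w : ZMod 2, z = z + w → w = 0 := by decide
  by_cases hTl : (a (n - 1)).1 ∈ T
  · have hHn : (a (n - 1)).1 ∉ Hs := hd _ hTl
    rw [if_neg hHn, add_zero] at h4
    have h5 := cz_succ_mem ha hlast hTl
    rw [hn, ecz] at h5
    have h6 : cz n a T (n - 1) = 1 := by
      rcases z2 (cz n a T (n - 1)) with h | h
      · rw [h] at h5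
        exact absurd h5 (by decide)
      · exact h
    have h7 := i2 h6
    have h8 := sz_succ_mem (f := fun t => Y (t, true)) ha hlast hTl
    have h9 := sz_succ_not (f := fun _ => (1 : ZMod 2)) ha hlast hHn
    rw [hn] at h8 h9
    rw [h8, h9, hTv _ hTl]
    refine hs1 (Y (a 0)) _ ?_
    have h10 : Y (a (n - 1)) = Y (a 0) := by rw [h3, h4]
    calc Y (a 0) = 0 + Y (a 0) := by ring
      _ = _ := by
        rw [← h7, h10]
        ring
  · have h5 := cz_succ_not ha hlast hTl
    rw [hn, ecz] at h5
    have h7 := i1 h5.symm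
    have h8 := sz_succ_not (f := fun t => Y (t, true)) ha hlast hTl
    rw [hn] at h8
    by_cases hHs : (a (n - 1)).1 ∈ Hs
    · rw [if_pos hHs] at h4
      have h9 := sz_succ_mem (f := fun _ => (1 : ZMod 2)) ha hlast hHs
      rw [hn] at h9
      rw [h8, h9]
      refine hs1 (Y (a 0)) _ ?_
      calc Y (a 0) = Y (a (n - 1)) + 1 := by rw [h3, h4]
        _ = _ := by
          rw [h7]
          ring
    · rw [if_neg hHs, add_zero] at h4
      have h9 := sz_succ_not (f := fun _ => (1 : ZMod 2)) ha hlast hHs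
      rw [hn] at h9
      rw [h8, h9]
      refine hs1 (Y (a 0)) _ ?_
      calc Y (a 0) = Y (a (n - 1)) := by rw [h3, h4]
        _ = _ := by
          rw [h7]
          ring

end one

end H48CP
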