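import Mathlib

/-!
Signed graphs and the axioms of alpha and beta systems (note 3639 on MP_472c72).
-/

namespace H48CP

open Finset
open scoped Classical

/-- a signed graph; `sg a` means that `a` has the sign minus (a loop in the matrix) -/
structure SG (V : Type*) where
  adj : V → V → Prop
  sg : V → Prop
  symm : ∀ {a b}, adj a b → adj b a
  irr : ∀ a, ¬ adj a a

namespace SG

variable {V : Type*}

/-- the complement: adjacency and signs are both complemented -/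
def co (G : SG V) : SG V where
  adj a b := a ≠ b ∧ ¬ G.adj a b
  sg a := ¬ G.sg a
  symm := fun h => ⟨h.1.symm, fun h' => h.2 (G.symm h')⟩
  irr := fun _ h => h.1 rfl

/-- the row of `z` lies between the intersection and the union of the rows of `a` and `b` -/
def Btw (G : SG V) (S : Finset V) (a b z : V) : Prop :=
  ∀ v ∈ S, v ≠ a → v ≠ b → v ≠ z →
    (G.adj v a → G.adj v b → G.adj v z) ∧ (G.adj v z → G.adj v a ∨ G.adj v b)

/-- `x - s - t - y` is an induced path -/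
def P4 (G : SG V) (x s t y : V) : Prop :=
  G.adj x s ∧ G.adj s t ∧ G.adj t y ∧ ¬ G.adj x t ∧ ¬ G.adj x y ∧ ¬ G.adj s y

/-- the neighbours of `k` in `{x,s,t,y}` are `{x,s}`, `{s,y}`, `{x,t}` or `{t,y}` -/
def Pat (G : SG V) (x s t y k : V) : Prop :=
  (G.adj k x ∧ G.adj k s ∧ ¬ G.adj k t ∧ ¬ G.adj k y) ∨
  (¬ G.adj k x ∧ G.adj k s ∧ ¬ G.adj k t ∧ G.adj k y) ∨
  (G.adj k x ∧ ¬ G.adj k s ∧ G.adj k t ∧ ¬ G.adj k y) ∨
  (¬ G.adj k x ∧ ¬ G.adj k s ∧ G.adj k t ∧ G.adj k y)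

/-- the first alternative of (E4) -/
def Opt (G : SG V) (S : Finset V) (x s t y : V) : Prop :=
  ∃ k ∈ S, k ≠ x ∧ k ≠ s ∧ k ≠ t ∧ k ≠ y ∧ G.Pat x s t y k ∧
    ∀ p ∈ S, p ≠ x → p ≠ s → p ≠ t → p ≠ y → p ≠ k →
      (¬ G.adj p x → ¬ G.adj p s → ¬ G.adj p t → ¬ G.adj p y → ¬ G.adj p k) ∧
      (G.adj p x → G.adj p s → G.adj p t → G.adj p y → G.adj p k)

/-- the second alternative of (E4) -/
def EOpt (G : SG V) (S : Finset V) (x s t y : V) : Prop :=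
  ∀ v ∈ S, v ≠ x → v ≠ s → v ≠ t → v ≠ y →
    ¬ (G.adj v x ↔ G.adj v y) ∨ ¬ (G.adj v s ↔ G.adj v t)

/-- alpha system (`β = False`) or beta system (`β = True`) -/
structure Ax (β : Prop) (G : SG V) (S : Finset V) : Prop where
  e2a : ∀ a ∈ S, ∀ b ∈ S, G.adj a b → ¬ G.sg a → ¬ G.sg b →
    ∃ z ∈ S, G.sg z ∧ G.adj z a ∧ G.adj z b ∧ G.Btw S a b z
  e2b : ∀ a ∈ S, ∀ b ∈ S, a ≠ b → ¬ G.adj a b → G.sg a → G.sg b →
    (β ∨ ∃ c ∈ S, G.adj c a ∧ G.adj c b) →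
    ∃ z ∈ S, ¬ G.sg z ∧ ¬ G.adj z a ∧ ¬ G.adj z b ∧ G.Btw S a b z
  e4 : ∀ x ∈ S, ∀ s ∈ S, ∀ t ∈ S, ∀ y ∈ S, G.P4 x s t y → ¬ G.sg x → G.sg s → G.sg t →
    ¬ G.sg y → G.Opt S x s t y ∨ (β ∧ G.EOpt S x s t y)

/-- reachability inside `S` -/
def Rch (G : SG V) (S : Finset V) (a b : V) : Prop :=
  Relation.ReflTransGen (fun u v => v ∈ S ∧ G.adj u v) a b

/-- no induced path with four vertices, and every component is a single plus or has a dominating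
minus -/
structure Cls (G : SG V) (S : Finset V) : Prop where
  p4 : ∀ x ∈ S, ∀ s ∈ S, ∀ t ∈ S, ∀ y ∈ S, ¬ G.P4 x s t y
  dom : ∀ v ∈ S, (G.sg v ∨ ∃ w ∈ S, G.adj v w) →
    ∃ c ∈ S, G.sg c ∧ G.Rch S v c ∧ ∀ a ∈ S, G.Rch S v a → a ≠ c → G.adj c a

/-- the non-neighbours of `p` -/
noncomputable def Zs (G : SG V) (S : Finset V) (p : V) : Finset V :=
  S.filter fun v => v ≠ p ∧ ¬ G.adj v p

/-- the neighbours of `p` -/
noncomputable def As (G : SG V) (S : Finset V) (p : V) : Finset V :=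
  S.filter fun v => G.adj v p

end SG

end H48CP
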