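import Pool.Agent.H48.CP.Lift

/-!
General lifting (project CP, MP_472c72): the values of a cut function on the levels which the
circuits do not touch.
-/

namespace H48CP

namespace Lev

variable {U : Type*} {P : Pr U} {r : ℕ} {ka kb : U × Bool → ℕ} {za zb : U × Bool → Prop}
  {Y : U × Bool → ZMod 2} {g : U} {K : ℕ}

/-- the two members through the bridge are touched by the circuits -/
lemma bru_touch (h : Lev P r ka kb) (hB : P.BrU za zb Y g) :
    (∃ e, ka e = ka (g, true) ∧ za e) ∧ ∃ e, kb e = kb (g, true) ∧ zb e := by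
  constructor
  · by_contra hcon
    push Not at hcon
    exact h.no_jump_a (fun e he => hB.ya e (hcon e he)) hB.ym hB.yh
  · by_contra hcon
    push Not at hcon
    exact h.no_jump_b (fun e he => hB.yb e (hcon e he)) hB.ym hB.yh

lemma fst_ne (h : Lev P r ka kb) (hB : P.BrU za zb Y g) {e : U × Bool} (he : e.1 = g) :
    (∃ f, ka f = ka e ∧ za f) ∧ ∃ f, kb f = kb e ∧ zb f := by
  subst he
  obtain ⟨h1, h2⟩ := h.bru_touch hB
  rw [h.ka_true] at h1
  rw [h.kb_true] at h2
  exact ⟨h1, h2⟩

/-- the levels at least `K` are not touched: the value there is the value at `y` -/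
theorem bru_right (h : Lev P r ka kb) (hB : P.BrU za zb Y g) (hK : 0 < K)
    (hza : ∀ e, za e → ka e < K) (hzb : ∀ e, zb e → kb e < K) :
    ∀ e, K ≤ ka e ∨ K ≤ kb e → Y e = Y P.q0 := by
  have hm : ∀ e, K - 1 < ka e ∨ K - 1 < kb e → Y (mu e) = Y e := by
    intro e he
    refine hB.ym e (fun h1 => ?_)
    obtain ⟨⟨f, f1, f2⟩, ⟨f', f3, f4⟩⟩ := h.fst_ne hB h1
    have := hza _ f2
    have := hzb _ f4
    omega
  have hs := fun l (hl : K - 1 < l) (hlr : l ≤ r) => h.side_y (Y := Y) (j₀ := K - 1)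
    (fun e he => hB.ya e (fun h1 => by have := hza _ h1; omega))
    (fun e he => hB.yb e (fun h1 => by have := hzb _ h1; omega)) hm l hl hlr
  rintro e (he | he)
  · exact (hs (ka e) (by omega) (h.lea e)).1 e rfl
  · exact (hs (kb e) (by omega) (h.leb e)).2 e rfl

/-- the levels at most `K` are not touched: the value there is the value at `x` -/
theorem bru_left (h : Lev P r ka kb) (hB : P.BrU za zb Y g) (hK : K < r)
    (hza : ∀ e, za e → K < ka e) (hzb : ∀ e, zb e → K < kb e) :
    ∀ e, ka e ≤ K ∨ kb e ≤ K → Y e = Y P.p0 := by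
  have hm : ∀ e, ka e < K + 1 ∨ kb e < K + 1 → Y (mu e) = Y e := by
    intro e he
    refine hB.ym e (fun h1 => ?_)
    obtain ⟨⟨f, f1, f2⟩, ⟨f', f3, f4⟩⟩ := h.fst_ne hB h1
    have := hza _ f2
    have := hzb _ f4
    omega
  have hs := fun l (hl : l < K + 1) => h.side_x (Y := Y) (i₀ := K + 1) (by omega)
    (fun e he => hB.ya e (fun h1 => by have := hza _ h1; omega))
    (fun e he => hB.yb e (fun h1 => by have := hzb _ h1; omega)) hm l hl
  rintro e (he | he)
  · exact (hs (ka e) (by omega)).1 e rfl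
  · exact (hs (kb e) (by omega)).2 e rfl

theorem bre_right (h : Lev P r ka kb) (hB : P.BrE za zb Y) (hK : 0 < K)
    (hza : ∀ e, za e → ka e < K) (hzb : ∀ e, zb e → kb e < K) :
    ∀ e, K ≤ ka e ∨ K ≤ kb e → Y e = Y P.q0 := by
  have hs := fun l (hl : K - 1 < l) (hlr : l ≤ r) => h.side_y (Y := Y) (j₀ := K - 1)
    (fun e he => hB.ya e (fun h1 => by have := hza _ h1; omega))
    (fun e he => hB.yb e (fun h1 => by have := hzb _ h1; omega)) (fun e _ => hB.ym e) l hl hlr
  rintro e (he | he)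
  · exact (hs (ka e) (by omega) (h.lea e)).1 e rfl
  · exact (hs (kb e) (by omega) (h.leb e)).2 e rfl

theorem bre_left (h : Lev P r ka kb) (hB : P.BrE za zb Y) (hK : K < r)
    (hza : ∀ e, za e → K < ka e) (hzb : ∀ e, zb e → K < kb e) :
    ∀ e, ka e ≤ K ∨ kb e ≤ K → Y e = Y P.p0 := by
  have hs := fun l (hl : l < K + 1) => h.side_x (Y := Y) (i₀ := K + 1) (by omega)
    (fun e he => hB.ya e (fun h1 => by have := hza _ h1; omega))
    (fun e he => hB.yb e (fun h1 => by have := hzb _ h1; omega)) (fun e _ => hB.ym e) l hl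
  rintro e (he | he)
  · exact (hs (ka e) (by omega)).1 e rfl
  · exact (hs (kb e) (by omega)).2 e rfl

end Lev

end H48CP
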