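import Pool.Agent.H48.CP.Defs

/-!
Theorem A (note 3639 on MP_472c72): an alpha system has no induced path with four vertices and
every component is a single plus or has a dominating minus.
-/

namespace H48CP

open Finset
open scoped Classical

namespace SG

variable {V : Type*} {G : SG V} {S : Finset V} {β : Prop}

lemma mem_Zs {p v : V} : v ∈ G.Zs S p ↔ v ∈ S ∧ v ≠ p ∧ ¬ G.adj v p := by
  simp [Zs]

lemma mem_As {p v : V} : v ∈ G.As S p ↔ v ∈ S ∧ G.adj v p := by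
  simp [As]

lemma adj_ne {a b : V} (h : G.adj a b) : a ≠ b := fun e => G.irr b (e ▸ h)

lemma P4.ne1 {x s t y : V} (h : G.P4 x s t y) : x ≠ t := fun e => h.2.2.2.2.1 (e ▸ h.2.2.1)

lemma P4.ne2 {x s t y : V} (h : G.P4 x s t y) : x ≠ y := fun e =>
  h.2.2.2.1 (G.symm (e ▸ h.2.2.1))

lemma P4.ne3 {x s t y : V} (h : G.P4 x s t y) : s ≠ y := fun e => h.2.2.2.2.1 (e ▸ h.1)

lemma P4.co {x s t y : V} (h : G.P4 x s t y) : G.co.P4 s y x t :=
  ⟨⟨h.ne3, h.2.2.2.2.2⟩, ⟨h.ne2.symm, fun h' => h.2.2.2.2.1 (G.symm h')⟩, ⟨h.ne1, h.2.2.2.1⟩,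
    fun h' => h'.2 (G.symm h.1), fun h' => h'.2 h.2.1, fun h' => h'.2 (G.symm h.2.2.1)⟩

lemma P4.of_co {x s t y : V} (h : G.co.P4 x s t y) : G.P4 s y x t := by
  have n1 : x ≠ t := h.ne1
  have n2 : x ≠ y := h.ne2
  have n3 : s ≠ y := h.ne3
  obtain ⟨h1, h2, h3, h4, h5, h6⟩ := h
  refine ⟨?_, ?_, ?_, fun h' => h1.2 (G.symm h'), h2.2, fun h' => h3.2 (G.symm h')⟩
  · by_contra h'
    exact h6 ⟨n3, h'⟩
  · by_contra h'
    exact h5 ⟨n2, fun h'' => h' (G.symm h'')⟩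
  · by_contra h'
    exact h4 ⟨n1, h'⟩

/-! ### local systems -/

/-- the non-neighbours of `p` form an alpha system -/
lemma Ax.loc_Z (h : Ax β G S) {p : V} (hp : p ∈ S) : Ax False G (G.Zs S p) where
  e2a := by
    intro a ha b hb hab sa sb
    rw [mem_Zs] at ha hb
    obtain ⟨z, hz, sz, za, zb, hB⟩ := h.e2a a ha.1 b hb.1 hab sa sb
    have hzp : z ≠ p := by
      rintro rfl
      exact ha.2.2 (G.symm za)
    have hzp' : ¬ G.adj z p := by
      intro hzp'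
      rcases (hB p hp ha.2.1.symm hb.2.1.symm hzp.symm).2 (G.symm hzp') with h1 | h1
      · exact ha.2.2 (G.symm h1)
      · exact hb.2.2 (G.symm h1)
    exact ⟨z, mem_Zs.2 ⟨hz, hzp, hzp'⟩, sz, za, zb, fun v hv => hB v (mem_Zs.1 hv).1⟩
  e2b := by
    intro a ha b hb hne hab sa sb hc
    rw [mem_Zs] at ha hb
    obtain ⟨c, hc, hca, hcb⟩ := hc.resolve_left id
    rw [mem_Zs] at hc
    obtain ⟨z, hz, sz, za, zb, hB⟩ := h.e2b a ha.1 b hb.1 hne hab sa sb (Or.inr ⟨c, hc.1, hca, hcb⟩)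
    have hcz : c ≠ z := by
      rintro rfl
      exact za hca
    have hcz' := (hB c hc.1 (adj_ne hca) (adj_ne hcb) hcz).1 hca hcb
    have hzp : z ≠ p := by
      rintro rfl
      exact hc.2.2 hcz'
    have hzp' : ¬ G.adj z p := by
      intro hzp'
      rcases (hB p hp ha.2.1.symm hb.2.1.symm hzp.symm).2 (G.symm hzp') with h1 | h1
      · exact ha.2.2 (G.symm h1)
      · exact hb.2.2 (G.symm h1)
    exact ⟨z, mem_Zs.2 ⟨hz, hzp, hzp'⟩, sz, za, zb, fun v hv => hB v (mem_Zs.1 hv).1⟩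
  e4 := by
    intro x hx s hs t ht y hy hP sx ss st sy
    rw [mem_Zs] at hx hs ht hy
    left
    rcases h.e4 x hx.1 s hs.1 t ht.1 y hy.1 hP sx ss st sy with h1 | ⟨-, h1⟩
    · obtain ⟨k, hk, k1, k2, k3, k4, hPat, hcl⟩ := h1
      have hkp : k ≠ p := by
        rintro rfl
        rcases hPat with h2 | h2 | h2 | h2
        · exact hx.2.2 (G.symm h2.1)
        · exact hs.2.2 (G.symm h2.2.1)
        · exact hx.2.2 (G.symm h2.1)
        · exact ht.2.2 (G.symm h2.2.2.1)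
      have hkp' : ¬ G.adj k p := by
        intro h3
        refine (hcl p hp hx.2.1.symm hs.2.1.symm ht.2.1.symm hy.2.1.symm hkp.symm).1 ?_ ?_ ?_ ?_
          (G.symm h3)
        · exact fun h => hx.2.2 (G.symm h)
        · exact fun h => hs.2.2 (G.symm h)
        · exact fun h => ht.2.2 (G.symm h)
        · exact fun h => hy.2.2 (G.symm h)
      exact ⟨k, mem_Zs.2 ⟨hk, hkp, hkp'⟩, k1, k2, k3, k4, hPat, fun q hq => hcl q (mem_Zs.1 hq).1⟩
    · exfalso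
      have := h1 p hp hx.2.1.symm hs.2.1.symm ht.2.1.symm hy.2.1.symm
      have e1 : ¬ G.adj p x := fun h => hx.2.2 (G.symm h)
      have e2 : ¬ G.adj p s := fun h => hs.2.2 (G.symm h)
      have e3 : ¬ G.adj p t := fun h => ht.2.2 (G.symm h)
      have e4 : ¬ G.adj p y := fun h => hy.2.2 (G.symm h)
      exact this.elim (fun z => z (iff_of_false e1 e4)) (fun z => z (iff_of_false e2 e3))

/-- the complement on the neighbours of `p` is an alpha system -/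
lemma Ax.loc_A (h : Ax β G S) {p : V} (hp : p ∈ S) : Ax False G.co (G.As S p) where
  e2a := by
    intro a ha b hb hab sa sb
    rw [mem_As] at ha hb
    have sa' : G.sg a := not_not.1 sa
    have sb' : G.sg b := not_not.1 sb
    obtain ⟨z, hz, sz, za, zb, hB⟩ := h.e2b a ha.1 b hb.1 hab.1 hab.2 sa' sb'
      (Or.inr ⟨p, hp, G.symm ha.2, G.symm hb.2⟩)
    have hpz : p ≠ z := by
      rintro rfl
      exact za (G.symm ha.2)
    have hpz' := (hB p hp (adj_ne ha.2).symm (adj_ne hb.2).symm hpz).1 (G.symm ha.2) (G.symm hb.2)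
    refine ⟨z, mem_As.2 ⟨hz, G.symm hpz'⟩, sz, ⟨?_, za⟩, ⟨?_, zb⟩, ?_⟩
    · rintro rfl
      exact sz sa'
    · rintro rfl
      exact sz sb'
    · intro v hv h1 h2 h3
      have := hB v (mem_As.1 hv).1 h1 h2 h3
      exact ⟨fun e1 e2 => ⟨h3, fun e => (this.2 e).elim e1.2 e2.2⟩,
        fun e => (not_and_or.1 fun u => e.2 (this.1 u.1 u.2)).imp (fun z => ⟨h1, z⟩) fun z => ⟨h2, z⟩⟩
  e2b := by
    intro a ha b hb hne hab sa sb hc
    rw [mem_As] at ha hb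
    obtain ⟨c, hc, hca, hcb⟩ := hc.resolve_left id
    rw [mem_As] at hc
    have hab' : G.adj a b := by
      by_contra h1
      exact hab ⟨hne, h1⟩
    obtain ⟨z, hz, sz, za, zb, hB⟩ := h.e2a a ha.1 b hb.1 hab' sa sb
    have hcz : c ≠ z := by
      rintro rfl
      exact hca.2 za
    have hpz : p ≠ z := by
      rintro rfl
      rcases (hB c hc.1 hca.1 hcb.1 hcz).2 hc.2 with h1 | h1
      · exact hca.2 h1
      · exact hcb.2 h1
    have hpz' := (hB p hp (adj_ne ha.2).symm (adj_ne hb.2).symm hpz).1 (G.symm ha.2) (G.symm hb.2)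
    refine ⟨z, mem_As.2 ⟨hz, G.symm hpz'⟩, not_not.2 sz, fun h => h.2 za, fun h => h.2 zb, ?_⟩
    intro v hv h1 h2 h3
    have := hB v (mem_As.1 hv).1 h1 h2 h3
    exact ⟨fun e1 e2 => ⟨h3, fun e => (this.2 e).elim e1.2 e2.2⟩,
      fun e => (not_and_or.1 fun u => e.2 (this.1 u.1 u.2)).imp (fun z => ⟨h1, z⟩) fun z => ⟨h2, z⟩⟩
  e4 := by
    intro x hx s hs t ht y hy hP sx ss st sy
    rw [mem_As] at hx hs ht hy
    left
    have hP' : G.P4 s y x t := hP.of_co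
    rcases h.e4 s hs.1 y hy.1 x hx.1 t ht.1 hP' ss (not_not.1 sy) (not_not.1 sx) st with
      h1 | ⟨-, h1⟩
    · obtain ⟨k, hk, k1, k2, k3, k4, hPat, hcl⟩ := h1
      have hkp : k ≠ p := by
        rintro rfl
        rcases hPat with h2 | h2 | h2 | h2
        · exact h2.2.2.1 (G.symm hx.2)
        · exact h2.1 (G.symm hs.2)
        · exact h2.2.1 (G.symm hy.2)
        · exact h2.1 (G.symm hs.2)
      have hkp' : G.adj p k := by
        refine (hcl p hp (adj_ne hs.2).symm (adj_ne hy.2).symm (adj_ne hx.2).symm (adj_ne ht.2).symm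
          hkp.symm).2 ?_ ?_ ?_ ?_
        · exact G.symm hs.2
        · exact G.symm hy.2
        · exact G.symm hx.2
        · exact G.symm ht.2
      refine ⟨k, mem_As.2 ⟨hk, G.symm hkp'⟩, k3, k1, k4, k2, ?_, ?_⟩
      · rcases hPat with ⟨a, b, c, d⟩ | ⟨a, b, c, d⟩ | ⟨a, b, c, d⟩ | ⟨a, b, c, d⟩
        · exact Or.inr (Or.inr (Or.inl ⟨⟨k3, c⟩, fun e => e.2 a, ⟨k4, d⟩, fun e => e.2 b⟩))
        · exact Or.inl ⟨⟨k3, c⟩, ⟨k1, a⟩, fun e => e.2 d, fun e => e.2 b⟩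
        · exact Or.inr (Or.inr (Or.inr ⟨fun e => e.2 c, fun e => e.2 a, ⟨k4, d⟩, ⟨k2, b⟩⟩))
        · exact Or.inr (Or.inl ⟨fun e => e.2 c, ⟨k1, a⟩, fun e => e.2 d, ⟨k2, b⟩⟩)
      · intro q hq q1 q2 q3 q4 q5
        have := hcl q (mem_As.1 hq).1 q2 q4 q1 q3 q5
        exact ⟨fun e1 e2 e3 e4 e => e.2 (this.2 (not_not.1 fun z => e2 ⟨q2, z⟩) (not_not.1 fun z => e4 ⟨q4, z⟩)
          (not_not.1 fun z => e1 ⟨q1, z⟩) (not_not.1 fun z => e3 ⟨q3, z⟩)), fun e1 e2 e3 e4 => ⟨q5, this.1 e2.2 e4.2 e1.2 e3.2⟩⟩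
    · exfalso
      have := h1 p hp (adj_ne hs.2).symm (adj_ne hy.2).symm (adj_ne hx.2).symm (adj_ne ht.2).symm
      exact this.elim (fun z => z (iff_of_true (G.symm hs.2) (G.symm ht.2)))
        fun z => z (iff_of_true (G.symm hy.2) (G.symm hx.2))

/-- closed subsets of an alpha system -/
lemma Ax.closed (h : Ax False G S) {C : Finset V} (hCS : C ⊆ S)
    (hC : ∀ a ∈ C, ∀ b ∈ S, G.adj a b → b ∈ C) : Ax False G C where
  e2a := by
    intro a ha b hb hab sa sb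
    obtain ⟨z, hz, sz, za, zb, hB⟩ := h.e2a a (hCS ha) b (hCS hb) hab sa sb
    exact ⟨z, hC a ha z hz (G.symm za), sz, za, zb, fun v hv => hB v (hCS hv)⟩
  e2b := by
    intro a ha b hb hne hab sa sb hc
    obtain ⟨c, hc, hca, hcb⟩ := hc.resolve_left id
    obtain ⟨z, hz, sz, za, zb, hB⟩ := h.e2b a (hCS ha) b (hCS hb) hne hab sa sb
      (Or.inr ⟨c, hCS hc, hca, hcb⟩)
    have hcz : c ≠ z := by
      rintro rfl
      exact za hca
    have hcz' := (hB c (hCS hc) (adj_ne hca) (adj_ne hcb) hcz).1 hca hcb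
    exact ⟨z, hC c hc z hz hcz', sz, za, zb, fun v hv => hB v (hCS hv)⟩
  e4 := by
    intro x hx s hs t ht y hy hP sx ss st sy
    rcases h.e4 x (hCS hx) s (hCS hs) t (hCS ht) y (hCS hy) hP sx ss st sy with h1 | ⟨h1, -⟩
    · left
      obtain ⟨k, hk, k1, k2, k3, k4, hPat, hcl⟩ := h1
      refine ⟨k, ?_, k1, k2, k3, k4, hPat, fun q hq => hcl q (hCS hq)⟩
      rcases hPat with h2 | h2 | h2 | h2
      · exact hC x hx k hk (G.symm h2.1)
      · exact hC s hs k hk (G.symm h2.2.1)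
      · exact hC x hx k hk (G.symm h2.1)
      · exact hC t ht k hk (G.symm h2.2.2.1)
    · exact absurd h1 id

/-! ### the hypotheses of the main argument -/

/-- the axioms together with the classes of the local systems -/
structure Loc (β : Prop) (G : SG V) (S : Finset V) : Prop where
  ax : Ax β G S
  z : ∀ p ∈ S, Cls G (G.Zs S p)
  a : ∀ p ∈ S, Cls G.co (G.As S p)

lemma Loc.noP4A (h : Loc β G S) {p : V} (hp : p ∈ S) {x s t y : V} (hx : x ∈ S) (hs : s ∈ S)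
    (ht : t ∈ S) (hy : y ∈ S) (h1 : G.adj x p) (h2 : G.adj s p) (h3 : G.adj t p)
    (h4 : G.adj y p) : ¬ G.P4 x s t y := fun hP =>
  (h.a p hp).p4 s (mem_As.2 ⟨hs, h2⟩) y (mem_As.2 ⟨hy, h4⟩) x (mem_As.2 ⟨hx, h1⟩) t
    (mem_As.2 ⟨ht, h3⟩) hP.co

/-- the row of a minus element -/
noncomputable def Rw (G : SG V) (S : Finset V) (u : V) : Finset V :=
  S.filter fun v => G.adj v u ∨ v = u

lemma mem_Rw {u v : V} : v ∈ G.Rw S u ↔ v ∈ S ∧ (G.adj v u ∨ v = u) := by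
  simp [Rw]

/-- the row of the minus element `u` is maximal -/
def Mx (G : SG V) (S : Finset V) (u : V) : Prop :=
  u ∈ S ∧ G.sg u ∧ ∀ v ∈ S, G.sg v → G.Rw S u ⊆ G.Rw S v → G.Rw S v ⊆ G.Rw S u

lemma exists_Mx {u : V} (hu : u ∈ S) (su : G.sg u) : ∃ v, G.Mx S v ∧ G.Rw S u ⊆ G.Rw S v := by
  have h1 : (S.filter fun v => G.sg v ∧ G.Rw S u ⊆ G.Rw S v).Nonempty :=
    ⟨u, mem_filter.2 ⟨hu, su, Subset.refl _⟩⟩
  obtain ⟨v, hv, hmax⟩ := exists_max_image _ (fun v => (G.Rw S v).card) h1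
  obtain ⟨hvS, sv, hsub⟩ := mem_filter.1 hv
  refine ⟨v, ⟨hvS, sv, fun w hw sw hvw => ?_⟩, hsub⟩
  have h2 := hmax w (mem_filter.2 ⟨hw, sw, hsub.trans hvw⟩)
  rw [eq_of_subset_of_card_le hvw h2]

/-- a co-component of `A_u` with its dominating plus element -/
structure CoD (G : SG V) (S : Finset V) (u t d : V) : Prop where
  mx : G.Mx S u
  tA : t ∈ G.As S u
  st : G.sg t
  dA : d ∈ G.As S u
  sd : ¬ G.sg d
  rd : G.co.Rch (G.As S u) t d
  dd : ∀ a ∈ G.As S u, G.co.Rch (G.As S u) t a → a ≠ d → ¬ G.adj d a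

lemma CoD.td {u t d : V} (h : CoD G S u t d) : ¬ G.adj d t :=
  h.dd t h.tA Relation.ReflTransGen.refl (fun e => h.sd (e ▸ h.st))

/-- elements of `A_u` outside of the co-component are adjacent to it -/
lemma co_adj {u t p q : V} (hp : p ∈ G.As S u) (hp' : ¬ G.co.Rch (G.As S u) t p)
    (hq' : G.co.Rch (G.As S u) t q) : G.adj q p := by
  by_contra h
  refine hp' (hq'.tail ⟨hp, ?_, h⟩)
  rintro rfl
  exact hp' hq'

lemma U1 (hL : Loc β G S) {u t d : V} (hD : CoD G S u t d) {v : V} (hv : v ∈ G.Zs S u)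
    (sv : ¬ G.sg v) (hvd : G.adj v d) :
    ∃ p ∈ G.Zs S u, G.sg p ∧ G.adj p v ∧ G.adj p d ∧ G.Btw S v d p := by
  have hdS := (mem_As.1 hD.dA).1
  have htS := (mem_As.1 hD.tA).1
  have htu := (mem_As.1 hD.tA).2
  have hdu := (mem_As.1 hD.dA).2
  rw [mem_Zs] at hv
  obtain ⟨p, hp, sp, pv, pd, hB⟩ := hL.ax.e2a v hv.1 d hdS hvd sv hD.sd
  by_cases hpu : G.adj p u
  · exfalso
    have hpA : p ∈ G.As S u := mem_As.2 ⟨hp, hpu⟩
    have hpD : ¬ G.co.Rch (G.As S u) t p := fun h1 =>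
      hD.dd p hpA h1 (adj_ne pd) (G.symm pd)
    have hpt : G.adj t p := co_adj hpA hpD Relation.ReflTransGen.refl
    have htd : ¬ G.adj t d := fun h => hD.td (G.symm h)
    have htv : G.adj t v := by
      have h1 : t ≠ v := by
        rintro rfl
        exact hv.2.2 htu
      have h2 : t ≠ d := by
        rintro rfl
        exact hD.sd hD.st
      have h3 : t ≠ p := adj_ne hpt
      exact ((hB t htS h1 h2 h3).2 hpt).resolve_right htd
    have hsub : ¬ G.Rw S u ⊆ G.Rw S p := by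
      intro h1
      have h2 := hD.mx.2.2 p hp sp h1 (mem_Rw.2 ⟨hv.1, Or.inl (G.symm pv)⟩)
      rcases (mem_Rw.1 h2).2 with h3 | h3
      · exact hv.2.2 h3
      · exact hv.2.1 h3
    obtain ⟨q, hq1, hq2⟩ := not_subset.1 hsub
    obtain ⟨hqS, hq1⟩ := mem_Rw.1 hq1
    have hq2' : ¬ (G.adj q p ∨ q = p) := fun h => hq2 (mem_Rw.2 ⟨hqS, h⟩)
    push Not at hq2'
    have hqu : G.adj q u := by
      rcases hq1 with h1 | h1
      · exact h1
      · exact absurd (G.symm hpu) (h1 ▸ hq2'.1)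
    have hqA : q ∈ G.As S u := mem_As.2 ⟨hqS, hqu⟩
    have hqD : ¬ G.co.Rch (G.As S u) t q := fun h1 => hpD (h1.tail ⟨hpA, hq2'.2, hq2'.1⟩)
    have hqd : G.adj d q := co_adj hqA hqD hD.rd
    have hqt : G.adj t q := co_adj hqA hqD Relation.ReflTransGen.refl
    have hqv : ¬ G.adj q v := by
      intro h1
      have h2 : q ≠ v := by
        rintro rfl
        exact hv.2.2 hqu
      exact hq2'.1 ((hB q hqS h2 (adj_ne hqd).symm hq2'.2).1 h1 (G.symm hqd))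
    refine hL.noP4A htS hv.1 hp hD.mx.1 hqS (G.symm htv) (G.symm hpt) (G.symm htu) (G.symm hqt)
      ⟨G.symm pv, hpu, G.symm hqu, hv.2.2, fun h => hqv (G.symm h), fun h => hq2'.1 (G.symm h)⟩
  · refine ⟨p, mem_Zs.2 ⟨hp, ?_, hpu⟩, sp, pv, pd, hB⟩
    rintro rfl
    exact hv.2.2 (G.symm pv)

lemma U2 (hL : Loc β G S) {u t d : V} (hD : CoD G S u t d) {c : V} (hc : c ∈ G.Zs S u)
    (sc : G.sg c) (hdom : ∀ a ∈ G.Zs S u, G.Rch (G.Zs S u) c a → a ≠ c → G.adj c a) :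
    ¬ G.adj c d := by
  intro hcd
  have hdS := (mem_As.1 hD.dA).1
  have hdu := (mem_As.1 hD.dA).2
  have hc' := mem_Zs.1 hc
  obtain ⟨z, hz, sz, zc, zu, hB⟩ := hL.ax.e2b c hc'.1 u hD.mx.1 hc'.2.1 hc'.2.2 sc hD.mx.2.1
    (Or.inr ⟨d, hdS, G.symm hcd, hdu⟩)
  have hdz : d ≠ z := by
    rintro rfl
    exact zc (G.symm hcd)
  have hdz' := (hB d hdS (adj_ne hcd).symm (adj_ne hdu) hdz).1 (G.symm hcd) hdu
  have hzu : z ≠ u := by
    rintro rfl
    exact sz hD.mx.2.1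
  have hzZ : z ∈ G.Zs S u := mem_Zs.2 ⟨hz, hzu, zu⟩
  obtain ⟨p, hp, sp, pz, pd, -⟩ := U1 hL hD hzZ sz (G.symm hdz')
  have hp' := mem_Zs.1 hp
  have hpc : p ≠ c := by
    rintro rfl
    exact zc (G.symm pz)
  have hpc' : G.adj p c :=
    ((hB p hp'.1 hpc hp'.2.1 (adj_ne pz)).2 pz).resolve_right hp'.2.2
  have hzc : z ≠ c := by
    rintro rfl
    exact sz sc
  refine zc (G.symm (hdom z hzZ ?_ hzc))
  exact (Relation.ReflTransGen.refl.tail ⟨hp, G.symm hpc'⟩).tail ⟨hzZ, pz⟩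

/-- Claim (U): the row of `d` is contained in the row of `u` -/
lemma claimU (hL : Loc β G S) {u t d : V} (hD : CoD G S u t d) {v : V} (hvS : v ∈ S)
    (hvd : G.adj v d) : G.adj v u ∨ v = u := by
  by_contra hcon
  push Not at hcon
  have hdS := (mem_As.1 hD.dA).1
  have hdu := (mem_As.1 hD.dA).2
  have hv : v ∈ G.Zs S u := mem_Zs.2 ⟨hvS, hcon.2, hcon.1⟩
  have hne : ((G.Zs S u).filter fun p => G.sg p ∧ G.adj p d).Nonempty := by
    by_cases sv : G.sg v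
    · exact ⟨v, mem_filter.2 ⟨hv, sv, hvd⟩⟩
    · obtain ⟨p, hp, sp, -, pd, -⟩ := U1 hL hD hv sv hvd
      exact ⟨p, mem_filter.2 ⟨hp, sp, pd⟩⟩
  obtain ⟨p, hp, hmax⟩ := exists_max_image _ (fun p => (G.Rw (G.Zs S u) p).card) hne
  obtain ⟨hpZ, sp, pd⟩ := mem_filter.1 hp
  have hp' := mem_Zs.1 hpZ
  obtain ⟨c, hcZ, sc, hrc, hdom⟩ := (hL.z u hD.mx.1).dom p hpZ (Or.inl sp)
  have hdom' : ∀ a ∈ G.Zs S u, G.Rch (G.Zs S u) c a → a ≠ c → G.adj c a :=
    fun a ha h1 h2 => hdom a ha (hrc.trans h1) h2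
  have hcd := U2 hL hD hcZ sc hdom'
  have hcS := (mem_Zs.1 hcZ).1
  -- the witness for `p`, `u`
  obtain ⟨z, hz, sz, zp, zu, hB⟩ := hL.ax.e2b p hp'.1 u hD.mx.1 hp'.2.1 hp'.2.2 sp hD.mx.2.1
    (Or.inr ⟨d, hdS, G.symm pd, hdu⟩)
  have hdz : d ≠ z := by
    rintro rfl
    exact zp (G.symm pd)
  have hdz' := (hB d hdS (adj_ne pd).symm (adj_ne hdu) hdz).1 (G.symm pd) hdu
  have hzu : z ≠ u := by
    rintro rfl
    exact sz hD.mx.2.1
  have hzZ : z ∈ G.Zs S u := mem_Zs.2 ⟨hz, hzu, zu⟩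
  obtain ⟨q, hqZ, sq, qz, qd, hB2⟩ := U1 hL hD hzZ sz (G.symm hdz')
  have hq' := mem_Zs.1 hqZ
  have hqp : q ≠ p := by
    rintro rfl
    exact zp (G.symm qz)
  have hqp' : G.adj q p :=
    ((hB q hq'.1 hqp hq'.2.1 (adj_ne qz)).2 qz).resolve_right hq'.2.2
  -- the element `y`
  have hsub : ¬ G.Rw (G.Zs S u) p ⊆ G.Rw (G.Zs S u) q := by
    intro h1
    have h2 := hmax q (mem_filter.2 ⟨hqZ, sq, qd⟩)
    have h3 := eq_of_subset_of_card_le h1 h2
    have h4 : z ∈ G.Rw (G.Zs S u) q := mem_Rw.2 ⟨hzZ, Or.inl (G.symm qz)⟩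
    rw [← h3] at h4
    rcases (mem_Rw.1 h4).2 with h5 | h5
    · exact zp h5
    · exact sz (h5 ▸ sp)
  obtain ⟨y, hy1, hy2⟩ := not_subset.1 hsub
  obtain ⟨hyZ, hy1⟩ := mem_Rw.1 hy1
  have hy2' : ¬ (G.adj y q ∨ y = q) := fun h => hy2 (mem_Rw.2 ⟨hyZ, h⟩)
  push Not at hy2'
  have hyp : G.adj y p := by
    rcases hy1 with h1 | h1
    · exact h1
    · exact absurd (G.symm hqp') (h1 ▸ hy2'.1)
  have hy' := mem_Zs.1 hyZ
  have hry : G.Rch (G.Zs S u) p y := Relation.ReflTransGen.refl.tail ⟨hyZ, G.symm hyp⟩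
  have hrq : G.Rch (G.Zs S u) p q := Relation.ReflTransGen.refl.tail ⟨hqZ, G.symm hqp'⟩
  have hqc : q ≠ c := by
    rintro rfl
    exact hcd qd
  have hcq : G.adj c q := hdom q hqZ hrq hqc
  have hyc : y ≠ c := by
    rintro rfl
    exact hy2'.1 hcq
  have hcy : G.adj c y := hdom y hyZ hry hyc
  have hpc : p ≠ c := by
    rintro rfl
    exact hcd pd
  have hcp : G.adj c p := hdom p hpZ Relation.ReflTransGen.refl hpc
  by_cases hyd : G.adj y d
  · have hyz : ¬ G.adj y z := by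
      intro h1
      have h2 : y ≠ z := adj_ne h1
      have h3 : y ≠ d := adj_ne hyd
      exact hy2'.1 ((hB2 y hy'.1 h2 h3 hy2'.2).1 h1 hyd)
    refine (hL.z u hD.mx.1).p4 y hyZ p hpZ q hqZ z hzZ
      ⟨hyp, G.symm hqp', qz, hy2'.1, hyz, fun h => zp (G.symm h)⟩
  · exact hL.noP4A hp'.1 hy'.1 hcS hq'.1 hdS hyp hcp hqp' (G.symm pd)
      ⟨G.symm hcy, hcq, qd, hy2'.1, hyd, hcd⟩

/-! ### adjacent maximal rows -/

lemma Rch.symm' {a b : V} (h : G.Rch S a b) (ha : a ∈ S) : G.Rch S b a := by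
  induction h with
  | refl => exact Relation.ReflTransGen.refl
  | @tail x y hax hxy ih =>
    have hx : x ∈ S := by
      rcases Relation.ReflTransGen.cases_tail hax with h | ⟨z, -, hz⟩
      · rw [h]; exact ha
      · exact hz.1
    exact (Relation.ReflTransGen.single ⟨hx, G.symm hxy.2⟩).trans ih

lemma Rch.mem {a b : V} (h : G.Rch S a b) (ha : a ∈ S) : b ∈ S := by
  rcases Relation.ReflTransGen.cases_tail h with h | ⟨z, -, hz⟩
  · rw [h]; exact ha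
  · exact hz.1

lemma exit_edge {P : V → Prop} {a b : V} (h : G.Rch S a b) (ha : a ∈ S) (hPa : P a)
    (hPb : ¬ P b) : ∃ w ∈ S, ∃ w' ∈ S, P w ∧ ¬ P w' ∧ G.adj w w' := by
  induction h with
  | refl => exact absurd hPa hPb
  | @tail x y hax hxy ih =>
    by_cases hx : P x
    · exact ⟨x, Rch.mem hax ha, y, hxy.1, hx, hPb, hxy.2⟩
    · exact ih hx

lemma self_mem_Rw {u : V} (hu : u ∈ S) : u ∈ G.Rw S u := mem_Rw.2 ⟨hu, Or.inr rfl⟩

/-- in case (ii) the dominating elements of the components of `Z_t` have no neighbours outside -/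
lemma claimP_aux (hL : Loc β G S) {t : V} (ht : G.Mx S t)
    (hii : ∀ u ∈ S, G.sg u → G.adj u t → G.Rw S u ⊆ G.Rw S t) {c : V} (hc : c ∈ G.Zs S t)
    (sc : G.sg c) (hdom : ∀ a ∈ G.Zs S t, G.Rch (G.Zs S t) c a → a ≠ c → G.adj c a) {a : V}
    (ha : a ∈ S) (hac : G.adj a c) : a ∈ G.Zs S t := by
  have hc' := mem_Zs.1 hc
  by_contra hcon
  have hat : a ≠ t := by
    rintro rfl
    exact hc'.2.2 (G.symm hac)
  have hat' : G.adj a t := by
    by_contra h1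
    exact hcon (mem_Zs.2 ⟨ha, hat, h1⟩)
  have sa : ¬ G.sg a := by
    intro h1
    rcases (mem_Rw.1 (hii a ha h1 hat' (mem_Rw.2 ⟨hc'.1, Or.inl (G.symm hac)⟩))).2 with h2 | h2
    · exact hc'.2.2 h2
    · exact hc'.2.1 h2
  obtain ⟨z, hz, sz, zc, zt, hB⟩ := hL.ax.e2b c hc'.1 t ht.1 hc'.2.1 hc'.2.2 sc ht.2.1
    (Or.inr ⟨a, ha, hac, hat'⟩)
  have haz : a ≠ z := by
    rintro rfl
    exact zc hac
  have haz' := (hB a ha (adj_ne hac) hat haz).1 hac hat'
  have hzt : z ≠ t := by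
    rintro rfl
    exact sz ht.2.1
  have hzZ : z ∈ G.Zs S t := mem_Zs.2 ⟨hz, hzt, zt⟩
  obtain ⟨z', hz', sz', z'a, z'z, -⟩ := hL.ax.e2a a ha z hz haz' sa sz
  have hz't : ¬ G.adj z' t := by
    intro h1
    rcases (mem_Rw.1 (hii z' hz' sz' h1 (mem_Rw.2 ⟨hz, Or.inl (G.symm z'z)⟩))).2 with h2 | h2
    · exact zt h2
    · exact hzt h2
  have hz't' : z' ≠ t := by
    rintro rfl
    exact zt (G.symm z'z)
  have hz'Z : z' ∈ G.Zs S t := mem_Zs.2 ⟨hz', hz't', hz't⟩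
  have hz'c : z' ≠ c := by
    rintro rfl
    exact zc (G.symm z'z)
  have hz'c' : G.adj z' c := ((hB z' hz' hz'c hz't' (adj_ne z'z)).2 z'z).resolve_right hz't
  have hzc : z ≠ c := by
    rintro rfl
    exact sz sc
  refine zc (G.symm (hdom z hzZ ?_ hzc))
  exact (Relation.ReflTransGen.refl.tail ⟨hz'Z, G.symm hz'c'⟩).tail ⟨hzZ, z'z⟩

/-- Claim (P) -/
lemma claimP (hL : Loc β G S) (hconn : ∀ a ∈ S, ∀ b ∈ S, G.Rch S a b)
    (hnd : ∀ c ∈ S, G.sg c → ∃ a ∈ S, a ≠ c ∧ ¬ G.adj a c) (hne : ∃ c ∈ S, G.sg c) :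
    ∃ t u, G.Mx S t ∧ G.Mx S u ∧ G.adj t u ∧ ¬ G.Rw S t ⊆ G.Rw S u ∧ ¬ G.Rw S u ⊆ G.Rw S t := by
  obtain ⟨c₀, hc₀, sc₀⟩ := hne
  obtain ⟨t, ht, -⟩ := exists_Mx hc₀ sc₀
  by_cases hi : ∃ u₀ ∈ S, G.sg u₀ ∧ G.adj u₀ t ∧ ¬ G.Rw S u₀ ⊆ G.Rw S t
  · obtain ⟨u₀, hu₀, su₀, hut, hsub⟩ := hi
    obtain ⟨u, hu, hsub2⟩ := exists_Mx hu₀ su₀
    have h1 : t ∈ G.Rw S u := hsub2 (mem_Rw.2 ⟨ht.1, Or.inl (G.symm hut)⟩)
    have h2 : t ≠ u := by
      rintro rfl
      exact hsub hsub2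
    have h3 : G.adj t u := (mem_Rw.1 h1).2.resolve_right h2
    have h4 : ¬ G.Rw S u ⊆ G.Rw S t := fun h => hsub (hsub2.trans h)
    exact ⟨t, u, ht, hu, h3, fun h => h4 (ht.2.2 u hu.1 hu.2.1 h), h4⟩
  · push Not at hi
    obtain ⟨a, ha, hat, hat'⟩ := hnd t ht.1 ht.2.1
    obtain ⟨w, hw, w', hw', hPw, hPw', hww⟩ := exit_edge (P := fun v => v ∈ G.Rw S t)
      (hconn t ht.1 a ha) ht.1 (self_mem_Rw ht.1) (by
        intro h
        rcases (mem_Rw.1 h).2 with h1 | h1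
        · exact hat' h1
        · exact hat h1)
    have hw't : w' ∈ G.Zs S t := by
      refine mem_Zs.2 ⟨hw', ?_, ?_⟩
      · rintro rfl
        exact hPw' (self_mem_Rw ht.1)
      · exact fun h => hPw' (mem_Rw.2 ⟨hw', Or.inl h⟩)
    have hw't' := mem_Zs.1 hw't
    have hwt : G.adj w t := by
      rcases (mem_Rw.1 hPw).2 with h1 | h1
      · exact h1
      · exact absurd (G.symm hww) (h1 ▸ hw't'.2.2)
    have sw : ¬ G.sg w := by
      intro h1
      exact hPw' (hi w hw h1 hwt (mem_Rw.2 ⟨hw', Or.inl (G.symm hww)⟩))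
    -- a minus neighbour of `w` in the component of `w'`
    have hv : ∃ v ∈ G.Zs S t, G.sg v ∧ G.adj v w ∧ G.Rch (G.Zs S t) w' v := by
      by_cases sw' : G.sg w'
      · exact ⟨w', hw't, sw', G.symm hww, Relation.ReflTransGen.refl⟩
      · obtain ⟨z, hz, sz, zw, zw', -⟩ := hL.ax.e2a w hw w' hw' hww sw sw'
        have hzt : ¬ G.adj z t := by
          intro h1
          exact hPw' (hi z hz sz h1 (mem_Rw.2 ⟨hw', Or.inl (G.symm zw')⟩))
        have hzt' : z ≠ t := by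
          rintro rfl
          exact hw't'.2.2 (G.symm zw')
        have hzZ : z ∈ G.Zs S t := mem_Zs.2 ⟨hz, hzt', hzt⟩
        exact ⟨z, hzZ, sz, zw, Relation.ReflTransGen.refl.tail ⟨hzZ, G.symm zw'⟩⟩
    obtain ⟨v, hv, sv, hvw, hrv⟩ := hv
    have hpre : G.sg w' ∨ ∃ z ∈ G.Zs S t, G.adj w' z := by
      rcases Relation.ReflTransGen.cases_head hrv with h | ⟨z, hz, -⟩
      · left
        rw [h]
        exact sv
      · right
        exact ⟨z, hz.1, hz.2⟩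
    obtain ⟨c, hc, sc, hrc, hdom⟩ := (hL.z t ht.1).dom w' hw't hpre
    have hc' := mem_Zs.1 hc
    have hrcw := Rch.symm' hrc hw't
    have hdomc : ∀ a ∈ G.Zs S t, G.Rch (G.Zs S t) c a → a ≠ c → G.adj c a :=
      fun a ha h1 h2 => hdom a ha (hrc.trans h1) h2
    have hnb : ∀ a ∈ S, G.adj a c → a ∈ G.Zs S t :=
      fun a ha hac => claimP_aux hL ht hi hc sc hdomc ha hac
    have hMc : G.Mx S c := by
      refine ⟨hc'.1, sc, fun v₁ hv₁ sv₁ hsub => ?_⟩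
      rcases (mem_Rw.1 (hsub (self_mem_Rw hc'.1))).2 with h1 | h1
      · have hv₁Z : v₁ ∈ G.Zs S t := hnb v₁ hv₁ (G.symm h1)
        have hrcv : G.Rch (G.Zs S t) c v₁ := Relation.ReflTransGen.refl.tail ⟨hv₁Z, h1⟩
        have hdomv : ∀ a ∈ G.Zs S t, G.Rch (G.Zs S t) v₁ a → a ≠ v₁ → G.adj v₁ a := by
          intro a ha h2 h3
          have h4 : a ∈ G.Rw S c := by
            by_cases h5 : a = c
            · rw [h5]
              exact self_mem_Rw hc'.1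
            · exact mem_Rw.2 ⟨(mem_Zs.1 ha).1, Or.inl (G.symm (hdomc a ha (hrcv.trans h2) h5))⟩
          exact G.symm ((mem_Rw.1 (hsub h4)).2.resolve_right h3)
        intro b hb
        obtain ⟨hbS, hb⟩ := mem_Rw.1 hb
        rcases hb with h2 | h2
        · have hbZ := claimP_aux hL ht hi hv₁Z sv₁ hdomv hbS h2
          by_cases h5 : b = c
          · rw [h5]
            exact self_mem_Rw hc'.1
          · exact mem_Rw.2 ⟨hbS, Or.inl (G.symm (hdomc b hbZ (hrcv.tail ⟨hbZ, G.symm h2⟩) h5))⟩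
        · rw [h2]
          exact mem_Rw.2 ⟨hv₁, Or.inl (G.symm h1)⟩
      · rw [h1]
    have hwZ : w ∉ G.Zs S t := fun h => (mem_Zs.1 h).2.2 hwt
    have hvc : v ≠ c := by
      rintro rfl
      exact hwZ (hnb w hw (G.symm hvw))
    have hcv : G.adj c v := hdomc v hv (hrcw.trans hrv) hvc
    obtain ⟨u, hu, hsub⟩ := exists_Mx (mem_Zs.1 hv).1 sv
    have hcu : c ∈ G.Rw S u := hsub (mem_Rw.2 ⟨hc'.1, Or.inl hcv⟩)
    have hwu : w ∈ G.Rw S u := hsub (mem_Rw.2 ⟨hw, Or.inl (G.symm hvw)⟩)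
    have hwc : w ∉ G.Rw S c := by
      intro h
      rcases (mem_Rw.1 h).2 with h1 | h1
      · exact hwZ (hnb w hw h1)
      · exact hwZ (h1 ▸ hc)
    have hcu' : c ≠ u := by
      rintro rfl
      exact hwc hwu
    have h4 : ¬ G.Rw S u ⊆ G.Rw S c := fun h => hwc (h hwu)
    exact ⟨c, u, hMc, hu, (mem_Rw.1 hcu).2.resolve_right hcu',
      fun h => h4 (hMc.2.2 u hu.1 hu.2.1 h), h4⟩

lemma exists_CoD (hL : Loc β G S) {t u : V} (hu : G.Mx S u) (ht : t ∈ S) (st : G.sg t)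
    (htu : G.adj t u) (hsub : ¬ G.Rw S u ⊆ G.Rw S t) : ∃ d, CoD G S u t d := by
  obtain ⟨a, ha1, ha2⟩ := not_subset.1 hsub
  obtain ⟨haS, ha1⟩ := mem_Rw.1 ha1
  have ha2' : ¬ (G.adj a t ∨ a = t) := fun h => ha2 (mem_Rw.2 ⟨haS, h⟩)
  push Not at ha2'
  have hau : G.adj a u := by
    rcases ha1 with h1 | h1
    · exact h1
    · exact absurd (G.symm htu) (h1 ▸ ha2'.1)
  have htA : t ∈ G.As S u := mem_As.2 ⟨ht, htu⟩
  have haA : a ∈ G.As S u := mem_As.2 ⟨haS, hau⟩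
  obtain ⟨d, hd, sd, hrd, hdom⟩ := (hL.a u hu.1).dom t htA
    (Or.inr ⟨a, haA, ha2'.2.symm, fun h => ha2'.1 (G.symm h)⟩)
  exact ⟨d, hu, htA, st, hd, sd, hrd, fun a ha h1 h2 => (hdom a ha h1 h2).2⟩

/-- the canonical path -/
structure Can (G : SG V) (S : Finset V) (x s t y : V) : Prop where
  h1 : CoD G S s t x
  h2 : CoD G S t s y
  p4 : G.P4 x s t y

lemma exists_Can (hL : Loc β G S) {t u : V} (ht : G.Mx S t) (hu : G.Mx S u) (htu : G.adj t u)
    (hs1 : ¬ G.Rw S t ⊆ G.Rw S u) (hs2 : ¬ G.Rw S u ⊆ G.Rw S t) : ∃ x y, Can G S x u t y := by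
  obtain ⟨x, hx⟩ := exists_CoD hL hu ht.1 ht.2.1 htu hs2
  obtain ⟨y, hy⟩ := exists_CoD hL ht hu.1 hu.2.1 (G.symm htu) hs1
  refine ⟨x, y, hx, hy, (mem_As.1 hx.dA).2, G.symm htu, G.symm (mem_As.1 hy.dA).2, hx.td, ?_,
    fun h => hy.td (G.symm h)⟩
  intro h
  rcases claimU hL hx (mem_As.1 hy.dA).1 (G.symm h) with h1 | h1
  · exact hy.td h1
  · exact hy.sd (h1 ▸ hu.2.1)

lemma Can.no_opt (hL : Loc β G S) {x s t y : V} (h : Can G S x s t y) : ¬ G.Opt S x s t y := by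
  rintro ⟨k, hk, k1, k2, k3, k4, hPat, -⟩
  rcases hPat with ⟨p1, p2, p3, p4⟩ | ⟨p1, p2, p3, p4⟩ | ⟨p1, p2, p3, p4⟩ | ⟨p1, p2, p3, p4⟩
  · refine h.h1.dd k (mem_As.2 ⟨hk, p2⟩) ?_ k1 (G.symm p1)
    exact Relation.ReflTransGen.refl.tail ⟨mem_As.2 ⟨hk, p2⟩, k3.symm, fun h => p3 (G.symm h)⟩
  · rcases claimU hL h.h2 hk p4 with h1 | h1
    · exact p3 h1
    · exact k3 h1
  · rcases claimU hL h.h1 hk p1 with h1 | h1
    · exact p2 h1
    · exact k2 h1
  · refine h.h2.dd k (mem_As.2 ⟨hk, p3⟩) ?_ k4 (G.symm p4)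
    exact Relation.ReflTransGen.refl.tail ⟨mem_As.2 ⟨hk, p3⟩, k2.symm, fun h => p2 (G.symm h)⟩

lemma Can.eopt (hL : Loc β G S) {x s t y : V} (h : Can G S x s t y) :
    β ∧ G.EOpt S x s t y := by
  have hx := (mem_As.1 h.h1.dA).1
  have hy := (mem_As.1 h.h2.dA).1
  rcases hL.ax.e4 x hx s h.h1.mx.1 t h.h2.mx.1 y hy h.p4 h.h1.sd h.h1.mx.2.1 h.h1.st h.h2.sd with
    h1 | h1
  · exact absurd h1 (h.no_opt hL)
  · exact h1

/-! ### Theorem A -/

lemma rch_comp {v a : V} (h : G.Rch S v a) : G.Rch (S.filter fun b => G.Rch S v b) v a := by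
  induction h with
  | refl => exact Relation.ReflTransGen.refl
  | @tail x y hax hxy ih => exact ih.tail ⟨mem_filter.2 ⟨hxy.1, hax.tail hxy⟩, hxy.2⟩

lemma rch_mono {S' : Finset V} (hS : S' ⊆ S) {v a : V} (h : G.Rch S' v a) : G.Rch S v a := by
  induction h with
  | refl => exact Relation.ReflTransGen.refl
  | tail _ hxy ih => exact ih.tail ⟨hS hxy.1, hxy.2⟩

/-- the class is inherited from the components -/
lemma Cls.of_comp (h : ∀ v ∈ S, Cls G (S.filter fun b => G.Rch S v b)) : Cls G S where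
  p4 := by
    intro x hx s hs t ht y hy hP
    have r0 : G.Rch S x x := Relation.ReflTransGen.refl
    have r1 : G.Rch S x s := r0.tail ⟨hs, hP.1⟩
    have r2 : G.Rch S x t := r1.tail ⟨ht, hP.2.1⟩
    have r3 : G.Rch S x y := r2.tail ⟨hy, hP.2.2.1⟩
    exact (h x hx).p4 x (mem_filter.2 ⟨hx, r0⟩) s (mem_filter.2 ⟨hs, r1⟩) t (mem_filter.2 ⟨ht, r2⟩)
      y (mem_filter.2 ⟨hy, r3⟩) hP
  dom := by
    intro v hv hv2
    have hvC : v ∈ S.filter fun b => G.Rch S v b :=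
      mem_filter.2 ⟨hv, Relation.ReflTransGen.refl⟩
    obtain ⟨c, hc, sc, hrc, hdom⟩ := (h v hv).dom v hvC (by
      rcases hv2 with h1 | ⟨w, hw, hvw⟩
      · exact Or.inl h1
      · exact Or.inr ⟨w, mem_filter.2 ⟨hw, Relation.ReflTransGen.refl.tail ⟨hw, hvw⟩⟩, hvw⟩)
    refine ⟨c, (mem_filter.1 hc).1, sc, rch_mono (filter_subset _ _) hrc, fun a ha hva hac => ?_⟩
    exact hdom a (mem_filter.2 ⟨ha, hva⟩) (rch_comp hva) hac

lemma comp_closed {v a b : V} (ha : a ∈ S.filter fun b => G.Rch S v b) (hb : b ∈ S)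
    (hab : G.adj a b) : b ∈ S.filter fun b => G.Rch S v b :=
  mem_filter.2 ⟨hb, (mem_filter.1 ha).2.tail ⟨hb, hab⟩⟩

theorem thmA_aux (n : ℕ) : ∀ (G : SG V) (S : Finset V), S.card ≤ n → Ax False G S → Cls G S := by
  induction n with
  | zero =>
    intro G S hS _
    have : S = ∅ := card_eq_zero.1 (Nat.le_zero.1 hS)
    subst this
    exact ⟨fun x hx => absurd hx (notMem_empty x), fun x hx => absurd hx (notMem_empty x)⟩
  | succ n ih =>
    intro G S hS hax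
    have hL : Loc False G S := by
      refine ⟨hax, fun p hp => ih G _ ?_ (hax.loc_Z hp), fun p hp => ih G.co _ ?_ (hax.loc_A hp)⟩
      · have : (G.Zs S p).card < S.card := card_lt_card (by
          refine ⟨filter_subset _ _, fun h => ?_⟩
          exact (mem_Zs.1 (h hp)).2.1 rfl)
        omega
      · have : (G.As S p).card < S.card := card_lt_card (by
          refine ⟨filter_subset _ _, fun h => ?_⟩
          exact G.irr p (mem_As.1 (h hp)).2)
        omega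
    by_cases hconn : ∀ a ∈ S, ∀ b ∈ S, G.Rch S a b
    · by_cases hdom : ∃ c ∈ S, G.sg c ∧ ∀ a ∈ S, a ≠ c → G.adj a c
      · obtain ⟨c, hc, sc, hdom⟩ := hdom
        refine ⟨?_, fun v hv _ => ⟨c, hc, sc, hconn v hv c hc, fun a ha _ hac =>
          G.symm (hdom a ha hac)⟩⟩
        intro x hx s hs t ht y hy hP
        have n1 := hP.ne1
        have n2 := hP.ne2
        have n3 := hP.ne3
        have hxc : x ≠ c := by
          rintro rfl
          exact hP.2.2.2.1 (G.symm (hdom t ht n1.symm))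
        have hsc : s ≠ c := by
          rintro rfl
          exact hP.2.2.2.2.2 (G.symm (hdom y hy n3.symm))
        have htc : t ≠ c := by
          rintro rfl
          exact hP.2.2.2.1 (hdom x hx hxc)
        have hyc : y ≠ c := by
          rintro rfl
          exact hP.2.2.2.2.1 (hdom x hx hxc)
        exact hL.noP4A hc hx hs ht hy (hdom x hx hxc) (hdom s hs hsc) (hdom t ht htc)
          (hdom y hy hyc) hP
      · push Not at hdom
        by_cases hne : ∃ c ∈ S, G.sg c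
        · exfalso
          obtain ⟨t, u, ht, hu, htu, hs1, hs2⟩ := claimP hL hconn hdom hne
          obtain ⟨x, y, hC⟩ := exists_Can hL ht hu htu hs1 hs2
          exact (hC.eopt hL).1
        · push Not at hne
          have hno : ∀ a ∈ S, ∀ b ∈ S, ¬ G.adj a b := by
            intro a ha b hb hab
            obtain ⟨z, hz, sz, -⟩ := hax.e2a a ha b hb hab (hne a ha) (hne b hb)
            exact hne z hz sz
          refine ⟨fun x hx s hs t ht y hy hP => hno x hx s hs hP.1, fun v hv h => ?_⟩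
          rcases h with h1 | ⟨w, hw, h1⟩
          · exact absurd h1 (hne v hv)
          · exact absurd h1 (hno v hv w hw)
    · refine Cls.of_comp fun v hv => ih G _ ?_ (hax.closed (filter_subset _ _)
        fun a ha b hb hab => comp_closed ha hb hab)
      have : (S.filter fun b => G.Rch S v b).card < S.card := card_lt_card (by
        refine ⟨filter_subset _ _, fun h => hconn fun a ha b hb => ?_⟩
        have h1 := (mem_filter.1 (h ha)).2
        have h2 := (mem_filter.1 (h hb)).2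
        exact (Rch.symm' h1 hv).trans h2)
      omega

/-- Theorem A -/
theorem thmA (h : Ax False G S) : Cls G S := thmA_aux S.card G S le_rfl h

end SG

end H48CP
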