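import Pool.Agent.H48.CP.ThmA

/-!
Theorem B (note 3639 on MP_472c72): beta systems.
-/

namespace H48CP

open Finset
open scoped Classical

namespace SG

variable {V : Type*} {G : SG V} {S : Finset V} {β : Prop}

/-! ### complements -/

lemma Opt.co {x s t y : V} (h : G.Opt S s y x t) : G.co.Opt S x s t y := by
  obtain ⟨k, hk, k1, k2, k3, k4, hPat, hcl⟩ := h
  refine ⟨k, hk, k3, k1, k4, k2, ?_, ?_⟩
  · rcases hPat with ⟨a, b, c, d⟩ | ⟨a, b, c, d⟩ | ⟨a, b, c, d⟩ | ⟨a, b, c, d⟩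
    · exact Or.inr (Or.inr (Or.inl ⟨⟨k3, c⟩, fun e => e.2 a, ⟨k4, d⟩, fun e => e.2 b⟩))
    · exact Or.inl ⟨⟨k3, c⟩, ⟨k1, a⟩, fun e => e.2 d, fun e => e.2 b⟩
    · exact Or.inr (Or.inr (Or.inr ⟨fun e => e.2 c, fun e => e.2 a, ⟨k4, d⟩, ⟨k2, b⟩⟩))
    · exact Or.inr (Or.inl ⟨fun e => e.2 c, ⟨k1, a⟩, fun e => e.2 d, ⟨k2, b⟩⟩)
  · intro q hq q1 q2 q3 q4 q5
    have := hcl q hq q2 q4 q1 q3 q5
    exact ⟨fun e1 e2 e3 e4 e => e.2 (this.2 (not_not.1 fun z => e2 ⟨q2, z⟩) (not_not.1 fun z => e4 ⟨q4, z⟩)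
      (not_not.1 fun z => e1 ⟨q1, z⟩) (not_not.1 fun z => e3 ⟨q3, z⟩)), fun e1 e2 e3 e4 => ⟨q5, this.1 e2.2 e4.2 e1.2 e3.2⟩⟩

/-- beta systems are closed under complements -/
lemma Ax.co (h : Ax True G S) : Ax True G.co S where
  e2a := by
    intro a ha b hb hab sa sb
    have sa' : G.sg a := not_not.1 sa
    have sb' : G.sg b := not_not.1 sb
    obtain ⟨z, hz, sz, za, zb, hB⟩ := h.e2b a ha b hb hab.1 hab.2 sa' sb' (Or.inl trivial)
    refine ⟨z, hz, sz, ⟨?_, za⟩, ⟨?_, zb⟩, ?_⟩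
    · rintro rfl
      exact sz sa'
    · rintro rfl
      exact sz sb'
    · intro v hv h1 h2 h3
      have := hB v hv h1 h2 h3
      exact ⟨fun e1 e2 => ⟨h3, fun e => (this.2 e).elim e1.2 e2.2⟩,
        fun e => (not_and_or.1 fun u => e.2 (this.1 u.1 u.2)).imp (fun z => ⟨h1, z⟩) fun z => ⟨h2, z⟩⟩
  e2b := by
    intro a ha b hb hne hab sa sb _
    have hab' : G.adj a b := by
      by_contra h1
      exact hab ⟨hne, h1⟩
    obtain ⟨z, hz, sz, za, zb, hB⟩ := h.e2a a ha b hb hab' sa sb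
    refine ⟨z, hz, not_not.2 sz, fun h => h.2 za, fun h => h.2 zb, ?_⟩
    intro v hv h1 h2 h3
    have := hB v hv h1 h2 h3
    exact ⟨fun e1 e2 => ⟨h3, fun e => (this.2 e).elim e1.2 e2.2⟩,
      fun e => (not_and_or.1 fun u => e.2 (this.1 u.1 u.2)).imp (fun z => ⟨h1, z⟩) fun z => ⟨h2, z⟩⟩
  e4 := by
    intro x hx s hs t ht y hy hP sx ss st sy
    rcases h.e4 s hs y hy x hx t ht hP.of_co ss (not_not.1 sy) (not_not.1 sx) st with
      h1 | ⟨-, h1⟩
    · exact Or.inl h1.co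
    · refine Or.inr ⟨trivial, fun v hv v1 v2 v3 v4 => ?_⟩
      have := h1 v hv v2 v4 v1 v3
      exact this.symm.imp
        (fun z e => z ⟨fun u => by_contra fun w => (e.1 ⟨v1, w⟩).2 u, fun u => by_contra fun w => (e.2 ⟨v4, w⟩).2 u⟩)
        fun z e => z ⟨fun u => by_contra fun w => (e.2 ⟨v3, w⟩).2 u, fun u => by_contra fun w => (e.1 ⟨v2, w⟩).2 u⟩

lemma Ax.of_disc (h : Ax True G S) {a₀ b₀ : V} (ha₀ : a₀ ∈ S) (hb₀ : b₀ ∈ S)
    (hab : ¬ G.Rch S a₀ b₀) : Ax False G S where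
  e2a := h.e2a
  e2b := fun a ha b hb h1 h2 h3 h4 _ => h.e2b a ha b hb h1 h2 h3 h4 (Or.inl trivial)
  e4 := by
    intro x hx s hs t ht y hy hP sx ss st sy
    rcases h.e4 x hx s hs t ht y hy hP sx ss st sy with h1 | ⟨-, h1⟩
    · exact Or.inl h1
    · exfalso
      have : ∃ v ∈ S, ¬ G.Rch S x v := by
        by_contra hcon
        push Not at hcon
        exact hab ((Rch.symm' (hcon a₀ ha₀) hx).trans (hcon b₀ hb₀))
      obtain ⟨v, hv, hxv⟩ := this
      have r0 : G.Rch S x x := Relation.ReflTransGen.refl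
      have r1 : G.Rch S x s := r0.tail ⟨hs, hP.1⟩
      have r2 : G.Rch S x t := r1.tail ⟨ht, hP.2.1⟩
      have r3 : G.Rch S x y := r2.tail ⟨hy, hP.2.2.1⟩
      have m0 : ∀ w, G.Rch S x w → ¬ G.adj v w := fun w hw h2 => hxv (hw.tail ⟨hv, G.symm h2⟩)
      have m1 : ∀ w, G.Rch S x w → v ≠ w := fun w hw h2 => hxv (h2 ▸ hw)
      have := h1 v hv (m1 x r0) (m1 s r1) (m1 t r2) (m1 y r3)
      exact this.elim (fun z => z (iff_of_false (m0 x r0) (m0 y r3)))
        fun z => z (iff_of_false (m0 s r1) (m0 t r2))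

lemma Ax.loc (h : Ax β G S) : Loc β G S :=
  ⟨h, fun _ hp => thmA (h.loc_Z hp), fun _ hp => thmA (h.loc_A hp)⟩

/-! ### the four modules -/

/-- four modules in a path -/
structure Mod4 (G : SG V) (S Mx Ms Mt My : Finset V) : Prop where
  subx : Mx ⊆ S
  subs : Ms ⊆ S
  subt : Mt ⊆ S
  suby : My ⊆ S
  cov : ∀ v ∈ S, v ∈ Mx ∨ v ∈ Ms ∨ v ∈ Mt ∨ v ∈ My
  xs : ∀ a ∈ Mx, ∀ b ∈ Ms, G.adj a b
  st : ∀ a ∈ Ms, ∀ b ∈ Mt, G.adj a b
  ty : ∀ a ∈ Mt, ∀ b ∈ My, G.adj a b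
  xt : ∀ a ∈ Mx, ∀ b ∈ Mt, ¬ G.adj a b
  xy : ∀ a ∈ Mx, ∀ b ∈ My, ¬ G.adj a b
  sy : ∀ a ∈ Ms, ∀ b ∈ My, ¬ G.adj a b

lemma P4.symm {x s t y : V} (h : G.P4 x s t y) : G.P4 y t s x :=
  ⟨G.symm h.2.2.1, G.symm h.2.1, G.symm h.1, fun h' => h.2.2.2.2.2 (G.symm h'),
    fun h' => h.2.2.2.2.1 (G.symm h'), fun h' => h.2.2.2.1 (G.symm h')⟩

lemma Can.symm {x s t y : V} (h : Can G S x s t y) : Can G S y t s x :=
  ⟨h.h2, h.h1, h.p4.symm⟩

lemma EOpt.symm {x s t y : V} (h : G.EOpt S x s t y) : G.EOpt S y t s x := by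
  intro v hv h1 h2 h3 h4
  have := h v hv h4 h3 h2 h1
  exact this.imp (fun z e => z e.symm) fun z e => z e.symm

/-- the four patterns -/
lemma patterns (hL : Loc β G S) {x s t y : V} (h : Can G S x s t y) (he : G.EOpt S x s t y)
    {v : V} (hv : v ∈ S) (v1 : v ≠ x) (v2 : v ≠ s) (v3 : v ≠ t) (v4 : v ≠ y) :
    (¬ G.adj v x ∧ G.adj v s ∧ ¬ G.adj v t ∧ ¬ G.adj v y) ∨
    (¬ G.adj v x ∧ ¬ G.adj v s ∧ G.adj v t ∧ ¬ G.adj v y) ∨
    (G.adj v x ∧ G.adj v s ∧ G.adj v t ∧ ¬ G.adj v y) ∨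
    (¬ G.adj v x ∧ G.adj v s ∧ G.adj v t ∧ G.adj v y) := by
  have a1 : G.adj v x → G.adj v s := fun h1 => (claimU hL h.h1 hv h1).resolve_right v2
  have a2 : G.adj v y → G.adj v t := fun h1 => (claimU hL h.h2 hv h1).resolve_right v3
  have a3 : G.adj v s → ¬ G.adj v t → ¬ G.adj v x := by
    intro h1 h2 h3
    refine h.h1.dd v (mem_As.2 ⟨hv, h1⟩) ?_ v1 (G.symm h3)
    exact Relation.ReflTransGen.refl.tail ⟨mem_As.2 ⟨hv, h1⟩, v3.symm, fun h => h2 (G.symm h)⟩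
  have a4 : G.adj v t → ¬ G.adj v s → ¬ G.adj v y := by
    intro h1 h2 h3
    refine h.h2.dd v (mem_As.2 ⟨hv, h1⟩) ?_ v4 (G.symm h3)
    exact Relation.ReflTransGen.refl.tail ⟨mem_As.2 ⟨hv, h1⟩, v2.symm, fun h => h2 (G.symm h)⟩
  have := he v hv v1 v2 v3 v4
  by_cases b2 : G.adj v s <;> by_cases b3 : G.adj v t
  · have b5 : ¬ (G.adj v x ↔ G.adj v y) := this.resolve_right fun z => z (iff_of_true b2 b3)
    by_cases b1 : G.adj v x
    · exact Or.inr (Or.inr (Or.inl ⟨b1, b2, b3, fun b4 => b5 (iff_of_true b1 b4)⟩))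
    · exact Or.inr (Or.inr (Or.inr ⟨b1, b2, b3, by_contra fun b4 => b5 (iff_of_false b1 b4)⟩))
  · exact Or.inl ⟨a3 b2 b3, b2, b3, fun z => b3 (a2 z)⟩
  · exact Or.inr (Or.inl ⟨fun z => b2 (a1 z), b2, b3, a4 b3 b2⟩)
  · exact (this.elim (fun z => z (iff_of_false (fun z => b2 (a1 z)) fun z => b3 (a2 z)))
      fun z => z (iff_of_false b2 b3)).elim

section
variable {x s t y : V}

/-- membership in the four classes -/
lemma cls_x (hL : Loc β G S) (h : Can G S x s t y) (he : G.EOpt S x s t y) {v : V}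
    (hv : v ∈ G.Zs S t) : v ∈ S ∧ ¬ G.adj v x ∧ G.adj v s ∧ ¬ G.adj v t ∧ ¬ G.adj v y := by
  rw [mem_Zs] at hv
  obtain ⟨p1, p2, p3, p4, p5, p6⟩ := h.p4
  by_cases v1 : v = x
  · subst v1
    exact ⟨hv.1, G.irr v, p1, p4, p5⟩
  have v2 : v ≠ s := by
    rintro rfl
    exact hv.2.2 p2
  have v4 : v ≠ y := by
    rintro rfl
    exact hv.2.2 (G.symm p3)
  rcases patterns hL h he hv.1 v1 v2 hv.2.1 v4 with q | q | q | q
  · exact ⟨hv.1, q⟩
  · exact absurd q.2.2.1 hv.2.2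
  · exact absurd q.2.2.1 hv.2.2
  · exact absurd q.2.2.1 hv.2.2

lemma cls_s (hL : Loc β G S) (h : Can G S x s t y) (he : G.EOpt S x s t y) {v : V}
    (hv : v ∈ G.As S x) : v = s ∨ (v ∈ S ∧ G.adj v x ∧ G.adj v s ∧ G.adj v t ∧ ¬ G.adj v y) := by
  rw [mem_As] at hv
  obtain ⟨p1, p2, p3, p4, p5, p6⟩ := h.p4
  by_cases v2 : v = s
  · exact Or.inl v2
  right
  have v1 : v ≠ x := adj_ne hv.2
  have v3 : v ≠ t := by
    rintro rfl
    exact p4 (G.symm hv.2)
  have v4 : v ≠ y := by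
    rintro rfl
    exact p5 (G.symm hv.2)
  rcases patterns hL h he hv.1 v1 v2 v3 v4 with q | q | q | q
  · exact absurd hv.2 q.1
  · exact absurd hv.2 q.1
  · exact ⟨hv.1, q⟩
  · exact absurd hv.2 q.1

lemma cls_t (hL : Loc β G S) (h : Can G S x s t y) (he : G.EOpt S x s t y) {v : V}
    (hv : v ∈ G.As S y) : v = t ∨ (v ∈ S ∧ ¬ G.adj v x ∧ G.adj v s ∧ G.adj v t ∧ G.adj v y) := by
  have := cls_s hL h.symm he.symm hv
  exact this.imp id fun q => ⟨q.1, q.2.2.2.2, q.2.2.2.1, q.2.2.1, q.2.1⟩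

lemma cls_y (hL : Loc β G S) (h : Can G S x s t y) (he : G.EOpt S x s t y) {v : V}
    (hv : v ∈ G.Zs S s) : v ∈ S ∧ ¬ G.adj v x ∧ ¬ G.adj v s ∧ G.adj v t ∧ ¬ G.adj v y := by
  have := cls_x hL h.symm he.symm hv
  exact ⟨this.1, this.2.2.2.2, this.2.2.2.1, this.2.2.1, this.2.1⟩

lemma cls_cov (hL : Loc β G S) (h : Can G S x s t y) (he : G.EOpt S x s t y) {v : V}
    (hv : v ∈ S) : v ∈ G.Zs S t ∨ v ∈ G.As S x ∨ v ∈ G.As S y ∨ v ∈ G.Zs S s := by
  obtain ⟨p1, p2, p3, p4, p5, p6⟩ := h.p4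
  simp only [mem_Zs, mem_As]
  by_cases v1 : v = x
  · subst v1
    left
    exact ⟨hv, h.p4.ne1, p4⟩
  by_cases v2 : v = s
  · subst v2
    right; left
    exact ⟨hv, G.symm p1⟩
  by_cases v3 : v = t
  · subst v3
    right; right; left
    exact ⟨hv, p3⟩
  by_cases v4 : v = y
  · subst v4
    right; right; right
    exact ⟨hv, h.p4.ne3.symm, fun h => p6 (G.symm h)⟩
  rcases patterns hL h he hv v1 v2 v3 v4 with q | q | q | q
  · exact Or.inl ⟨hv, v3, q.2.2.1⟩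
  · exact Or.inr (Or.inr (Or.inr ⟨hv, v2, q.2.1⟩))
  · exact Or.inr (Or.inl ⟨hv, q.1⟩)
  · exact Or.inr (Or.inr (Or.inl ⟨hv, q.2.2.2⟩))

lemma mod_xs (hL : Loc β G S) (h : Can G S x s t y) (he : G.EOpt S x s t y) {w v : V}
    (hw : w ∈ G.Zs S t) (hv : v ∈ G.As S x) : G.adj w v := by
  have hw' := cls_x hL h he hw
  rcases cls_s hL h he hv with rfl | hv'
  · exact hw'.2.2.1
  · have hvA : v ∈ G.As S s := mem_As.2 ⟨hv'.1, hv'.2.2.1⟩
    have hwA : w ∈ G.As S s := mem_As.2 ⟨hw'.1, hw'.2.2.1⟩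
    have hvD : ¬ G.co.Rch (G.As S s) t v := fun h1 =>
      h.h1.dd v hvA h1 (adj_ne hv'.2.1) (G.symm hv'.2.1)
    refine co_adj hvA hvD ?_
    exact Relation.ReflTransGen.refl.tail ⟨hwA, (mem_Zs.1 hw).2.1.symm,
      fun h => hw'.2.2.2.1 (G.symm h)⟩

lemma mod_st (hL : Loc β G S) (h : Can G S x s t y) (he : G.EOpt S x s t y) {v w : V}
    (hv : v ∈ G.As S x) (hw : w ∈ G.As S y) : G.adj v w := by
  rcases cls_t hL h he hw with rfl | hw'
  · rcases cls_s hL h he hv with rfl | hv'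
    · exact h.p4.2.1
    · exact hv'.2.2.2.1
  · rcases cls_s hL h he hv with rfl | hv'
    · exact G.symm hw'.2.2.1
    · have hvA : v ∈ G.As S s := mem_As.2 ⟨hv'.1, hv'.2.2.1⟩
      have hwA : w ∈ G.As S s := mem_As.2 ⟨hw'.1, hw'.2.2.1⟩
      have hvD : ¬ G.co.Rch (G.As S s) t v := fun h1 =>
        h.h1.dd v hvA h1 (adj_ne hv'.2.1) (G.symm hv'.2.1)
      refine G.symm (co_adj hvA hvD (h.h1.rd.tail ⟨hwA, ?_, fun h => hw'.2.1 (G.symm h)⟩))
      rintro rfl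
      exact h.p4.2.2.2.2.1 (mem_As.1 hw).2

/-- `M_x` is not adjacent to `M_t`, `M_y` -/
lemma mod_xty (hL : Loc β G S) (h : Can G S x s t y) (he : G.EOpt S x s t y) {m w : V}
    (hm : m ∈ G.Zs S t) (hw : w ∈ G.As S y ∨ w ∈ G.Zs S s) : ¬ G.adj m w := by
  intro hmw
  have hxS : x ∈ S := (mem_As.1 h.h1.dA).1
  have htS : t ∈ S := h.h2.mx.1
  have hyS : y ∈ S := (mem_As.1 h.h2.dA).1
  obtain ⟨p1, p2, p3, p4, p5, p6⟩ := h.p4
  have htZ : t ∈ G.Zs S x := mem_Zs.2 ⟨htS, h.p4.ne1.symm, fun h => p4 (G.symm h)⟩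
  have hyZ : y ∈ G.Zs S x := mem_Zs.2 ⟨hyS, h.p4.ne2.symm, fun h => p5 (G.symm h)⟩
  obtain ⟨c, hc, sc, hrc, hdom⟩ := (hL.z x hxS).dom t htZ (Or.inl h.h2.mx.2.1)
  have hcS := (mem_Zs.1 hc).1
  have r0 : G.Rch (G.Zs S x) t t := Relation.ReflTransGen.refl
  have hyc : y ≠ c := by
    rintro rfl
    exact h.h2.sd sc
  have hcy : G.adj c y := hdom y hyZ (r0.tail ⟨hyZ, p3⟩) hyc
  have hcM : c ∈ G.As S y := mem_As.2 ⟨hcS, hcy⟩
  have hin : ∀ w, (w ∈ G.As S y ∨ w ∈ G.Zs S s) → w ∈ G.Zs S x ∧ G.Rch (G.Zs S x) t w := by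
    intro w hw
    have hwZ : w ∈ G.Zs S x := by
      rcases hw with hw | hw
      · rcases cls_t hL h he hw with rfl | hw'
        · exact htZ
        · refine mem_Zs.2 ⟨hw'.1, ?_, hw'.2.1⟩
          rintro rfl
          exact p5 hw'.2.2.2.2
      · have hw' := cls_y hL h he hw
        refine mem_Zs.2 ⟨hw'.1, ?_, hw'.2.1⟩
        rintro rfl
        exact hw'.2.2.1 p1
    refine ⟨hwZ, ?_⟩
    rcases hw with hw | hw
    · rcases cls_t hL h he hw with rfl | hw'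
      · exact r0
      · exact r0.tail ⟨hwZ, G.symm hw'.2.2.2.1⟩
    · exact r0.tail ⟨hwZ, G.symm (cls_y hL h he hw).2.2.2.1⟩
  have hsub : G.Rw S t ⊆ G.Rw S c := by
    intro v hv
    obtain ⟨hvS, hv⟩ := mem_Rw.1 hv
    refine mem_Rw.2 ⟨hvS, ?_⟩
    by_cases hvc : v = c
    · exact Or.inr hvc
    left
    rcases cls_cov hL h he hvS with h1 | h1 | h1 | h1
    · exfalso
      rcases hv with h2 | h2
      · exact (mem_Zs.1 h1).2.2 h2
      · exact (mem_Zs.1 h1).2.1 h2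
    · exact mod_st hL h he h1 hcM
    · have := hin v (Or.inl h1)
      exact G.symm (hdom v this.1 this.2 hvc)
    · have := hin v (Or.inr h1)
      exact G.symm (hdom v this.1 this.2 hvc)
  have hsub2 := h.h2.mx.2.2 c hcS sc hsub
  have hm' := cls_x hL h he hm
  have hmx : m ≠ x := by
    rintro rfl
    exact (mem_Zs.1 (hin w hw).1).2.2 (G.symm hmw)
  have hmZ : m ∈ G.Zs S x := mem_Zs.2 ⟨hm'.1, hmx, hm'.2.1⟩
  have hrm : G.Rch (G.Zs S x) t m := (hin w hw).2.tail ⟨hmZ, G.symm hmw⟩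
  have hmc : m ≠ c := by
    rintro rfl
    exact hm'.2.2.2.2 hcy
  have h1 := hdom m hmZ hrm hmc
  rcases (mem_Rw.1 (hsub2 (mem_Rw.2 ⟨hm'.1, Or.inl (G.symm h1)⟩))).2 with h2 | h2
  · exact hm'.2.2.2.1 h2
  · exact (mem_Zs.1 hm).2.1 h2

lemma Can.mod4 (hL : Loc β G S) (h : Can G S x s t y) (he : G.EOpt S x s t y) :
    Mod4 G S (G.Zs S t) (G.As S x) (G.As S y) (G.Zs S s) where
  subx := filter_subset _ _
  subs := filter_subset _ _
  subt := filter_subset _ _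
  suby := filter_subset _ _
  cov := fun v hv => cls_cov hL h he hv
  xs := fun a ha b hb => mod_xs hL h he ha hb
  st := fun a ha b hb => mod_st hL h he ha hb
  ty := fun a ha b hb => G.symm (mod_xs hL h.symm he.symm hb ha)
  xt := fun a ha b hb => mod_xty hL h he ha (Or.inl hb)
  xy := fun a ha b hb => mod_xty hL h he ha (Or.inr hb)
  sy := fun a ha b hb h' => mod_xty hL h.symm he.symm hb (Or.inl ha) (G.symm h')

end

/-- Theorem B, connected and co-connected case -/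
theorem thmB_conn (h : Ax True G S) (h2 : 2 ≤ S.card) (hconn : ∀ a ∈ S, ∀ b ∈ S, G.Rch S a b)
    (hco : ∀ a ∈ S, ∀ b ∈ S, G.co.Rch S a b) :
    ∃ x s t y, Can G S x s t y ∧ G.EOpt S x s t y := by
  have hL := h.loc
  obtain ⟨a, ha, b, hb, hab⟩ := one_lt_card.1 (by omega : 1 < S.card)
  have hnb : ∀ c ∈ S, ∃ w ∈ S, w ≠ c := by
    intro c _
    by_cases h1 : a = c
    · exact ⟨b, hb, fun h => hab (h1.trans h.symm)⟩
    · exact ⟨a, ha, h1⟩
  have hnd : ∀ c ∈ S, G.sg c → ∃ w ∈ S, w ≠ c ∧ ¬ G.adj w c := by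
    intro c hc _
    obtain ⟨w, hw, hwc⟩ := hnb c hc
    rcases Relation.ReflTransGen.cases_head (hco c hc w hw) with h1 | ⟨z, hz, -⟩
    · exact absurd h1.symm hwc
    · exact ⟨z, hz.1, hz.2.1.symm, fun h => hz.2.2 (G.symm h)⟩
  have hne : ∃ c ∈ S, G.sg c := by
    by_contra hcon
    push Not at hcon
    rcases Relation.ReflTransGen.cases_head (hconn a ha b hb) with h1 | ⟨z, hz, -⟩
    · exact hab h1
    · obtain ⟨z', hz', sz', -⟩ := h.e2a a ha z hz.1 hz.2 (hcon a ha) (hcon z hz.1)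
      exact hcon z' hz' sz'
  obtain ⟨t, u, ht, hu, htu, hs1, hs2⟩ := claimP hL hconn hnd hne
  obtain ⟨x, y, hC⟩ := exists_Can hL ht hu htu hs1 hs2
  exact ⟨x, u, t, y, hC, (hC.eopt hL).2⟩

/-! ### pairs whose rows differ in at most one element -/

/-- the rows of `a` and `b` differ in at most one element, which is `a` or `b` -/
structure Tw (G : SG V) (S : Finset V) (a b : V) : Prop where
  ha : a ∈ S
  hb : b ∈ S
  ne : a ≠ b
  tw : ∀ v ∈ S, v ≠ a → v ≠ b → (G.adj v a ↔ G.adj v b)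
  sgn : (G.sg a ↔ G.adj a b) ∨ (G.sg b ↔ G.adj a b)

lemma Tw.of_co {a b : V} (h : Tw G.co S a b) : Tw G S a b := by
  refine ⟨h.ha, h.hb, h.ne, fun v hv h1 h2 => ?_, ?_⟩
  · have := h.tw v hv h1 h2
    exact ⟨fun u => by_contra fun w => (this.2 ⟨h2, w⟩).2 u, fun u => by_contra fun w => (this.1 ⟨h1, w⟩).2 u⟩
  · have h1 := h.sgn
    have h2 := h.ne
    exact h1.imp (fun z => ⟨fun u => by_contra fun w => z.2 ⟨h2, w⟩ u, fun u => by_contra fun w => (z.1 w).2 u⟩)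
      fun z => ⟨fun u => by_contra fun w => z.2 ⟨h2, w⟩ u, fun u => by_contra fun w => (z.1 w).2 u⟩

/-- Theorem A, corollary: a leaf or twin pair, or an isolated element -/
theorem thmA_tw (n : ℕ) : ∀ (G : SG V) (S : Finset V), S.card ≤ n → Ax False G S → S.Nonempty →
    (∃ a b, Tw G S a b) ∨ ∃ v ∈ S, ∀ w ∈ S, ¬ G.adj w v := by
  induction n with
  | zero =>
    intro G S hS _ hne
    have := hne.card_pos
    omega
  | succ n ih =>
    intro G S hS hax hne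
    by_cases hiso : ∃ v ∈ S, ∀ w ∈ S, ¬ G.adj w v
    · exact Or.inr hiso
    left
    push Not at hiso
    obtain ⟨v, hv⟩ := hne
    obtain ⟨w, hw, hwv⟩ := hiso v hv
    obtain ⟨c, hc, sc, hrc, hdom⟩ := (thmA hax).dom v hv (Or.inr ⟨w, hw, G.symm hwv⟩)
    have hdom' : ∀ a ∈ S, G.Rch S c a → a ≠ c → G.adj c a :=
      fun a ha h1 h2 => hdom a ha (hrc.trans h1) h2
    have hAne : (G.As S c).Nonempty := by
      obtain ⟨w, hw, hwc⟩ := hiso c hc
      exact ⟨w, mem_As.2 ⟨hw, hwc⟩⟩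
    have hout : ∀ a ∈ G.As S c, ∀ w ∈ S, G.adj w a → w ≠ c → G.adj w c := by
      intro a ha w hw hwa hwc
      obtain ⟨haS, hac⟩ := mem_As.1 ha
      refine G.symm (hdom' w hw ?_ hwc)
      exact (Relation.ReflTransGen.refl.tail ⟨haS, G.symm hac⟩).tail ⟨hw, G.symm hwa⟩
    have hcard : (G.As S c).card ≤ n := by
      have : (G.As S c).card < S.card := card_lt_card (by
        refine ⟨filter_subset _ _, fun h => ?_⟩
        exact G.irr c (mem_As.1 (h hc)).2)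
      omega
    rcases ih G.co (G.As S c) hcard (hax.loc_A hc) hAne with ⟨a, b, h1⟩ | ⟨v', hv', h1⟩
    · have h2 := h1.of_co
      have ha := mem_As.1 h2.ha
      have hb := mem_As.1 h2.hb
      refine ⟨a, b, ha.1, hb.1, h2.ne, fun w hw wa wb => ?_, h2.sgn⟩
      by_cases hwc : w = c
      · subst hwc
        exact ⟨fun _ => G.symm hb.2, fun _ => G.symm ha.2⟩
      by_cases hwA : G.adj w c
      · exact h2.tw w (mem_As.2 ⟨hw, hwA⟩) wa wb
      · exact ⟨fun h => absurd (hout a h2.ha w hw h hwc) hwA,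
          fun h => absurd (hout b h2.hb w hw h hwc) hwA⟩
    · have hv'' := mem_As.1 hv'
      have hall : ∀ w ∈ G.As S c, w ≠ v' → G.adj w v' := by
        intro w hw hwv
        by_contra h2
        exact h1 w hw ⟨hwv, h2⟩
      refine ⟨c, v', hc, hv''.1, (adj_ne hv''.2).symm, fun w hw wc wv => ?_,
        Or.inl ⟨fun _ => G.symm hv''.2, fun _ => sc⟩⟩
      constructor
      · intro h2
        exact hall w (mem_As.2 ⟨hw, h2⟩) wv
      · intro h2
        exact hout v' hv' w hw h2 wc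

/-- if both kinds of axioms hold and there are at least two elements then there is a pair -/
lemma exists_tw (h1 : Ax True G S) (h2 : Ax False G S) (hS : 2 ≤ S.card) : ∃ a b, Tw G S a b := by
  have hne : S.Nonempty := card_pos.1 (by omega)
  rcases thmA_tw S.card G S le_rfl h2 hne with h | ⟨v, hv, hviso⟩
  · exact h
  have hcl : ∀ a ∈ S.erase v, ∀ b ∈ S, G.adj a b → b ∈ S.erase v := by
    intro a ha b hb hab
    refine mem_erase.2 ⟨?_, hb⟩
    rintro rfl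
    exact hviso a (mem_of_mem_erase ha) hab
  have hne2 : (S.erase v).Nonempty := card_pos.1 (by rw [card_erase_of_mem hv]; omega)
  rcases thmA_tw (S.erase v).card G (S.erase v) le_rfl (h2.closed (erase_subset _ _) hcl) hne2 with
    ⟨a, b, h⟩ | ⟨v', hv', hviso'⟩
  · refine ⟨a, b, mem_of_mem_erase h.ha, mem_of_mem_erase h.hb, h.ne, fun w hw wa wb => ?_, h.sgn⟩
    by_cases hwv : w = v
    · subst hwv
      exact ⟨fun h' => absurd (G.symm h') (hviso a (mem_of_mem_erase h.ha)),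
        fun h' => absurd (G.symm h') (hviso b (mem_of_mem_erase h.hb))⟩
    · exact h.tw w (mem_erase.2 ⟨hwv, hw⟩) wa wb
  · -- two isolated elements
    obtain ⟨hv'v, hv'S⟩ := mem_erase.1 hv'
    have hviso2 : ∀ w ∈ S, ¬ G.adj w v' := by
      intro w hw
      by_cases hwv : w = v
      · subst hwv
        exact fun h => hviso v' hv'S (G.symm h)
      · exact hviso' w (mem_erase.2 ⟨hwv, hw⟩)
    have key : ∀ a b, a ∈ S → b ∈ S → a ≠ b → (∀ w ∈ S, ¬ G.adj w a) → (∀ w ∈ S, ¬ G.adj w b) →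
        ¬ G.sg a → Tw G S a b := by
      intro a b ha hb hab ia ib sa
      refine ⟨ha, hb, hab, fun w hw _ _ => ⟨fun h => absurd h (ia w hw),
        fun h => absurd h (ib w hw)⟩, Or.inl ⟨fun h => absurd h sa, fun h => absurd h (ib a ha)⟩⟩
    by_cases sv : G.sg v
    · by_cases sv' : G.sg v'
      · obtain ⟨z, hz, sz, zv, zv', hB⟩ := h1.e2b v hv v' hv'S hv'v.symm (hviso2 v hv) sv sv'
          (Or.inl trivial)
        have hzv : z ≠ v := by
          rintro rfl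
          exact sz sv
        have ziso : ∀ w ∈ S, ¬ G.adj w z := by
          intro w hw hwz
          by_cases h3 : w = v
          · exact zv (G.symm (h3 ▸ hwz))
          by_cases h4 : w = v'
          · exact zv' (G.symm (h4 ▸ hwz))
          rcases (hB w hw h3 h4 (adj_ne hwz)).2 hwz with h5 | h5
          · exact hviso w hw h5
          · exact hviso2 w hw h5
        exact ⟨z, v, key z v hz hv hzv ziso hviso sz⟩
      · exact ⟨v', v, key v' v hv'S hv hv'v hviso2 hviso sv'⟩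
    · exact ⟨v, v', key v v' hv hv'S hv'v.symm hviso hviso2 sv⟩

/-- beta axioms for the non-neighbours of a minus element -/
lemma Ax.loc_Zb (h : Ax True G S) {p : V} (hp : p ∈ S) (sp : G.sg p) : Ax True G (G.Zs S p) where
  e2a := (h.loc_Z hp).e2a
  e2b := by
    intro a ha b hb hne hab sa sb _
    rw [mem_Zs] at ha hb
    obtain ⟨z, hz, sz, za, zb, hB⟩ := h.e2b a ha.1 b hb.1 hne hab sa sb (Or.inl trivial)
    have hzp : z ≠ p := by
      rintro rfl
      exact sz sp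
    have hzp' : ¬ G.adj z p := by
      intro hzp'
      rcases (hB p hp ha.2.1.symm hb.2.1.symm hzp.symm).2 (G.symm hzp') with h1 | h1
      · exact ha.2.2 (G.symm h1)
      · exact hb.2.2 (G.symm h1)
    exact ⟨z, mem_Zs.2 ⟨hz, hzp, hzp'⟩, sz, za, zb, fun v hv => hB v (mem_Zs.1 hv).1⟩
  e4 := by
    intro x hx s hs t ht y hy hP sx ss st sy
    rcases (h.loc_Z hp).e4 x hx s hs t ht y hy hP sx ss st sy with h1 | h1
    · exact Or.inl h1
    · exact absurd h1.1 id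

lemma Zs_co {p : V} : G.co.Zs S p = G.As S p := by
  ext v
  simp only [mem_Zs, mem_As, SG.co]
  constructor
  · rintro ⟨h1, h2, h3⟩
    exact ⟨h1, by_contra fun w => h3 ⟨h2, w⟩⟩
  · rintro ⟨h1, h2⟩
    exact ⟨h1, adj_ne h2, fun h => h.2 h2⟩

lemma tw_module {M : Finset V} (hM : M ⊆ S)
    (hmod : ∀ v ∈ S, v ∉ M → ∀ a ∈ M, ∀ b ∈ M, (G.adj v a ↔ G.adj v b)) {a b : V}
    (h : Tw G M a b) : Tw G S a b := by
  refine ⟨hM h.ha, hM h.hb, h.ne, fun w hw wa wb => ?_, h.sgn⟩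
  by_cases hwM : w ∈ M
  · exact h.tw w hwM wa wb
  · exact hmod w hw hwM a h.ha b h.hb

/-- Theorem B: a beta system with at least two elements has a pair whose rows differ in at most one
element, or it is a path with four vertices -/
theorem thmB (h : Ax True G S) (h2 : 2 ≤ S.card) :
    (∃ a b, Tw G S a b) ∨ ∃ x s t y, (∀ v, v ∈ S ↔ v = x ∨ v = s ∨ v = t ∨ v = y) ∧
      G.P4 x s t y ∧ ¬ G.sg x ∧ G.sg s ∧ G.sg t ∧ ¬ G.sg y := by
  by_cases hconn : ∀ a ∈ S, ∀ b ∈ S, G.Rch S a b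
  · by_cases hco : ∀ a ∈ S, ∀ b ∈ S, G.co.Rch S a b
    · obtain ⟨x, s, t, y, hC, hE⟩ := thmB_conn h h2 hconn hco
      have hL := h.loc
      have hM := hC.mod4 hL hE
      by_cases htw : ∃ a b, Tw G S a b
      · exact Or.inl htw
      right
      have hxS : x ∈ S := (mem_As.1 hC.h1.dA).1
      have hsS : s ∈ S := hC.h1.mx.1
      have htS : t ∈ S := hC.h2.mx.1
      have hyS : y ∈ S := (mem_As.1 hC.h2.dA).1
      obtain ⟨p1, p2, p3, p4, p5, p6⟩ := hC.p4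
      have hxM : x ∈ G.Zs S t := mem_Zs.2 ⟨hxS, hC.p4.ne1, p4⟩
      have hsM : s ∈ G.As S x := mem_As.2 ⟨hsS, G.symm p1⟩
      have htM : t ∈ G.As S y := mem_As.2 ⟨htS, p3⟩
      have hyM : y ∈ G.Zs S s := mem_Zs.2 ⟨hyS, hC.p4.ne3.symm, fun h => p6 (G.symm h)⟩
      have one : ∀ M : Finset V, M ⊆ S → Ax True G M → Ax False G M →
          (∀ v ∈ S, v ∉ M → ∀ a ∈ M, ∀ b ∈ M, (G.adj v a ↔ G.adj v b)) →
          ∀ a ∈ M, ∀ b ∈ M, a = b := by
        intro M hMS a1 a2 hmod a ha b hb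
        by_contra hab
        obtain ⟨c, d, hcd⟩ := exists_tw a1 a2 (one_lt_card.2 ⟨a, ha, b, hb, hab⟩)
        exact htw ⟨c, d, tw_module hMS hmod hcd⟩
      have oneco : ∀ M : Finset V, M ⊆ S → Ax True G.co M → Ax False G.co M →
          (∀ v ∈ S, v ∉ M → ∀ a ∈ M, ∀ b ∈ M, (G.adj v a ↔ G.adj v b)) →
          ∀ a ∈ M, ∀ b ∈ M, a = b := by
        intro M hMS a1 a2 hmod a ha b hb
        by_contra hab
        obtain ⟨c, d, hcd⟩ := exists_tw a1 a2 (one_lt_card.2 ⟨a, ha, b, hb, hab⟩)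
        exact htw ⟨c, d, tw_module hMS hmod hcd.of_co⟩
      have ex : ∀ a ∈ G.Zs S t, a = x := by
        intro a ha
        refine one _ hM.subx (h.loc_Zb htS hC.h2.mx.2.1) (h.loc_Z htS) ?_ a ha x hxM
        intro v hv hvM a ha b hb
        rcases hM.cov v hv with h1 | h1 | h1 | h1
        · exact absurd h1 hvM
        · exact ⟨fun _ => G.symm (hM.xs b hb v h1), fun _ => G.symm (hM.xs a ha v h1)⟩
        · exact ⟨fun h' => absurd (G.symm h') (hM.xt a ha v h1),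
            fun h' => absurd (G.symm h') (hM.xt b hb v h1)⟩
        · exact ⟨fun h' => absurd (G.symm h') (hM.xy a ha v h1),
            fun h' => absurd (G.symm h') (hM.xy b hb v h1)⟩
      have ey : ∀ a ∈ G.Zs S s, a = y := by
        intro a ha
        refine one _ hM.suby (h.loc_Zb hsS hC.h1.mx.2.1) (h.loc_Z hsS) ?_ a ha y hyM
        intro v hv hvM a ha b hb
        rcases hM.cov v hv with h1 | h1 | h1 | h1
        · exact ⟨fun h' => absurd h' (hM.xy v h1 a ha), fun h' => absurd h' (hM.xy v h1 b hb)⟩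
        · exact ⟨fun h' => absurd h' (hM.sy v h1 a ha), fun h' => absurd h' (hM.sy v h1 b hb)⟩
        · exact ⟨fun _ => hM.ty v h1 b hb, fun _ => hM.ty v h1 a ha⟩
        · exact absurd h1 hvM
      have hco' := h.co
      have es : ∀ a ∈ G.As S x, a = s := by
        intro a ha
        have b1 : Ax True G.co (G.As S x) := by
          have := hco'.loc_Zb hxS hC.h1.sd
          rwa [Zs_co] at this
        refine oneco _ hM.subs b1 (h.loc_A hxS) ?_ a ha s hsM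
        intro v hv hvM a ha b hb
        rcases hM.cov v hv with h1 | h1 | h1 | h1
        · exact ⟨fun _ => hM.xs v h1 b hb, fun _ => hM.xs v h1 a ha⟩
        · exact absurd h1 hvM
        · exact ⟨fun _ => G.symm (hM.st b hb v h1), fun _ => G.symm (hM.st a ha v h1)⟩
        · exact ⟨fun h' => absurd (G.symm h') (hM.sy a ha v h1),
            fun h' => absurd (G.symm h') (hM.sy b hb v h1)⟩
      have et : ∀ a ∈ G.As S y, a = t := by
        intro a ha
        have b1 : Ax True G.co (G.As S y) := by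
          have := hco'.loc_Zb hyS hC.h2.sd
          rwa [Zs_co] at this
        refine oneco _ hM.subt b1 (h.loc_A hyS) ?_ a ha t htM
        intro v hv hvM a ha b hb
        rcases hM.cov v hv with h1 | h1 | h1 | h1
        · exact ⟨fun h' => absurd h' (hM.xt v h1 a ha), fun h' => absurd h' (hM.xt v h1 b hb)⟩
        · exact ⟨fun _ => hM.st v h1 b hb, fun _ => hM.st v h1 a ha⟩
        · exact absurd h1 hvM
        · exact ⟨fun _ => G.symm (hM.ty b hb v h1), fun _ => G.symm (hM.ty a ha v h1)⟩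
      refine ⟨x, s, t, y, fun v => ⟨fun hv => ?_, ?_⟩, hC.p4, hC.h1.sd, hC.h1.mx.2.1,
        hC.h2.mx.2.1, hC.h2.sd⟩
      · rcases hM.cov v hv with h1 | h1 | h1 | h1
        · exact Or.inl (ex v h1)
        · exact Or.inr (Or.inl (es v h1))
        · exact Or.inr (Or.inr (Or.inl (et v h1)))
        · exact Or.inr (Or.inr (Or.inr (ey v h1)))
      · rintro (rfl | rfl | rfl | rfl)
        · exact hxS
        · exact hsS
        · exact htS
        · exact hyS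
    · push Not at hco
      obtain ⟨a, ha, b, hb, hab⟩ := hco
      obtain ⟨c, d, hcd⟩ := exists_tw h.co (h.co.of_disc ha hb hab) h2
      exact Or.inl ⟨c, d, hcd.of_co⟩
  · push Not at hconn
    obtain ⟨a, ha, b, hb, hab⟩ := hconn
    exact Or.inl (exists_tw h (h.of_disc ha hb hab) h2)

end SG

end H48CP
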